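import Mathlib

/-!
# Tensors, Kronecker powers, systems of tensors: definitions and statements of pieces
-/

set_option autoImplicit false

namespace Pool.Agent.K6.H94.TG

open Matrix

/-- The Kronecker power with `n` factors of the matrix `g`. -/
def kpw {R : Type} [CommRing R] {ι : Type} (n : ℕ) (g : Matrix ι ι R) :
    Matrix (Fin n → ι) (Fin n → ι) R :=
  Matrix.of fun i j => ∏ a, g (i a) (j a)

/-- The entries of a matrix, as a point of an affine space. -/
def ent {R : Type} {ι : Type} (g : Matrix ι ι R) : ι × ι → R := fun p => g p.1 p.2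

section Fixed

variable {K : Type} [Field K] {ι : Type} [Fintype ι] [DecidableEq ι] {G : Type} [Group G]

/-- The tensors (with coordinates `x i`, `i : Fin n → ι`) which are fixed by the group. -/
def Fixed (ρ : G →* Matrix ι ι K) (n : ℕ) : Submodule K ((Fin n → ι) → K) where
  carrier := {x | ∀ g, kpw n (ρ g) *ᵥ x = x}
  add_mem' {a b} ha hb g := by rw [Matrix.mulVec_add, ha g, hb g]
  zero_mem' g := Matrix.mulVec_zero _
  smul_mem' c a ha g := by rw [Matrix.mulVec_smul, ha g]

/-- The tensors with `n` factors are a completely reducible representation: each stable subspace has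
a stable complement. -/
def CR (ρ : G →* Matrix ι ι K) (n : ℕ) : Prop :=
  ∀ U : Submodule K ((Fin n → ι) → K), (∀ g, ∀ x ∈ U, kpw n (ρ g) *ᵥ x ∈ U) →
    ∃ W : Submodule K ((Fin n → ι) → K), (∀ g, ∀ x ∈ W, kpw n (ρ g) *ᵥ x ∈ W) ∧ IsCompl U W

end Fixed

/-- The product of two tensors. -/
def tmul {K : Type} [Mul K] {ι : Type} {m n : ℕ} (x : (Fin m → ι) → K) (y : (Fin n → ι) → K) :
    (Fin (m + n) → ι) → K :=
  fun i => x (fun a => i (Fin.castAdd n a)) * y (fun a => i (Fin.natAdd m a))

/-- A family of spaces of tensors stable under permutations of the factors and products. -/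
def IsSys {K : Type} [Field K] {ι : Type} (C : ∀ n, Submodule K ((Fin n → ι) → K)) : Prop :=
  (∀ n (σ : Equiv.Perm (Fin n)), ∀ x ∈ C n, (fun i => x (i ∘ σ)) ∈ C n) ∧
    ∀ m n, ∀ x ∈ C m, ∀ y ∈ C n, tmul x y ∈ C (m + n)

/-- **Piece HIL** (theorems of Weyl and Hilbert): if all tensor powers are completely reducible then the
invariant tensors are generated by finitely many of them, under products, permutations of the factors
and linear combinations. -/
def S_HIL : Prop :=
  ∀ (K : Type) [Field K] [CharZero K] (ι : Type) [Fintype ι] [DecidableEq ι] (G : Type) [Group G]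
    (ρ : G →* Matrix ι ι K), (∀ n, CR ρ n) →
    ∃ N : ℕ, ∀ C : ∀ n, Submodule K ((Fin n → ι) → K), IsSys C →
      (∀ m ≤ N, Fixed ρ m ≤ C m) → ∀ n, Fixed ρ n ≤ C n

/-- **Piece GEN**: the monoid generated by a family of matrices depending on a parameter has generic
points of finite length: there is a sequence `s` such that polynomials which vanish on the products
`lam (s 0) (t 0) * ... * lam (s (r - 1)) (t (r - 1))` vanish on the monoid. -/
def S_GEN : Prop :=
  ∀ (C : Type) [Field C] [CharZero C] (ι : Type) [Fintype ι] [DecidableEq ι] (A : Type)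
    (w₀ : ℕ) (P : A → ℤ → Matrix ι ι C) (lam : A → Cˣ → Matrix ι ι C),
    (∀ a t, lam a t = ∑ k ∈ Finset.Icc (-w₀ : ℤ) w₀, ((t ^ k : Cˣ) : C) • P a k) →
    (∀ a, lam a 1 = 1) →
    ∃ (r : ℕ) (s : Fin r → A), ∀ f : MvPolynomial (ι × ι) C,
      (∀ t : Fin r → Cˣ,
        MvPolynomial.eval (ent (List.ofFn fun i => lam (s i) (t i)).prod) f = 0) →
      ∀ h ∈ Submonoid.closure {h | ∃ a t, h = lam a t}, MvPolynomial.eval (ent h) f = 0

/-- **Piece SEM**: let `T j` be finitely many completely reducible representations of a monoid `G`, of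
finite dimension, and `P` a representation of finite dimension such that combinations of elements of
`G` which act as zero on all `T j` act as zero on `P`. Then the identity of `P` is a sum of products
of equivariant maps which factor through the `T j`. -/
def S_SEM : Prop :=
  ∀ (K : Type) [Field K] (G : Type) [Monoid G] (J : Type) [Fintype J] (T : J → Type)
    [∀ j, AddCommGroup (T j)] [∀ j, Module K (T j)] [∀ j, FiniteDimensional K (T j)]
    (ρ : ∀ j, G →* Module.End K (T j)),
    (∀ j, ∀ U : Submodule K (T j), (∀ g, ∀ x ∈ U, ρ j g x ∈ U) →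
      ∃ W : Submodule K (T j), (∀ g, ∀ x ∈ W, ρ j g x ∈ W) ∧ IsCompl U W) →
    ∀ (P : Type) [AddCommGroup P] [Module K P] [FiniteDimensional K P] (π : G →* Module.End K P),
      (∀ c : G →₀ K, (∀ j, (c.sum fun g a => a • ρ j g) = 0) → (c.sum fun g a => a • π g) = 0) →
      ∃ (q : ℕ) (j : Fin q → J) (A : ∀ i, T (j i) →ₗ[K] P) (ψ : ∀ i, P →ₗ[K] T (j i)),
        (∀ i g x, A i (ρ (j i) g x) = π g (A i x)) ∧ (∀ i g p, ψ i (π g p) = ρ (j i) g (ψ i p)) ∧
        ∀ p, ∑ i, A i (ψ i p) = p

end Pool.Agent.K6.H94.TG
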