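import Mathlib
import Pool.Agent.K6.H94.TG.Stm

/-!
# Tate classes on the products of a variety with powers: definitions

In the intended use `K = ℚ_ℓ`, `Γ` is the Galois group of a finitely generated field of characteristic
zero, `ρ` is its action on `V = ⊕ H^i(X, ℚ_ℓ(i / 2))`, in a basis indexed by `ι`, and `τ` its action on
`M = ⊕ H^i(U, ℚ_ℓ(i / 2))`, in a basis indexed by `μ`. Elements of `V^{⊗ n}` are given by their
coordinates, functions of `i : Fin n → ι`, and elements of `V^{⊗ n} ⊗ M` by functions of `i` and of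
an element of `μ`. For an element `i` of `ι` we write `p i` for the parity of the degree of the
element of the basis.
-/

set_option autoImplicit false

namespace Pool.Agent.K6.H94.TG

open Matrix

section Grading

variable {C : Type} [Field C] {μ : Type} [Fintype μ] [DecidableEq μ]

/-- The matrices `Q k`, `-w ≤ k ≤ w`, are orthogonal idempotents with sum one: they are the projections
of a grading of `C^μ` with weights between `-w` and `w`. -/
def IsGrading (Q : ℤ → Matrix μ μ C) (w : ℕ) : Prop :=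
  ∑ k ∈ Finset.Icc (-w : ℤ) w, Q k = 1 ∧
    ∀ j ∈ Finset.Icc (-w : ℤ) w, ∀ k ∈ Finset.Icc (-w : ℤ) w, Q j * Q k = if j = k then Q j else 0

/-- The cocharacter of the grading: it multiplies the part of weight `k` by `t ^ k`. -/
noncomputable def cochar (Q : ℤ → Matrix μ μ C) (w : ℕ) (t : Cˣ) : Matrix μ μ C :=
  ∑ k ∈ Finset.Icc (-w : ℤ) w, ((t ^ k : Cˣ) : C) • Q k

end Grading

section Reps

variable {K C : Type} [Field K] [Field C] [Algebra K C] {Γ : Type} [Group Γ]
  {ι μ : Type} [Fintype ι] [DecidableEq ι] [Fintype μ] [DecidableEq μ]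

/-- The representation preserves the parity: it is the sum of an even and an odd part. -/
def IsParity (p : ι → Bool) (ρ : Γ →* Matrix ι ι K) : Prop :=
  ∀ γ i j, p i ≠ p j → ρ γ i j = 0

/-- All tensor powers of the representation are completely reducible for all subgroups of finite
index. -/
def IsReductive (ρ : Γ →* Matrix ι ι K) : Prop :=
  ∀ Δ : Subgroup Γ, Δ.FiniteIndex → ∀ n, CR (ρ.comp Δ.subtype) n

/-- The Zariski closure of the group generated by the cocharacters of the gradings `P a` contains the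
image of a subgroup of finite index. -/
def IsGenerated {A : Type} (ρ : Γ →* Matrix ι ι K) (P : A → ℤ → Matrix ι ι C) (w₀ : ℕ) : Prop :=
  ∃ Δ : Subgroup Γ, Δ.FiniteIndex ∧ ∀ f : MvPolynomial (ι × ι) C,
    (∀ h ∈ Submonoid.closure {h | ∃ a t, h = cochar (P a) w₀ t},
      MvPolynomial.eval (ent h) f = 0) →
    ∀ δ ∈ Δ, MvPolynomial.eval (ent ((ρ δ).map (algebraMap K C))) f = 0

/-- The pair of matrices `(g, h)` belongs to the Zariski closure of the set of the pairs
`(ρ δ, τ δ)`, `δ` in `Δ`. -/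
def InClosure (ρ : Γ →* Matrix ι ι K) (τ : Γ →* Matrix μ μ K) (Δ : Subgroup Γ)
    (g : Matrix ι ι C) (h : Matrix μ μ C) : Prop :=
  ∀ f : MvPolynomial ((ι × ι) ⊕ (μ × μ)) K,
    (∀ δ ∈ Δ, MvPolynomial.eval (Sum.elim (ent (ρ δ)) (ent (τ δ))) f = 0) →
    MvPolynomial.aeval (Sum.elim (ent g) (ent h)) f = 0

/-- The representation `τ` has level at most `w` with respect to the cocharacters of the gradings
`P a`: for each `a` there are a positive integer `e` and a grading `Q` with weights between `-e w` and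
`e w` such that the `e`-th power of the cocharacter of `P a` together with the cocharacter of `Q` belongs
to the Zariski closure of `(ρ, τ)(Δ)`, for all subgroups `Δ` of finite index. -/
def LevelLE {A : Type} (ρ : Γ →* Matrix ι ι K) (P : A → ℤ → Matrix ι ι C) (w₀ : ℕ)
    (τ : Γ →* Matrix μ μ K) (w : ℕ) : Prop :=
  ∀ a, ∃ e : ℕ, 0 < e ∧ ∃ Q : ℤ → Matrix μ μ C, IsGrading Q (e * w) ∧
    ∀ Δ : Subgroup Γ, Δ.FiniteIndex → ∀ t : Cˣ,
      InClosure ρ τ Δ (cochar (P a) w₀ (t ^ e)) (cochar Q (e * w) t)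

/-- The tensor `x` in `V^{⊗ n}` is a Tate class: it is fixed by a subgroup of finite index. -/
def IsTate (ρ : Γ →* Matrix ι ι K) (n : ℕ) (x : (Fin n → ι) → K) : Prop :=
  ∃ Δ : Subgroup Γ, Δ.FiniteIndex ∧ ∀ δ ∈ Δ, kpw n (ρ δ) *ᵥ x = x

/-- The action of a pair of matrices on `V^{⊗ n} ⊗ M`. -/
def act {n : ℕ} (g : Matrix ι ι K) (h : Matrix μ μ K) (y : (Fin n → ι) → μ → K) :
    (Fin n → ι) → μ → K :=
  fun i m => ∑ j, ∑ m', kpw n g i j * h m m' * y j m'

/-- The element `y` of `V^{⊗ n} ⊗ M` is a Tate class: it is fixed by a subgroup of finite index. -/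
def IsTateM (ρ : Γ →* Matrix ι ι K) (τ : Γ →* Matrix μ μ K) (n : ℕ) (y : (Fin n → ι) → μ → K) :
    Prop :=
  ∃ Δ : Subgroup Γ, Δ.FiniteIndex ∧ ∀ δ ∈ Δ, act (ρ δ) (τ δ) y = y

/-- The sign of the exchange of two elements of the basis. -/
def ksgn (K : Type) [Field K] {ι : Type} (p : ι → Bool) (i j : ι) : K :=
  if p i && p j then -1 else 1

/-- The sign in the cup product of `e_{i 1} ⊗ ⋯ ⊗ e_{i n}` and `e_{j 1} ⊗ ⋯ ⊗ e_{j n}`, where
`e_{i a}` and `e_{j a}` have the same parity: it is the product of the signs of the exchanges of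
`e_{j a}` and `e_{j b}`, `a < b`. -/
def ksign (K : Type) [Field K] {ι : Type} (p : ι → Bool) {n : ℕ} (j : Fin n → ι) : K :=
  ∏ a, ∏ b ∈ Finset.Ioi a, ksgn K p (j a) (j b)

/-- The image of `y` in `V^{⊗ m} ⊗ M` under the correspondence `a` in `V^{⊗ n} ⊗ V^{⊗ m}`, that is the
contraction of `a` and `y` by the bilinear form `B`, with the sign rule. -/
def corr (p : ι → Bool) (B : Matrix ι ι K) {n m : ℕ} (a : (Fin (n + m) → ι) → K)
    (y : (Fin m → ι) → μ → K) : (Fin n → ι) → μ → K :=
  fun i l => ∑ j, ∑ j', a (Fin.append i j) * kpw m B j j' * ksign K p j' * y j' l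

/-- The subspaces `C n` of `V^{⊗ n}` are stable under products, and under exchanges of two consecutive
factors, with the sign rule. -/
def IsProductSystem (p : ι → Bool) (C : ∀ n, Submodule K ((Fin n → ι) → K)) : Prop :=
  (∀ n (k : Fin n), ∀ x ∈ C (n + 1),
    (fun i => ksgn K p (i k.castSucc) (i k.succ) * x (i ∘ Equiv.swap k.castSucc k.succ)) ∈
      C (n + 1)) ∧
  ∀ m n, ∀ x ∈ C m, ∀ y ∈ C n, tmul x y ∈ C (m + n)

/-- A system of classes: subspaces `C n` of `V^{⊗ n}` as above, and subspaces `S n` of `V^{⊗ n} ⊗ M`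
stable under the correspondences in the `C n`. -/
def IsSystem (p : ι → Bool) (B : Matrix ι ι K) (C : ∀ n, Submodule K ((Fin n → ι) → K))
    (S : ∀ n, Submodule K ((Fin n → ι) → μ → K)) : Prop :=
  IsProductSystem p C ∧ ∀ n m, ∀ a ∈ C (n + m), ∀ y ∈ S m, corr p B a y ∈ S n

end Reps

end Pool.Agent.K6.H94.TG
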