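import Mathlib
import Pool.Agent.K6.H94.TG.Stm

/-!
# Matrix coefficients of bounded level
-/

set_option autoImplicit false
set_option linter.unusedSectionVars false

namespace Pool.Agent.K6.H94.TG

open Matrix

section Kpw

variable {R : Type} [CommRing R] {ι : Type} [Fintype ι] [DecidableEq ι]

lemma kpw_apply (n : ℕ) (g : Matrix ι ι R) (i j : Fin n → ι) : kpw n g i j = ∏ a, g (i a) (j a) := rfl

lemma kpw_mul (n : ℕ) (g h : Matrix ι ι R) : kpw n (g * h) = kpw n g * kpw n h := by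
  ext i j
  rw [kpw_apply, Matrix.mul_apply]
  simp only [kpw_apply, Matrix.mul_apply]
  rw [Finset.prod_univ_sum]
  rw [Fintype.piFinset_univ]
  refine Finset.sum_congr rfl fun x _ => ?_
  rw [← Finset.prod_mul_distrib]

lemma kpw_one (n : ℕ) : kpw n (1 : Matrix ι ι R) = 1 := by
  ext i j
  rw [kpw_apply]
  by_cases h : i = j
  · subst h
    rw [Matrix.one_apply_eq]
    exact Finset.prod_eq_one fun a _ => Matrix.one_apply_eq _
  · rw [Matrix.one_apply_ne h]
    obtain ⟨a, ha⟩ := Function.ne_iff.1 h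
    exact Finset.prod_eq_zero (Finset.mem_univ a) (Matrix.one_apply_ne ha)

end Kpw

section Coef

variable {C : Type} [Field C] [CharZero C]

/-- Laurent polynomials with values in a subspace have their coefficients in the subspace. -/
lemma coeff_mem {V : Type*} [AddCommGroup V] [Module C V] (S : Submodule C V) (w : ℕ) (c : ℤ → V)
    (h : ∀ t : Cˣ, ∑ k ∈ Finset.Icc (-w : ℤ) w, ((t ^ k : Cˣ) : C) • c k ∈ S) :
    ∀ k ∈ Finset.Icc (-w : ℤ) w, c k ∈ S := by
  intro k hk
  by_contra hn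
  obtain ⟨φ, hφ, hS⟩ := Submodule.exists_le_ker_of_notMem hn
  apply hφ
  let P : Polynomial C := ∑ j ∈ Finset.Icc (-w : ℤ) w,
    Polynomial.C (φ (c j)) * Polynomial.X ^ (j + w).toNat
  have hP : P = 0 := by
    apply Polynomial.eq_of_infinite_eval_eq
    refine Set.Infinite.mono (s := {t : C | t ≠ 0}) ?_ (Set.Finite.infinite_compl
      (Set.finite_singleton (0 : C)))
    intro t ht
    have ht' : t ≠ 0 := ht
    change Polynomial.eval t P = Polynomial.eval t 0
    have h1 : φ (∑ k ∈ Finset.Icc (-w : ℤ) w, (((Units.mk0 t ht') ^ k : Cˣ) : C) • c k) = 0 :=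
      hS (h (Units.mk0 t ht'))
    rw [map_sum] at h1
    rw [Polynomial.eval_zero, Polynomial.eval_finsetSum]
    calc ∑ j ∈ Finset.Icc (-w : ℤ) w,
          Polynomial.eval t (Polynomial.C (φ (c j)) * Polynomial.X ^ (j + w).toNat) =
        t ^ w * ∑ j ∈ Finset.Icc (-w : ℤ) w, φ ((((Units.mk0 t ht') ^ j : Cˣ) : C) • c j) := by
          rw [Finset.mul_sum]
          refine Finset.sum_congr rfl fun j hj => ?_
          rw [Finset.mem_Icc] at hj
          rw [Polynomial.eval_mul, Polynomial.eval_C, Polynomial.eval_pow, Polynomial.eval_X,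
            map_smul, smul_eq_mul, ← mul_assoc, mul_comm, Units.val_zpow_eq_zpow_val, Units.val_mk0]
          congr 1
          rw [← zpow_natCast, ← zpow_natCast, ← zpow_add₀ ht', Int.toNat_of_nonneg (by omega)]
          congr 1
          ring
      _ = 0 := by rw [h1, mul_zero]
  have h2 := congrArg (fun Q : Polynomial C => Q.coeff (k + w).toNat) hP
  simp only [P, Polynomial.coeff_zero, Polynomial.finsetSum_coeff, Polynomial.coeff_C_mul,
    Polynomial.coeff_X_pow] at h2
  rw [Finset.sum_eq_single k] at h2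
  · simpa using h2
  · intro j hj hjk
    rw [Finset.mem_Icc] at hj hk
    rw [if_neg (by omega), mul_zero]
  · intro h; exact absurd hk h

variable {ι : Type} [Fintype ι] [DecidableEq ι] {A : Type} (lam : A → Cˣ → Matrix ι ι C)

/-- The monoid generated by the operators. -/
def Mon : Submonoid (Matrix ι ι C) := Submonoid.closure {h | ∃ a t, h = lam a t}

/-- The tensors of level at most `w`. -/
def Lv (w n : ℕ) : Submodule C ((Fin n → ι) → C) where
  carrier := {v | ∀ h ∈ Mon lam, ∀ a, ∃ c : ℤ → (Fin n → ι) → C, ∀ t : Cˣ,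
    kpw n (lam a t) *ᵥ (kpw n h *ᵥ v) = ∑ k ∈ Finset.Icc (-w : ℤ) w, ((t ^ k : Cˣ) : C) • c k}
  add_mem' {x y} hx hy h hh a := by
    obtain ⟨c, hc⟩ := hx h hh a
    obtain ⟨d, hd⟩ := hy h hh a
    refine ⟨fun k => c k + d k, fun t => ?_⟩
    rw [Matrix.mulVec_add, Matrix.mulVec_add, hc t, hd t, ← Finset.sum_add_distrib]
    exact Finset.sum_congr rfl fun k _ => (smul_add _ _ _).symm
  zero_mem' h _ a := ⟨fun _ => 0, fun t => by simp⟩
  smul_mem' r x hx h hh a := by
    obtain ⟨c, hc⟩ := hx h hh a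
    refine ⟨fun k => r • c k, fun t => ?_⟩
    rw [Matrix.mulVec_smul, Matrix.mulVec_smul, hc t, Finset.smul_sum]
    exact Finset.sum_congr rfl fun k _ => smul_comm _ _ _

variable {lam}

lemma Lv_Mon {w n : ℕ} {v : (Fin n → ι) → C} (hv : v ∈ Lv lam w n) {g : Matrix ι ι C}
    (hg : g ∈ Mon lam) : kpw n g *ᵥ v ∈ Lv lam w n := by
  intro h hh a
  obtain ⟨c, hc⟩ := hv (h * g) (Submonoid.mul_mem _ hh hg) a
  refine ⟨c, fun t => ?_⟩
  have h1 : kpw n (h * g) *ᵥ v = kpw n h *ᵥ (kpw n g *ᵥ v) := by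
    rw [kpw_mul, Matrix.mulVec_mulVec]
  rw [← h1]
  exact hc t

lemma Lv_dec {w n : ℕ} {v : (Fin n → ι) → C} (hv : v ∈ Lv lam w n) (a : A) :
    ∃ c : ℤ → (Fin n → ι) → C, (∀ k ∈ Finset.Icc (-w : ℤ) w, c k ∈ Lv lam w n) ∧ ∀ t : Cˣ,
      kpw n (lam a t) *ᵥ v = ∑ k ∈ Finset.Icc (-w : ℤ) w, ((t ^ k : Cˣ) : C) • c k := by
  obtain ⟨c, hc⟩ := hv 1 (Submonoid.one_mem _) a
  simp only [kpw_one, Matrix.one_mulVec] at hc
  refine ⟨c, coeff_mem _ w c fun t => ?_, hc⟩
  rw [← hc t]
  exact Lv_Mon hv (Submonoid.subset_closure ⟨a, t, rfl⟩)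

/-- The space of vector valued functions which are combinations of monomials with exponents between
`-w` and `w`, with values in the tensors of level at most `w`. -/
def VB (lam : A → Cˣ → Matrix ι ι C) (w n r : ℕ) :
    Submodule C ((Fin r → Cˣ) → (Fin n → ι) → C) :=
  Submodule.span C {F | ∃ k : Fin r → ℤ, (∀ i, k i ∈ Finset.Icc (-w : ℤ) w) ∧
    ∃ u ∈ Lv lam w n, F = fun t => (∏ i, (((t i) ^ (k i) : Cˣ) : C)) • u}

lemma mem_VB {w n : ℕ} {v : (Fin n → ι) → C} (hv : v ∈ Lv lam w n) : ∀ (r : ℕ) (s : Fin r → A),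
    (fun t : Fin r → Cˣ => kpw n (List.ofFn fun i => lam (s i) (t i)).prod *ᵥ v) ∈
      VB lam w n r := by
  intro r
  induction r with
  | zero =>
    intro s
    refine Submodule.subset_span ⟨fun i => i.elim0, fun i => i.elim0, v, hv, ?_⟩
    funext t
    simp [kpw_one]
  | succ r ih =>
    intro s
    have h1 := ih (fun i => s i.succ)
    have h2 : (fun t : Fin (r + 1) → Cˣ =>
        kpw n (List.ofFn fun i => lam (s i) (t i)).prod *ᵥ v) =
        fun t : Fin (r + 1) → Cˣ => kpw n (lam (s 0) (t 0)) *ᵥ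
          (fun t' : Fin r → Cˣ => kpw n (List.ofFn fun i => lam (s i.succ) (t' i)).prod *ᵥ v)
            (fun i => t i.succ) := by
      funext t
      rw [List.ofFn_succ, List.prod_cons, kpw_mul, ← Matrix.mulVec_mulVec]
    rw [h2]
    generalize (fun t' : Fin r → Cˣ =>
      kpw n (List.ofFn fun i => lam (s i.succ) (t' i)).prod *ᵥ v) = F at h1
    rw [VB] at h1
    induction h1 using Submodule.span_induction with
    | mem F hF =>
      obtain ⟨k, hk, u, hu, rfl⟩ := hF
      obtain ⟨c, hc, hct⟩ := Lv_dec hu (s 0)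
      have h3 : (fun t : Fin (r + 1) → Cˣ => kpw n (lam (s 0) (t 0)) *ᵥ
          ((fun t : Fin r → Cˣ => (∏ i, (((t i) ^ (k i) : Cˣ) : C)) • u) (fun i => t i.succ))) =
          ∑ j ∈ Finset.Icc (-w : ℤ) w, fun t : Fin (r + 1) → Cˣ =>
            (∏ i, (((t i) ^ ((Fin.cons j k : Fin (r + 1) → ℤ) i) : Cˣ) : C)) • c j := by
        funext t
        rw [Finset.sum_apply]
        change kpw n (lam (s 0) (t 0)) *ᵥ ((∏ i : Fin r, (((t i.succ) ^ (k i) : Cˣ) : C)) • u) = _
        rw [Matrix.mulVec_smul, hct, Finset.smul_sum]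
        refine Finset.sum_congr rfl fun j _ => ?_
        rw [smul_smul, Fin.prod_univ_succ]
        simp only [Fin.cons_zero, Fin.cons_succ]
        rw [mul_comm]
      rw [h3]
      refine Submodule.sum_mem _ fun j hj => Submodule.subset_span ⟨Fin.cons j k, ?_, c j, hc j hj,
        rfl⟩
      intro i
      refine Fin.cases ?_ (fun i => ?_) i
      · exact hj
      · exact hk i
    | zero =>
      have h3 : (fun t : Fin (r + 1) → Cˣ => kpw n (lam (s 0) (t 0)) *ᵥ
          ((0 : (Fin r → Cˣ) → (Fin n → ι) → C) (fun i => t i.succ))) = 0 := by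
        funext t
        rw [Pi.zero_apply, Matrix.mulVec_zero]
        rfl
      rw [h3]
      exact Submodule.zero_mem _
    | add x y _ _ hx hy =>
      have h3 : (fun t : Fin (r + 1) → Cˣ => kpw n (lam (s 0) (t 0)) *ᵥ
          ((x + y) (fun i => t i.succ))) = (fun t : Fin (r + 1) → Cˣ =>
            kpw n (lam (s 0) (t 0)) *ᵥ (x (fun i => t i.succ))) + fun t : Fin (r + 1) → Cˣ =>
            kpw n (lam (s 0) (t 0)) *ᵥ (y (fun i => t i.succ)) := by
        funext t
        rw [Pi.add_apply, Matrix.mulVec_add]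
        rfl
      rw [h3]
      exact Submodule.add_mem _ hx hy
    | smul a x _ hx =>
      have h3 : (fun t : Fin (r + 1) → Cˣ => kpw n (lam (s 0) (t 0)) *ᵥ
          ((a • x) (fun i => t i.succ))) = a • fun t : Fin (r + 1) → Cˣ =>
            kpw n (lam (s 0) (t 0)) *ᵥ (x (fun i => t i.succ)) := by
        funext t
        rw [Pi.smul_apply, Matrix.mulVec_smul]
        rfl
      rw [h3]
      exact Submodule.smul_mem _ _ hx

/-- The functions which are combinations of monomials with exponents between `-w` and `w`. -/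
def Bx (C : Type) [Field C] (w r : ℕ) : Submodule C ((Fin r → Cˣ) → C) :=
  Submodule.span C (Set.range fun k : Fin r → Finset.Icc (-w : ℤ) w =>
    fun t : Fin r → Cˣ => ∏ i, (((t i) ^ (k i : ℤ) : Cˣ) : C))

instance (w r : ℕ) : FiniteDimensional C (Bx C w r) :=
  FiniteDimensional.span_of_finite C (Set.finite_range _)

/-- The polynomials given by the coordinates of the values at a tensor. -/
noncomputable def mc (n : ℕ) (v : (Fin n → ι) → C) (i : Fin n → ι) : MvPolynomial (ι × ι) C :=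
  ∑ j, MvPolynomial.C (v j) * ∏ a, MvPolynomial.X (i a, j a)

lemma eval_mc (n : ℕ) (v : (Fin n → ι) → C) (i : Fin n → ι) (g : Matrix ι ι C) :
    MvPolynomial.eval (ent g) (mc n v i) = (kpw n g *ᵥ v) i := by
  rw [mc, map_sum, Matrix.mulVec, dotProduct]
  refine Finset.sum_congr rfl fun j _ => ?_
  rw [map_mul, MvPolynomial.eval_C, map_prod, kpw_apply, mul_comm]
  congr 1
  refine Finset.prod_congr rfl fun a _ => ?_
  rw [MvPolynomial.eval_X]
  rfl

/-- The span of the entries of the Kronecker powers with at most `N` factors. -/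
noncomputable def Ep (C ι : Type) [Field C] [CharZero C] [Fintype ι] [DecidableEq ι] (N : ℕ) :
    Submodule C (MvPolynomial (ι × ι) C) :=
  Submodule.span C {f | ∃ m ≤ N, ∃ v i, f = mc m v i}

lemma res_mem {w n : ℕ} {v : (Fin n → ι) → C} (hv : v ∈ Lv lam w n) (r : ℕ) (s : Fin r → A)
    (i : Fin n → ι) :
    (fun t : Fin r → Cˣ => MvPolynomial.eval (ent (List.ofFn fun i => lam (s i) (t i)).prod)
      (mc n v i)) ∈ Bx C w r := by
  have h1 := mem_VB hv r s
  have h2 : (fun t : Fin r → Cˣ => MvPolynomial.eval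
      (ent (List.ofFn fun i => lam (s i) (t i)).prod) (mc n v i)) =
      fun t : Fin r → Cˣ => (fun t : Fin r → Cˣ =>
        kpw n (List.ofFn fun i => lam (s i) (t i)).prod *ᵥ v) t i := by
    funext t
    rw [eval_mc]
  rw [h2]
  generalize (fun t : Fin r → Cˣ => kpw n (List.ofFn fun i => lam (s i) (t i)).prod *ᵥ v) = F at h1
  rw [VB] at h1
  induction h1 using Submodule.span_induction with
  | mem F hF =>
    obtain ⟨k, hk, u, _, rfl⟩ := hF
    have h3 : (fun t : Fin r → Cˣ => (fun t : Fin r → Cˣ =>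
        (∏ i, (((t i) ^ (k i) : Cˣ) : C)) • u) t i) =
        u i • fun t : Fin r → Cˣ => ∏ i, (((t i) ^ (k i) : Cˣ) : C) := by
      funext t
      change (∏ i, (((t i) ^ (k i) : Cˣ) : C)) * u i = u i * _
      rw [mul_comm]
    rw [h3]
    exact Submodule.smul_mem _ _ (Submodule.subset_span ⟨fun i => ⟨k i, hk i⟩, rfl⟩)
  | zero => exact Submodule.zero_mem _
  | add x y _ _ hx hy => exact Submodule.add_mem _ hx hy
  | smul a x _ hx => exact Submodule.smul_mem _ _ hx

/-- **Matrix coefficients of bounded level.** -/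
theorem exists_N (hG : S_GEN) {w₀ : ℕ} {P : A → ℤ → Matrix ι ι C}
    (hlam : ∀ a t, lam a t = ∑ k ∈ Finset.Icc (-w₀ : ℤ) w₀, ((t ^ k : Cˣ) : C) • P a k)
    (h1 : ∀ a, lam a 1 = 1) (w : ℕ) :
    ∃ N : ℕ, ∀ n, ∀ v ∈ Lv lam w n, ∀ i, ∃ q ∈ Ep C ι N, ∀ h ∈ Mon lam,
      MvPolynomial.eval (ent h) (mc n v i) = MvPolynomial.eval (ent h) q := by
  obtain ⟨r, s, hs⟩ := hG C ι A w₀ P lam hlam h1
  let res : MvPolynomial (ι × ι) C →ₗ[C] ((Fin r → Cˣ) → C) :=
    { toFun := fun f t => MvPolynomial.eval (ent (List.ofFn fun i => lam (s i) (t i)).prod) f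
      map_add' := fun f g => by funext t; rw [map_add]; rfl
      map_smul' := fun a f => by
        funext t
        rw [MvPolynomial.smul_eval]
        rfl }
  let Q : ℕ → Submodule C (MvPolynomial (ι × ι) C) := fun n =>
    Submodule.span C {f | ∃ m ≤ n, ∃ v ∈ Lv lam w m, ∃ i, f = mc m v i}
  have hQ : ∀ {n n' : ℕ}, n ≤ n' → Q n ≤ Q n' := by
    intro n n' h
    refine Submodule.span_mono ?_
    rintro f ⟨m, hm, v, hv, i, rfl⟩
    exact ⟨m, hm.trans h, v, hv, i, rfl⟩
  have hR : ∀ n, (Q n).map res ≤ Bx C w r := by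
    intro n
    rw [Submodule.map_span_le]
    rintro f ⟨m, hm, v, hv, i, rfl⟩
    exact res_mem hv r s i
  let f : ℕ →o Submodule C (Bx C w r) :=
    ⟨fun n => ((Q n).map res).comap (Bx C w r).subtype, fun n n' h =>
      Submodule.comap_mono (Submodule.map_mono (hQ h))⟩
  obtain ⟨N₀, hN₀⟩ := monotone_stabilizes_iff_noetherian.2
    (inferInstance : IsNoetherian C (Bx C w r)) f
  refine ⟨N₀, fun n v hv i => ?_⟩
  have h2 : res (mc n v i) ∈ (Q N₀).map res := by
    have h3 : res (mc n v i) ∈ (Q (max n N₀)).map res :=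
      Submodule.mem_map_of_mem (Submodule.subset_span ⟨n, le_max_left _ _, v, hv, i, rfl⟩)
    have h4 : (⟨res (mc n v i), hR _ h3⟩ : Bx C w r) ∈ f (max n N₀) := h3
    rw [← hN₀ _ (le_max_right n N₀)] at h4
    exact h4
  obtain ⟨q, hq, hq'⟩ := h2
  refine ⟨q, ?_, fun h hh => ?_⟩
  · have h3 : Q N₀ ≤ Ep C ι N₀ := by
      refine Submodule.span_mono ?_
      rintro f ⟨m, hm, v, _, i, rfl⟩
      exact ⟨m, hm, v, i, rfl⟩
    exact h3 hq
  · have h3 := hs (mc n v i - q) (fun t => by
      rw [map_sub, sub_eq_zero]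
      exact (congrFun hq' t).symm) h hh
    rw [map_sub, sub_eq_zero] at h3
    exact h3

end Coef

end Pool.Agent.K6.H94.TG
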