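import Mathlib
import Pool.Agent.K6.H94.TG.Lvl
import Pool.Agent.K6.H94.TG.Defs

/-!
# Laurent polynomials with vector coefficients
-/

set_option autoImplicit false
set_option linter.unusedSectionVars false

namespace Pool.Agent.K6.H94.TG

open Matrix

section Ev

variable {C : Type} [Field C] [CharZero C] {V : Type} [AddCommGroup V] [Module C V]

/-- The value of a Laurent polynomial with vector coefficients. -/
noncomputable def ev (t : Cˣ) : (ℤ →₀ V) →ₗ[C] V :=
  Finsupp.lsum C fun k => ((t ^ k : Cˣ) : C) • LinearMap.id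

lemma ev_apply (t : Cˣ) (F : ℤ →₀ V) : ev t F = F.sum fun k v => ((t ^ k : Cˣ) : C) • v := rfl

lemma ev_single (t : Cˣ) (k : ℤ) (v : V) :
    ev t (Finsupp.single k v) = ((t ^ k : Cˣ) : C) • v := by
  rw [ev_apply, Finsupp.sum_single_index]
  exact smul_zero _

lemma ev_of_support {t : Cˣ} {F : ℤ →₀ V} {s : Finset ℤ} (h : ∀ k, k ∉ s → F k = 0) :
    ev t F = ∑ k ∈ s, ((t ^ k : Cˣ) : C) • F k := by
  rw [ev_apply, Finsupp.sum]
  refine Finset.sum_subset (fun k hk => ?_) (fun k _ hk => ?_)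
  · by_contra hn
    exact (Finsupp.mem_support_iff.1 hk) (h k hn)
  · rw [Finsupp.notMem_support_iff.1 hk, smul_zero]

lemma ev_inj {F : ℤ →₀ V} (h : ∀ t : Cˣ, ev t F = 0) : F = 0 := by
  obtain ⟨w, hw⟩ : ∃ w : ℕ, ∀ k ∈ F.support, k.natAbs ≤ w :=
    ⟨F.support.sup Int.natAbs, fun k hk => Finset.le_sup hk⟩
  have h0 : ∀ k, k ∉ Finset.Icc (-w : ℤ) w → F k = 0 := by
    intro k hk
    by_contra hn
    apply hk
    have h1 := hw k (Finsupp.mem_support_iff.2 hn)
    rw [Finset.mem_Icc]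
    omega
  have h1 := coeff_mem (⊥ : Submodule C V) w F (fun t => by
    rw [← ev_of_support h0, h t]
    exact Submodule.zero_mem _)
  ext k
  by_cases hk : k ∈ Finset.Icc (-w : ℤ) w
  · exact (Submodule.mem_bot C).1 (h1 k hk)
  · exact h0 k hk

lemma ev_mapDomain (t : Cˣ) (e : ℕ) (F : ℤ →₀ V) :
    ev t (F.mapDomain fun k : ℤ => (e : ℤ) * k) = ev (t ^ e) F := by
  rw [ev_apply, Finsupp.sum_mapDomain_index (fun _ => smul_zero _) (fun _ _ _ => smul_add _ _ _),
    ev_apply]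
  refine Finsupp.sum_congr fun k _ => ?_
  rw [_root_.zpow_mul, _root_.zpow_natCast]

/-- If a Laurent polynomial in `t ^ e` has exponents between `-e w` and `e w`, then it is a Laurent
polynomial in `t ^ e` with exponents between `-w` and `w`. -/
lemma laurent_pow (S : Submodule C V) (D : ℤ →₀ V) {e w : ℕ} (he : 0 < e) (E : ℤ → V)
    (hE : ∀ k, E k ∈ S)
    (h : ∀ t : Cˣ, ev (t ^ e) D =
      ∑ k ∈ Finset.Icc (-(e * w : ℕ) : ℤ) (e * w : ℕ), ((t ^ k : Cˣ) : C) • E k) :
    ∃ c : ℤ → V, (∀ k, c k ∈ S) ∧ ∀ s : Cˣ, ev s D =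
      ∑ k ∈ Finset.Icc (-w : ℤ) w, ((s ^ k : Cˣ) : C) • c k := by
  classical
  let E' : ℤ →₀ V := Finsupp.onFinset (Finset.Icc (-(e * w : ℕ) : ℤ) (e * w : ℕ))
    (fun k => if k ∈ Finset.Icc (-(e * w : ℕ) : ℤ) (e * w : ℕ) then E k else 0) (fun k hk => by
      by_contra hn
      exact hk (if_neg hn))
  have hE' : ∀ k, E' k = if k ∈ Finset.Icc (-(e * w : ℕ) : ℤ) (e * w : ℕ) then E k else 0 :=
    fun k => rfl
  have h1 : (D.mapDomain fun k : ℤ => (e : ℤ) * k) - E' = 0 := by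
    refine ev_inj (C := C) fun t => ?_
    rw [map_sub, ev_mapDomain, h t, ev_of_support (s := Finset.Icc (-(e * w : ℕ) : ℤ) (e * w : ℕ))
      (F := E') (fun k hk => by rw [hE', if_neg hk]), sub_eq_zero]
    refine Finset.sum_congr rfl fun k hk => ?_
    rw [hE', if_pos hk]
  have hinj : Function.Injective fun k : ℤ => (e : ℤ) * k := by
    intro a b hab
    exact mul_left_cancel₀ (by exact_mod_cast he.ne') hab
  have h2 : ∀ k, D k = E' (e * k) := by
    intro k
    rw [← sub_eq_zero.1 h1]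
    exact (Finsupp.mapDomain_apply hinj D k).symm
  have h3 : ∀ k, k ∉ Finset.Icc (-w : ℤ) w → D k = 0 := by
    intro k hk
    rw [h2, hE', if_neg]
    intro hk'
    apply hk
    rw [Finset.mem_Icc] at hk' ⊢
    have he' : (0 : ℤ) < e := by exact_mod_cast he
    push_cast at hk'
    constructor
    · by_contra hn
      push Not at hn
      have := mul_lt_mul_of_pos_left hn he'
      linarith [hk'.1]
    · by_contra hn
      push Not at hn
      have := mul_lt_mul_of_pos_left hn he'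
      linarith [hk'.2]
  refine ⟨D, fun k => ?_, fun s => ev_of_support h3⟩
  rw [h2, hE']
  split_ifs
  · exact hE _
  · exact Submodule.zero_mem _

/-- The values of the tensor powers of a cocharacter are Laurent polynomials. -/
lemma kpw_laurent {ι : Type} [Fintype ι] [DecidableEq ι] (P : ℤ → Matrix ι ι C) (w₀ n : ℕ)
    (v : (Fin n → ι) → C) : ∃ D : ℤ →₀ ((Fin n → ι) → C), ∀ s : Cˣ,
      kpw n (cochar P w₀ s) *ᵥ v = ev s D := by
  classical
  refine ⟨∑ κ ∈ Fintype.piFinset (fun _ : Fin n => Finset.Icc (-w₀ : ℤ) w₀),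
    Finsupp.single (∑ a, κ a) (fun i => ∑ j, (∏ a, P (κ a) (i a) (j a)) * v j), fun s => ?_⟩
  rw [map_sum]
  simp only [ev_single]
  funext i
  rw [Finset.sum_apply, Matrix.mulVec, dotProduct]
  have h1 : ∀ j, kpw n (cochar P w₀ s) i j =
      ∑ κ ∈ Fintype.piFinset (fun _ : Fin n => Finset.Icc (-w₀ : ℤ) w₀),
        ((s ^ (∑ a, κ a) : Cˣ) : C) * ∏ a, P (κ a) (i a) (j a) := by
    intro j
    rw [kpw_apply]
    simp only [cochar, Matrix.sum_apply, Matrix.smul_apply, smul_eq_mul]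
    rw [Finset.prod_univ_sum]
    refine Finset.sum_congr rfl fun κ _ => ?_
    rw [Finset.prod_mul_distrib]
    congr 1
    rw [← Units.coe_prod]
    congr 1
    exact (zpow_sum' s κ)
  simp only [h1, Finset.sum_mul]
  rw [Finset.sum_comm]
  refine Finset.sum_congr rfl fun κ _ => ?_
  rw [Pi.smul_apply, smul_eq_mul, Finset.mul_sum]
  refine Finset.sum_congr rfl fun j _ => ?_
  ring
where
  zpow_sum' {n : ℕ} (s : Cˣ) (κ : Fin n → ℤ) : ∏ a, s ^ κ a = s ^ (∑ a, κ a) := by
    induction n with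
    | zero => simp
    | succ n ih => rw [Fin.prod_univ_succ, Fin.sum_univ_succ, _root_.zpow_add, ih]

end Ev

end Pool.Agent.K6.H94.TG
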