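import Mathlib
import Pool.Agent.K6.H94.TG.Lvl
import Pool.Agent.K6.H94.TG.Defs

/-!
# The signs
-/

set_option autoImplicit false
set_option linter.unusedSectionVars false

namespace Pool.Agent.K6.H94.TG

open Matrix

section Sgn

variable {K : Type} [Field K] {ι : Type} [Fintype ι] [DecidableEq ι] {p : ι → Bool}

lemma ksgn_mul_self (i j : ι) : ksgn K p i j * ksgn K p i j = 1 := by
  unfold ksgn
  split_ifs <;> ring

lemma ksign_mul_self {n : ℕ} (j : Fin n → ι) : ksign K p j * ksign K p j = 1 := by
  unfold ksign
  rw [← Finset.prod_mul_distrib]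
  refine Finset.prod_eq_one fun a _ => ?_
  rw [← Finset.prod_mul_distrib]
  exact Finset.prod_eq_one fun b _ => ksgn_mul_self _ _

lemma ksign_congr {n : ℕ} {i j : Fin n → ι} (h : ∀ a, p (i a) = p (j a)) :
    ksign K p i = ksign K p j := by
  unfold ksign ksgn
  simp only [h]

/-- A matrix preserves the parity. -/
def Par (p : ι → Bool) (g : Matrix ι ι K) : Prop := ∀ i j, p i ≠ p j → g i j = 0

lemma kpw_par {g : Matrix ι ι K} (hg : Par p g) {n : ℕ} {i j : Fin n → ι}
    (h : kpw n g i j ≠ 0) (a : Fin n) : p (i a) = p (j a) := by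
  by_contra hn
  exact h (by
    rw [kpw_apply]
    exact Finset.prod_eq_zero (Finset.mem_univ a) (hg _ _ hn))

/-- The diagonal matrix of the signs. -/
def dsg (K : Type) [Field K] {ι : Type} [DecidableEq ι] (p : ι → Bool) (n : ℕ) :
    Matrix (Fin n → ι) (Fin n → ι) K :=
  Matrix.diagonal (ksign K p)

/-- The diagonal matrix of the signs commutes with matrices which preserve the parity. -/
lemma kpw_ksign {g : Matrix ι ι K} (hg : Par p g) (n : ℕ) :
    kpw n g * dsg K p n = dsg K p n * kpw n g := by
  ext i j
  rw [dsg, Matrix.mul_diagonal, Matrix.diagonal_mul]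
  by_cases h : kpw n g i j = 0
  · rw [h, zero_mul, mul_zero]
  · rw [ksign_congr (kpw_par hg h), mul_comm]

lemma ksign_diag (n : ℕ) : dsg K p n * dsg K p n = (1 : Matrix (Fin n → ι) (Fin n → ι) K) := by
  rw [dsg, Matrix.diagonal_mul_diagonal, ← Matrix.diagonal_one]
  congr 1
  funext j
  exact ksign_mul_self j

/-- The part of a tensor with given parities. -/
def part (K : Type) [Field K] {ι : Type} (p : ι → Bool) {n : ℕ} (e : Fin n → Bool) :
    ((Fin n → ι) → K) →ₗ[K] ((Fin n → ι) → K) where
  toFun x i := if (fun a => p (i a)) = e then x i else 0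
  map_add' x y := by
    funext i
    simp only [Pi.add_apply]
    split_ifs
    · rfl
    · rw [add_zero]
  map_smul' c x := by
    funext i
    simp only [Pi.smul_apply, smul_eq_mul, RingHom.id_apply]
    split_ifs
    · rfl
    · rw [mul_zero]

lemma part_apply {n : ℕ} (e : Fin n → Bool) (x : (Fin n → ι) → K) (i : Fin n → ι) :
    part K p e x i = if (fun a => p (i a)) = e then x i else 0 := rfl

lemma sum_part {n : ℕ} (x : (Fin n → ι) → K) : ∑ e, part K p e x = x := by
  funext i
  rw [Finset.sum_apply]
  simp only [part_apply]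
  rw [Finset.sum_ite_eq Finset.univ (fun a => p (i a)) fun _ => x i, if_pos (Finset.mem_univ _)]

lemma kpw_part {g : Matrix ι ι K} (hg : Par p g) {n : ℕ} (e : Fin n → Bool)
    (x : (Fin n → ι) → K) : kpw n g *ᵥ part K p e x = part K p e (kpw n g *ᵥ x) := by
  funext i
  rw [part_apply]
  simp only [Matrix.mulVec, dotProduct, part_apply]
  split_ifs with h
  · refine Finset.sum_congr rfl fun j _ => ?_
    by_cases hij : kpw n g i j = 0
    · rw [hij, zero_mul, zero_mul]
    · rw [if_pos]
      rw [← h]
      funext a
      exact (kpw_par hg hij a).symm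
  · refine Finset.sum_eq_zero fun j _ => ?_
    by_cases hij : kpw n g i j = 0
    · rw [hij, zero_mul]
    · rw [if_neg, mul_zero]
      intro hj
      apply h
      rw [← hj]
      funext a
      exact kpw_par hg hij a

/-- The tensors all whose parts with given parities belong to a subspace. -/
def Hom (p : ι → Bool) (C : ∀ n, Submodule K ((Fin n → ι) → K)) (n : ℕ) :
    Submodule K ((Fin n → ι) → K) :=
  ⨅ e, (C n).comap (part K p e)

lemma mem_Hom {C : ∀ n, Submodule K ((Fin n → ι) → K)} {n : ℕ} {x : (Fin n → ι) → K} :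
    x ∈ Hom p C n ↔ ∀ e, part K p e x ∈ C n := by
  rw [Hom, Submodule.mem_iInf]
  rfl

lemma Hom_swap {C : ∀ n, Submodule K ((Fin n → ι) → K)} (hC : IsProductSystem p C) {n : ℕ}
    (k : Fin n) {x : (Fin (n + 1) → ι) → K} (hx : x ∈ Hom p C (n + 1)) :
    (fun i => x (i ∘ Equiv.swap k.castSucc k.succ)) ∈ Hom p C (n + 1) := by
  rw [mem_Hom] at hx ⊢
  intro e
  have h1 := hC.1 n k _ (hx (e ∘ Equiv.swap k.castSucc k.succ))
  have h2 : part K p e (fun i => x (i ∘ Equiv.swap k.castSucc k.succ)) =
      (if e k.castSucc && e k.succ then (-1 : K) else 1) •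
        fun i => ksgn K p (i k.castSucc) (i k.succ) *
          part K p (e ∘ Equiv.swap k.castSucc k.succ) x (i ∘ Equiv.swap k.castSucc k.succ) := by
    funext i
    rw [Pi.smul_apply, part_apply, part_apply]
    by_cases h : (fun a => p (i a)) = e
    · have h3 : (fun a => p ((i ∘ Equiv.swap k.castSucc k.succ) a)) =
          e ∘ Equiv.swap k.castSucc k.succ := by
        rw [← h]
        rfl
      have h4 : ksgn K p (i k.castSucc) (i k.succ) =
          (if e k.castSucc && e k.succ then (-1 : K) else 1) := by
        rw [← h]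
        rfl
      rw [if_pos h, if_pos h3, h4, smul_eq_mul, ← mul_assoc]
      split_ifs <;> ring
    · have h3 : ¬ (fun a => p ((i ∘ Equiv.swap k.castSucc k.succ) a)) =
          e ∘ Equiv.swap k.castSucc k.succ := by
        intro h4
        apply h
        funext a
        have h5 := congrFun h4 ((Equiv.swap k.castSucc k.succ) a)
        simp only [Function.comp_apply, Equiv.swap_apply_self] at h5
        exact h5
      rw [if_neg h, if_neg h3, mul_zero, smul_zero]
  rw [h2]
  exact Submodule.smul_mem _ _ h1

lemma Hom_isSys {C : ∀ n, Submodule K ((Fin n → ι) → K)} (hC : IsProductSystem p C) :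
    IsSys (Hom p C) := by
  refine ⟨?_, ?_⟩
  · intro n
    cases n with
    | zero =>
      intro σ x hx
      have h1 : σ = 1 := Subsingleton.elim _ _
      rw [h1]
      exact hx
    | succ n =>
      intro σ
      have h1 : σ ∈ Submonoid.closure
          (Set.range fun i : Fin n => Equiv.swap i.castSucc i.succ) := by
        rw [Equiv.Perm.mclosure_swap_castSucc_succ]
        exact Submonoid.mem_top σ
      induction h1 using Submonoid.closure_induction with
      | mem σ hσ =>
        obtain ⟨k, rfl⟩ := hσ
        intro x hx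
        exact Hom_swap hC k hx
      | one =>
        intro x hx
        exact hx
      | mul σ τ _ _ hσ hτ =>
        intro x hx
        exact hσ _ (hτ x hx)
  · intro m n x hx y hy
    rw [mem_Hom] at hx hy ⊢
    intro e
    have h1 : part K p e (tmul x y) = tmul (part K p (fun a => e (Fin.castAdd n a)) x)
        (part K p (fun a => e (Fin.natAdd m a)) y) := by
      funext i
      rw [part_apply, tmul, tmul, part_apply, part_apply]
      by_cases h : (fun a => p (i a)) = e
      · rw [if_pos h, if_pos (by rw [← h]), if_pos (by rw [← h])]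
      · rw [if_neg h]
        by_cases h2 : (fun a => p (i (Fin.castAdd n a))) = fun a => e (Fin.castAdd n a)
        · by_cases h3 : (fun a => p (i (Fin.natAdd m a))) = fun a => e (Fin.natAdd m a)
          · exfalso
            apply h
            funext a
            refine Fin.addCases (fun a => ?_) (fun a => ?_) a
            · exact congrFun h2 a
            · exact congrFun h3 a
          · rw [if_neg h3, mul_zero]
        · rw [if_neg h2, zero_mul]
    rw [h1]
    exact hC.2 m n _ (hx _) _ (hy _)

/-- The theorems of Weyl and Hilbert, with the sign rule. -/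
theorem hil_sgn [CharZero K] (hH : S_HIL) {G : Type} [Group G] (ρ : G →* Matrix ι ι K)
    (hp : ∀ g, Par p (ρ g)) (hCR : ∀ n, CR ρ n) :
    ∃ N : ℕ, ∀ C : ∀ n, Submodule K ((Fin n → ι) → K), IsProductSystem p C →
      (∀ m ≤ N, Fixed ρ m ≤ C m) → ∀ n, Fixed ρ n ≤ C n := by
  obtain ⟨N, hN⟩ := hH K ι G ρ hCR
  refine ⟨N, fun C hC hm n x hx => ?_⟩
  have h1 := hN (Hom p C) (Hom_isSys hC) (fun m hmN x hx => by
    rw [mem_Hom]
    intro e
    refine hm m hmN fun g => ?_
    rw [kpw_part (hp g), hx g]) n hx
  rw [mem_Hom] at h1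
  rw [← sum_part (p := p) x]
  exact Submodule.sum_mem _ fun e _ => h1 e

end Sgn

end Pool.Agent.K6.H94.TG
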