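import Mathlib
import Pool.Agent.K6.H94.TG.Sgn
import Pool.Agent.K6.H94.TG.Lau

/-!
# One power suffices for all varieties of bounded level: the proof from the pieces
-/

set_option autoImplicit false
set_option linter.unusedSectionVars false

namespace Pool.Agent.K6.H94.TG

open Matrix

section Basic

variable {R : Type} [CommRing R] {ι : Type} [Fintype ι] [DecidableEq ι]

lemma kpw_transpose (n : ℕ) (g : Matrix ι ι R) : kpw n gᵀ = (kpw n g)ᵀ := rfl

lemma kpw_append {n k : ℕ} (g : Matrix ι ι R) (i i' : Fin n → ι) (j j' : Fin k → ι) :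
    kpw (n + k) g (Fin.append i j) (Fin.append i' j') = kpw n g i i' * kpw k g j j' := by
  rw [kpw_apply, kpw_apply, kpw_apply, Fin.prod_univ_add]
  simp only [Fin.append_left, Fin.append_right]

lemma kpw_map {S : Type} [CommRing S] (f : R →+* S) (n : ℕ) (g : Matrix ι ι R) :
    kpw n (g.map f) = (kpw n g).map f := by
  ext i j
  simp [kpw_apply, Matrix.map_apply, map_prod]

lemma sum_append {M : Type} [AddCommMonoid M] {n k : ℕ} (f : (Fin (n + k) → ι) → M) :
    ∑ x, f x = ∑ i : Fin n → ι, ∑ j : Fin k → ι, f (Fin.append i j) := by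
  rw [← (Fin.appendEquiv n k).sum_comp f, Fintype.sum_prod_type]
  rfl

end Basic

section Cochar

variable {C : Type} [Field C] {μ : Type} [Fintype μ] [DecidableEq μ] {Q : ℤ → Matrix μ μ C} {w : ℕ}

lemma cochar_one (hQ : IsGrading Q w) : cochar Q w 1 = 1 := by
  rw [cochar]
  simp [hQ.1]

lemma cochar_mul (hQ : IsGrading Q w) (s t : Cˣ) :
    cochar Q w s * cochar Q w t = cochar Q w (s * t) := by
  unfold cochar
  rw [Finset.sum_mul]
  refine Finset.sum_congr rfl fun j hj => ?_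
  rw [Finset.mul_sum, Finset.sum_eq_single j]
  · rw [smul_mul_smul_comm, hQ.2 j hj j hj, if_pos rfl, mul_zpow, Units.val_mul]
  · intro k hk hkj
    rw [smul_mul_smul_comm, hQ.2 j hj k hk, if_neg (Ne.symm hkj), smul_zero]
  · intro h
    exact absurd hj h

/-- The inverse of a cocharacter, with the sum reindexed. -/
lemma cochar_inv (Q : ℤ → Matrix μ μ C) (w : ℕ) (t : Cˣ) :
    cochar Q w t⁻¹ = ∑ k ∈ Finset.Icc (-w : ℤ) w, ((t ^ k : Cˣ) : C) • Q (-k) := by
  unfold cochar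
  refine Finset.sum_nbij' (fun k => -k) (fun k => -k) ?_ ?_ ?_ ?_ ?_
  · intro k hk
    rw [Finset.mem_Icc] at hk ⊢
    omega
  · intro k hk
    rw [Finset.mem_Icc] at hk ⊢
    omega
  · intro k _
    exact neg_neg k
  · intro k _
    exact neg_neg k
  · intro k _
    rw [neg_neg, _root_.inv_zpow, ← _root_.zpow_neg]

end Cochar

section Closure

variable {K C : Type} [Field K] [Field C] [Algebra K C] {Γ : Type} [Group Γ]
  {ι μ : Type} [Fintype ι] [DecidableEq ι] [Fintype μ] [DecidableEq μ]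
  {ρ : Γ →* Matrix ι ι K} {τ : Γ →* Matrix μ μ K}

/-- The coordinates of a tensor, in the large field. -/
def ext (C : Type) [Field C] [Algebra K C] {n : ℕ} (v : (Fin n → ι) → K) : (Fin n → ι) → C :=
  fun i => algebraMap K C (v i)

lemma map_kpw_mulVec {n : ℕ} (g : Matrix ι ι K) (v : (Fin n → ι) → K) :
    kpw n (g.map (algebraMap K C)) *ᵥ ext C v = ext C (kpw n g *ᵥ v) := by
  funext i
  rw [kpw_map]
  exact (RingHom.map_mulVec (algebraMap K C) (kpw n g) v i).symm

lemma fixed_of_closure {Δ : Subgroup Γ} {g : Matrix ι ι C} {h : Matrix μ μ C}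
    (hcl : InClosure ρ τ Δ g h) {n : ℕ} {x : (Fin n → ι) → K}
    (hx : ∀ δ ∈ Δ, kpw n (ρ δ) *ᵥ x = x) : kpw n g *ᵥ ext C x = ext C x := by
  funext i
  have h1 := hcl (∑ j, (∏ a, MvPolynomial.X (Sum.inl (i a, j a))) * MvPolynomial.C (x j) -
    MvPolynomial.C (x i)) ?_
  · simp only [map_sub, map_sum, map_mul, map_prod, MvPolynomial.aeval_X, MvPolynomial.aeval_C,
      Sum.elim_inl, sub_eq_zero] at h1
    exact h1
  · intro δ hδ
    simp only [map_sub, map_sum, map_mul, map_prod, MvPolynomial.eval_X, MvPolynomial.eval_C,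
      Sum.elim_inl, sub_eq_zero]
    exact congrFun (hx δ hδ) i

lemma act_of_closure {Δ : Subgroup Γ} {g : Matrix ι ι C} {h : Matrix μ μ C}
    (hcl : InClosure ρ τ Δ g h) {n : ℕ} {y : (Fin n → ι) → μ → K}
    (hy : ∀ δ ∈ Δ, act (ρ δ) (τ δ) y = y) (i : Fin n → ι) (m : μ) :
    ∑ j, ∑ m', kpw n g i j * h m m' * algebraMap K C (y j m') = algebraMap K C (y i m) := by
  have h1 := hcl (∑ j, ∑ m', (∏ a, MvPolynomial.X (Sum.inl (i a, j a))) *
    MvPolynomial.X (Sum.inr (m, m')) * MvPolynomial.C (y j m') - MvPolynomial.C (y i m)) ?_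
  · simp only [map_sub, map_sum, map_mul, map_prod, MvPolynomial.aeval_X, MvPolynomial.aeval_C,
      Sum.elim_inl, Sum.elim_inr, sub_eq_zero] at h1
    exact h1
  · intro δ hδ
    simp only [map_sub, map_sum, map_mul, map_prod, MvPolynomial.eval_X, MvPolynomial.eval_C,
      Sum.elim_inl, Sum.elim_inr, sub_eq_zero]
    exact congrFun (congrFun (hy δ hδ) i) m

variable {A : Type} {P : A → ℤ → Matrix ι ι C} {w₀ w : ℕ}

/-- The Tate classes on the powers of `X` are fixed by the cocharacters. -/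
lemma tate_cochar [CharZero C] {Γ' : Type} [Group Γ'] {ρ' : Γ' →* Matrix ι ι K}
    {τ : Γ' →* Matrix μ μ K} (hlev : LevelLE ρ' P w₀ τ w) {n : ℕ} {x : (Fin n → ι) → K}
    (hx : IsTate ρ' n x) (a : A) (s : Cˣ) :
    kpw n (cochar (P a) w₀ s) *ᵥ ext C x = ext C x := by
  obtain ⟨Δ, hΔ, hx⟩ := hx
  obtain ⟨e, he, Q, _, hcl⟩ := hlev a
  obtain ⟨D, hD⟩ := kpw_laurent (P a) w₀ n (ext C x)
  have h1 : ∀ t : Cˣ, ev (t ^ e) D = ext C x := fun t => by
    rw [← hD]
    exact fixed_of_closure (hcl Δ hΔ t) hx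
  obtain ⟨c, _, hc⟩ := laurent_pow (⊤ : Submodule C ((Fin n → ι) → C)) D (w := 0) he
    (fun _ => ext C x) (fun _ => Submodule.mem_top) (fun t => by
      rw [h1 t]
      simp)
  have h2 : ∀ s : Cˣ, ev s D = c 0 := fun s => by
    rw [hc s]
    simp
  rw [hD, h2, ← h2 (1 ^ e), h1]

/-- The Tate classes on the powers of `X` are fixed by the group in the definition of
`IsGenerated`. -/
lemma tate_fixed [CharZero C] {Γ' : Type} [Group Γ'] {f : Γ' →* Γ} {τ : Γ' →* Matrix μ μ K}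
    {Δ₀ : Subgroup Γ}
    (hΔ₀ : ∀ f : MvPolynomial (ι × ι) C,
      (∀ h ∈ Submonoid.closure {h | ∃ a t, h = cochar (P a) w₀ t},
        MvPolynomial.eval (ent h) f = 0) →
      ∀ δ ∈ Δ₀, MvPolynomial.eval (ent ((ρ δ).map (algebraMap K C))) f = 0)
    (hlev : LevelLE (ρ.comp f) P w₀ τ w) {n : ℕ} {x : (Fin n → ι) → K}
    (hx : IsTate (ρ.comp f) n x) :
    x ∈ Fixed (ρ.comp Δ₀.subtype) n := by
  have h0 : ∀ a s, kpw n (cochar (P a) w₀ s) *ᵥ ext C x = ext C x := tate_cochar hlev hx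
  have h1 : ∀ h ∈ Submonoid.closure {h | ∃ a t, h = cochar (P a) w₀ t},
      kpw n h *ᵥ ext C x = ext C x := by
    intro h hh
    induction hh using Submonoid.closure_induction with
    | mem h hh =>
      obtain ⟨a, t, rfl⟩ := hh
      exact h0 a t
    | one => rw [kpw_one, Matrix.one_mulVec]
    | mul g h _ _ hg hh => rw [kpw_mul, ← Matrix.mulVec_mulVec, hh, hg]
  intro δ
  funext i
  have h2 := hΔ₀ (mc n (ext C x) i - MvPolynomial.C (ext C x i)) (fun h hh => by
    rw [map_sub, eval_mc, MvPolynomial.eval_C, h1 h hh, sub_self]) δ δ.2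
  rw [map_sub, eval_mc, MvPolynomial.eval_C, sub_eq_zero, map_kpw_mulVec] at h2
  exact (algebraMap K C).injective h2

/-- The pull-back of a representation all of whose tensor powers are completely reducible, to a group
with image of finite index. -/
lemma cr_comp (hCR : IsReductive ρ) {Γ' : Type} [Group Γ'] {f : Γ' →* Γ}
    (hf : f.range.FiniteIndex) (Δ : Subgroup Γ') (hΔ : Δ.FiniteIndex) (n : ℕ) :
    CR ((ρ.comp f).comp Δ.subtype) n := by
  have h1 : (Δ.map f).FiniteIndex := by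
    constructor
    rw [Subgroup.index_map]
    refine mul_ne_zero ?_ hf.index_ne_zero
    exact (Subgroup.finiteIndex_of_le (le_sup_left : Δ ≤ Δ ⊔ f.ker)).index_ne_zero
  intro U hU
  obtain ⟨W, hW, hc⟩ := hCR (Δ.map f) h1 n U (fun g x hx => by
    obtain ⟨g, hg⟩ := g
    obtain ⟨δ, hδ, rfl⟩ := hg
    exact hU ⟨δ, hδ⟩ x hx)
  exact ⟨W, fun g x hx => hW ⟨f g, ⟨g, g.2, rfl⟩⟩ x hx, hc⟩

end Closure

section Slices

variable {K C : Type} [Field K] [Field C] [CharZero C] [Algebra K C] {Γ : Type} [Group Γ]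
  {ι μ : Type} [Fintype ι] [DecidableEq ι] [Fintype μ] [DecidableEq μ]
  {ρ : Γ →* Matrix ι ι K} {τ : Γ →* Matrix μ μ K} {A : Type} {P : A → ℤ → Matrix ι ι C} {w₀ w : ℕ}
  {n : ℕ} {y : (Fin n → ι) → μ → K}

/-- The slices of an element of `V^{⊗ n} ⊗ M`. -/
def slc (y : (Fin n → ι) → μ → K) (m : μ) : (Fin n → ι) → K := fun i => y i m

lemma slc_act {g : Matrix ι ι K} {h : Matrix μ μ K} (hy : act g h y = y) (m : μ) :
    ∑ m', h m m' • (kpw n g *ᵥ slc y m') = slc y m := by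
  funext i
  have h1 := congrFun (congrFun hy i) m
  rw [Finset.sum_apply]
  change ∑ m', h m m' * (kpw n g *ᵥ slc y m') i = y i m
  rw [← h1, act, Finset.sum_comm]
  refine Finset.sum_congr rfl fun m' _ => ?_
  rw [Matrix.mulVec, dotProduct, Finset.mul_sum]
  refine Finset.sum_congr rfl fun j _ => ?_
  change h m m' * (kpw n g i j * y j m') = _
  ring

/-- A general inversion. -/
lemma inv_slc {F V : Type} [Field F] [AddCommGroup V] [Module F V] {h h' : Matrix μ μ F}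
    (hh : h' * h = 1) {u v : μ → V} (huv : ∀ m, ∑ m', h m m' • u m' = v m) (m : μ) :
    u m = ∑ m', h' m m' • v m' := by
  have h1 : ∑ m', h' m m' • v m' = ∑ m'', (h' * h) m m'' • u m'' := by
    simp only [← huv, Finset.smul_sum, smul_smul, Matrix.mul_apply, Finset.sum_smul]
    rw [Finset.sum_comm]
  rw [h1, hh, Finset.sum_eq_single m]
  · rw [Matrix.one_apply_eq, one_smul]
  · intro b _ hb
    rw [Matrix.one_apply_ne (Ne.symm hb), zero_smul]
  · intro h
    exact absurd (Finset.mem_univ m) h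

lemma slc_stable {Δ : Subgroup Γ} (hy : ∀ δ ∈ Δ, act (ρ δ) (τ δ) y = y) {δ : Γ} (hδ : δ ∈ Δ)
    (m : μ) : kpw n (ρ δ) *ᵥ slc y m = ∑ m', τ δ⁻¹ m m' • slc y m' := by
  refine inv_slc (h := τ δ) (u := fun m => kpw n (ρ δ) *ᵥ slc y m) ?_
    (fun m => slc_act (hy δ hδ) m) m
  rw [← map_mul, inv_mul_cancel, map_one]

/-- The action of the cocharacters on the slices. -/
lemma slc_cochar {Δ : Subgroup Γ} (hy : ∀ δ ∈ Δ, act (ρ δ) (τ δ) y = y) {Q : ℤ → Matrix μ μ C}
    (hQ : IsGrading Q w) {g : Matrix ι ι C} {t : Cˣ} (hcl : InClosure ρ τ Δ g (cochar Q w t))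
    (m : μ) : kpw n g *ᵥ ext C (slc y m) = ∑ k ∈ Finset.Icc (-w : ℤ) w, ((t ^ k : Cˣ) : C) •
      ∑ m', Q (-k) m m' • ext C (slc y m') := by
  have h1 : kpw n g *ᵥ ext C (slc y m) = ∑ m', cochar Q w t⁻¹ m m' • ext C (slc y m') := by
    refine inv_slc (h := cochar Q w t) (u := fun m => kpw n g *ᵥ ext C (slc y m)) ?_ ?_ m
    · rw [cochar_mul hQ, inv_mul_cancel, cochar_one hQ]
    · intro m
      funext i
      rw [Finset.sum_apply]
      have h2 := act_of_closure hcl hy i m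
      change ∑ m', cochar Q w t m m' * (kpw n g *ᵥ ext C (slc y m')) i = algebraMap K C (y i m)
      rw [← h2, Finset.sum_comm]
      refine Finset.sum_congr rfl fun m' _ => ?_
      rw [Matrix.mulVec, dotProduct, Finset.mul_sum]
      refine Finset.sum_congr rfl fun j _ => ?_
      change cochar Q w t m m' * (kpw n g i j * algebraMap K C (y j m')) = _
      ring
  rw [h1, cochar_inv]
  simp only [Finset.smul_sum, smul_smul]
  rw [Finset.sum_comm]
  refine Finset.sum_congr rfl fun m' _ => ?_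
  rw [Matrix.sum_apply, Finset.sum_smul]
  rfl

/-- The action of the cocharacters on the slices, with bounded exponents. -/
lemma slc_lau {Δ : Subgroup Γ} (hy : ∀ δ ∈ Δ, act (ρ δ) (τ δ) y = y) {R : ℤ → Matrix ι ι C}
    (hlev : ∃ e : ℕ, 0 < e ∧ ∃ Q : ℤ → Matrix μ μ C, IsGrading Q (e * w) ∧
      ∀ t : Cˣ, InClosure ρ τ Δ (cochar R w₀ (t ^ e)) (cochar Q (e * w) t)) (m : μ) :
    ∃ c : ℤ → (Fin n → ι) → C,
      (∀ k, c k ∈ Submodule.span C (Set.range fun m => ext C (slc y m))) ∧ ∀ s : Cˣ,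
        kpw n (cochar R w₀ s) *ᵥ ext C (slc y m) =
          ∑ k ∈ Finset.Icc (-w : ℤ) w, ((s ^ k : Cˣ) : C) • c k := by
  obtain ⟨e, he, Q, hQ, hcl⟩ := hlev
  obtain ⟨D, hD⟩ := kpw_laurent R w₀ n (ext C (slc y m))
  obtain ⟨c, hc, hcs⟩ := laurent_pow (Submodule.span C (Set.range fun m => ext C (slc y m))) D he
    (fun k => ∑ m', Q (-k) m m' • ext C (slc y m')) (fun k => Submodule.sum_mem _ fun m' _ =>
      Submodule.smul_mem _ _ (Submodule.subset_span ⟨m', rfl⟩)) (fun t => by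
      rw [← hD]
      exact slc_cochar hy hQ (hcl t) m)
  refine ⟨c, hc, fun s => ?_⟩
  rw [hD]
  exact hcs s

/-- The slices of Tate classes have level at most `w`. -/
lemma slc_Lv {Δ : Subgroup Γ} (hy : ∀ δ ∈ Δ, act (ρ δ) (τ δ) y = y)
    (hlev : ∀ a, ∃ e : ℕ, 0 < e ∧ ∃ Q : ℤ → Matrix μ μ C, IsGrading Q (e * w) ∧
      ∀ t : Cˣ, InClosure ρ τ Δ (cochar (P a) w₀ (t ^ e)) (cochar Q (e * w) t)) :
    Submodule.span C (Set.range fun m => ext C (slc y m)) ≤
      Lv (fun a t => cochar (P a) w₀ t) w n := by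
  -- stability
  have h1 : ∀ h ∈ Mon (fun a t => cochar (P a) w₀ t), ∀ v ∈ Submodule.span C
      (Set.range fun m => ext C (slc y m)), kpw n h *ᵥ v ∈ Submodule.span C
      (Set.range fun m => ext C (slc y m)) := by
    intro h hh
    rw [Mon] at hh
    induction hh using Submonoid.closure_induction with
    | mem h hh =>
      obtain ⟨a, t, rfl⟩ := hh
      intro v hv
      have h2 : Submodule.span C (Set.range fun m => ext C (slc y m)) ≤
          (Submodule.span C (Set.range fun m => ext C (slc y m))).comap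
            (kpw n (cochar (P a) w₀ t)).mulVecLin := by
        rw [Submodule.span_le]
        rintro _ ⟨m, rfl⟩
        change kpw n (cochar (P a) w₀ t) *ᵥ ext C (slc y m) ∈ Submodule.span C
          (Set.range fun m => ext C (slc y m))
        obtain ⟨c, hc, hcs⟩ := slc_lau hy (hlev a) m
        rw [hcs]
        exact Submodule.sum_mem _ fun k _ => Submodule.smul_mem _ _ (hc k)
      exact h2 hv
    | one =>
      intro v hv
      rw [kpw_one, Matrix.one_mulVec]
      exact hv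
    | mul g h _ _ hg hh =>
      intro v hv
      rw [kpw_mul, ← Matrix.mulVec_mulVec]
      exact hg _ (hh _ hv)
  -- Laurent polynomials
  have h3 : ∀ v ∈ Submodule.span C (Set.range fun m => ext C (slc y m)), ∀ a,
      ∃ c : ℤ → (Fin n → ι) → C, ∀ t : Cˣ, kpw n (cochar (P a) w₀ t) *ᵥ v =
        ∑ k ∈ Finset.Icc (-w : ℤ) w, ((t ^ k : Cˣ) : C) • c k := by
    intro v hv a
    induction hv using Submodule.span_induction with
    | mem v hv =>
      obtain ⟨m, rfl⟩ := hv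
      obtain ⟨c, _, hcs⟩ := slc_lau hy (hlev a) m
      exact ⟨c, hcs⟩
    | zero => exact ⟨fun _ => 0, fun t => by simp⟩
    | add u v _ _ hu hv =>
      obtain ⟨c, hc⟩ := hu
      obtain ⟨d, hd⟩ := hv
      refine ⟨fun k => c k + d k, fun t => ?_⟩
      rw [Matrix.mulVec_add, hc t, hd t, ← Finset.sum_add_distrib]
      exact Finset.sum_congr rfl fun k _ => (smul_add _ _ _).symm
    | smul r v _ hv =>
      obtain ⟨c, hc⟩ := hv
      refine ⟨fun k => r • c k, fun t => ?_⟩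
      rw [Matrix.mulVec_smul, hc t, Finset.smul_sum]
      exact Finset.sum_congr rfl fun k _ => smul_comm _ _ _
  intro v hv h hh a
  exact h3 _ (h1 h hh v hv) a

end Slices

section Main

variable {K C : Type} [Field K] [CharZero K] [Field C] [CharZero C] [Algebra K C] {Γ : Type}
  [Group Γ] {ι : Type} [Fintype ι] [DecidableEq ι] {ρ : Γ →* Matrix ι ι K} {A : Type}
  {P : A → ℤ → Matrix ι ι C} {w₀ : ℕ}

/-- The action of a group on the tensors. -/
def rep (ρ : Γ →* Matrix ι ι K) (Δ : Subgroup Γ) (j : ℕ) :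
    Δ →* Module.End K ((Fin j → ι) → K) where
  toFun g := (kpw j (ρ g)).mulVecLin
  map_one' := by
    rw [Subgroup.coe_one, map_one, kpw_one, Matrix.mulVecLin_one]
    rfl
  map_mul' g h := by
    rw [Subgroup.coe_mul, map_mul, kpw_mul, Matrix.mulVecLin_mul]
    rfl

lemma rep_apply (Δ : Subgroup Γ) (j : ℕ) (g : Δ) (x : (Fin j → ι) → K) :
    rep ρ Δ j g x = kpw j (ρ g) *ᵥ x := rfl

/-- The action of a group on a stable subspace of the tensors. -/
def srep (ρ : Γ →* Matrix ι ι K) (Δ : Subgroup Γ) (j : ℕ) (U : Submodule K ((Fin j → ι) → K))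
    (hU : ∀ g ∈ Δ, ∀ x ∈ U, kpw j (ρ g) *ᵥ x ∈ U) : Δ →* Module.End K U where
  toFun g := (kpw j (ρ g)).mulVecLin.restrict (hU g g.2)
  map_one' := by
    ext x : 2
    change kpw j (ρ ((1 : Δ) : Γ)) *ᵥ (x : (Fin j → ι) → K) = x
    rw [Subgroup.coe_one, map_one, kpw_one, Matrix.one_mulVec]
  map_mul' g h := by
    ext x : 2
    change kpw j (ρ ((g * h : Δ) : Γ)) *ᵥ (x : (Fin j → ι) → K) =
      kpw j (ρ g) *ᵥ (kpw j (ρ h) *ᵥ (x : (Fin j → ι) → K))
    rw [Subgroup.coe_mul, map_mul, kpw_mul, Matrix.mulVec_mulVec]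

lemma srep_apply (Δ : Subgroup Γ) (j : ℕ) (U : Submodule K ((Fin j → ι) → K))
    (hU : ∀ g ∈ Δ, ∀ x ∈ U, kpw j (ρ g) *ᵥ x ∈ U) (g : Δ) (x : U) :
    (srep ρ Δ j U hU g x : (Fin j → ι) → K) = kpw j (ρ g) *ᵥ (x : (Fin j → ι) → K) := rfl

/-- Combinations of elements of the group which act as zero on the tensors with at most `N` factors
act as zero on the tensors whose matrix coefficients are those of such tensors. -/
lemma comb_zero {Δ : Subgroup Γ} {N n : ℕ} {x : (Fin n → ι) → K}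
    (hx : ∀ i, ∃ q ∈ Ep C ι N, ∀ δ ∈ Δ,
      MvPolynomial.eval (ent ((ρ δ).map (algebraMap K C))) (mc n (ext C x) i) =
        MvPolynomial.eval (ent ((ρ δ).map (algebraMap K C))) q)
    (c : Δ →₀ K) (hc : ∀ j ≤ N, (c.sum fun g a => a • kpw j (ρ g)) = 0) :
    (c.sum fun g a => a • (kpw n (ρ g) *ᵥ x)) = 0 := by
  funext i
  obtain ⟨q, hq, hqe⟩ := hx i
  apply (algebraMap K C).injective
  have h1 : algebraMap K C ((c.sum fun g a => a • (kpw n (ρ g) *ᵥ x)) i) =
      c.sum fun g a => algebraMap K C a *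
        MvPolynomial.eval (ent ((ρ g).map (algebraMap K C))) q := by
    rw [Finsupp.sum, Finset.sum_apply, map_sum, Finsupp.sum]
    refine Finset.sum_congr rfl fun g _ => ?_
    rw [← hqe g g.2, eval_mc, map_kpw_mulVec, Pi.smul_apply, smul_eq_mul, map_mul]
    rfl
  rw [h1]
  change _ = algebraMap K C 0
  rw [map_zero]
  clear h1 hqe
  rw [Ep] at hq
  induction hq using Submodule.span_induction with
  | mem q hq =>
    obtain ⟨m, hm, v, i', rfl⟩ := hq
    have h2 : ∀ j, (c.sum fun g a => algebraMap K C a *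
        kpw m ((ρ g).map (algebraMap K C)) i' j) = 0 := by
      intro j
      have h3 := congrArg (fun M => algebraMap K C (M i' j)) (hc m hm)
      simp only [Finsupp.sum, Matrix.sum_apply, Matrix.smul_apply, map_sum, smul_eq_mul, map_mul,
        Matrix.zero_apply, map_zero] at h3
      rw [← h3, Finsupp.sum]
      refine Finset.sum_congr rfl fun g _ => ?_
      rw [kpw_map, Matrix.map_apply]
    calc (c.sum fun g a => algebraMap K C a *
          MvPolynomial.eval (ent ((ρ g).map (algebraMap K C))) (mc m v i')) =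
        ∑ j, v j * (c.sum fun g a => algebraMap K C a *
          kpw m ((ρ g).map (algebraMap K C)) i' j) := by
          simp only [Finsupp.sum, eval_mc, Matrix.mulVec, dotProduct, Finset.mul_sum]
          rw [Finset.sum_comm]
          refine Finset.sum_congr rfl fun g _ => Finset.sum_congr rfl fun j _ => ?_
          ring
      _ = 0 := Finset.sum_eq_zero fun j _ => by rw [h2 j, mul_zero]
  | zero => simp
  | add p q _ _ hp hq =>
    simp only [map_add, mul_add]
    rw [Finsupp.sum_add, hp, hq, add_zero]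
  | smul a q _ hq =>
    have h3 : (c.sum fun g b => algebraMap K C b *
        MvPolynomial.eval (ent ((ρ g).map (algebraMap K C))) (a • q)) =
        a * c.sum fun g b => algebraMap K C b *
          MvPolynomial.eval (ent ((ρ g).map (algebraMap K C))) q := by
      rw [Finsupp.sum, Finsupp.sum, Finset.mul_sum]
      refine Finset.sum_congr rfl fun g _ => ?_
      rw [MvPolynomial.smul_eval]
      ring
    rw [h3, hq, mul_zero]

/-- The image of a basis of the invariant bilinear form. -/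
lemma inv_form {B : Matrix ι ι K} (hB : ∀ γ, (ρ γ)ᵀ * B * ρ γ = B) (hBu : IsUnit B) (γ : Γ) :
    ρ γ * B⁻¹ * (ρ γ)ᵀ = B⁻¹ := by
  have hd : IsUnit B.det := (Matrix.isUnit_iff_isUnit_det B).1 hBu
  have h1 : ρ γ * ρ γ⁻¹ = 1 := by rw [← map_mul, mul_inv_cancel, map_one]
  have h2 : B * (ρ γ * B⁻¹ * (ρ γ)ᵀ) = 1 := by
    have h3 : (ρ γ⁻¹)ᵀ * ((ρ γ)ᵀ * B * ρ γ) = (ρ γ⁻¹)ᵀ * B := by rw [hB γ]
    have h4 : (ρ γ⁻¹)ᵀ * (ρ γ)ᵀ = 1 := by rw [← Matrix.transpose_mul, h1, Matrix.transpose_one]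
    have h5 : B * ρ γ = (ρ γ⁻¹)ᵀ * B := by
      rw [← h3, Matrix.mul_assoc (ρ γ)ᵀ B, ← Matrix.mul_assoc (ρ γ⁻¹)ᵀ, h4, Matrix.one_mul]
    rw [← Matrix.mul_assoc, ← Matrix.mul_assoc, h5, Matrix.mul_assoc (ρ γ⁻¹)ᵀ B,
      Matrix.mul_nonsing_inv B hd, Matrix.mul_one, h4]
  calc ρ γ * B⁻¹ * (ρ γ)ᵀ = (B⁻¹ * B) * (ρ γ * B⁻¹ * (ρ γ)ᵀ) := by
        rw [Matrix.nonsing_inv_mul B hd, Matrix.one_mul]
    _ = B⁻¹ * (B * (ρ γ * B⁻¹ * (ρ γ)ᵀ)) := Matrix.mul_assoc _ _ _
    _ = B⁻¹ := by rw [h2, Matrix.mul_one]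

/-- The tensor of a matrix. -/
noncomputable def tens (B : Matrix ι ι K) {n k : ℕ} (M : Matrix (Fin n → ι) (Fin k → ι) K) :
    (Fin (n + k) → ι) → K :=
  fun I => (M * kpw k B⁻¹) (fun a => I (Fin.castAdd k a)) (fun a => I (Fin.natAdd n a))

lemma tens_append (B : Matrix ι ι K) {n k : ℕ} (M : Matrix (Fin n → ι) (Fin k → ι) K)
    (I : Fin n → ι) (J : Fin k → ι) : tens B M (Fin.append I J) = (M * kpw k B⁻¹) I J := by
  have h1 : (fun a => Fin.append I J (Fin.castAdd k a)) = I := by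
    funext a
    rw [Fin.append_left]
  have h2 : (fun a => Fin.append I J (Fin.natAdd n a)) = J := by
    funext a
    rw [Fin.append_right]
  rw [tens, h1, h2]

lemma tens_fixed {B : Matrix ι ι K} {n k : ℕ} {M : Matrix (Fin n → ι) (Fin k → ι) K}
    {g : Matrix ι ι K} (hg : g * B⁻¹ * gᵀ = B⁻¹) (hM : M * kpw k g = kpw n g * M) :
    kpw (n + k) g *ᵥ tens B M = tens B M := by
  funext I
  obtain ⟨I₀, J₀, rfl⟩ : ∃ (I₀ : Fin n → ι) (J₀ : Fin k → ι), I = Fin.append I₀ J₀ :=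
    ⟨_, _, (Fin.append_castAdd_natAdd (f := I)).symm⟩
  have h1 : (kpw (n + k) g *ᵥ tens B M) (Fin.append I₀ J₀) =
      (kpw n g * (M * kpw k B⁻¹) * (kpw k g)ᵀ) I₀ J₀ := by
    rw [Matrix.mulVec, dotProduct, sum_append, Matrix.mul_apply, Finset.sum_comm]
    refine Finset.sum_congr rfl fun J' _ => ?_
    rw [Matrix.mul_apply, Finset.sum_mul]
    refine Finset.sum_congr rfl fun I' _ => ?_
    rw [kpw_append, tens_append, Matrix.transpose_apply]
    ring
  rw [h1, tens_append]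
  have h2 : kpw n g * (M * kpw k B⁻¹) * (kpw k g)ᵀ = M * kpw k B⁻¹ := by
    rw [← Matrix.mul_assoc (kpw n g), ← hM, ← kpw_transpose, Matrix.mul_assoc M,
      Matrix.mul_assoc M, ← kpw_mul, ← kpw_mul, hg]
  rw [h2]

lemma corr_tens {μ : Type} [Fintype μ] [DecidableEq μ] {p : ι → Bool} {B : Matrix ι ι K}
    (hBu : IsUnit B) {n k : ℕ} (M : Matrix (Fin n → ι) (Fin k → ι) K) (z : (Fin k → ι) → μ → K)
    (I : Fin n → ι) (l : μ) :
    corr p B (tens B (M * dsg K p k)) z I l = (M *ᵥ fun J => z J l) I := by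
  have hd : IsUnit B.det := (Matrix.isUnit_iff_isUnit_det B).1 hBu
  have h1 : M = M * dsg K p k * kpw k B⁻¹ * kpw k B * dsg K p k := by
    rw [Matrix.mul_assoc (M * dsg K p k), ← kpw_mul, Matrix.nonsing_inv_mul B hd, kpw_one,
      Matrix.mul_one, Matrix.mul_assoc, ksign_diag, Matrix.mul_one]
  conv_rhs => rw [h1]
  rw [Matrix.mulVec, dotProduct, corr, Finset.sum_comm]
  refine Finset.sum_congr rfl fun J' _ => ?_
  rw [dsg, Matrix.mul_diagonal, Matrix.mul_apply, Finset.sum_mul, Finset.sum_mul]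
  refine Finset.sum_congr rfl fun J _ => ?_
  rw [tens_append]

/-- The Tate classes on the products `U × X ^ n` come from those with `n ≤ N`, if the coefficients of the
tensors of level at most `w` come from the tensors with at most `N` factors. -/
theorem core (hSEM : S_SEM) {μ : Type} [Fintype μ] [DecidableEq μ] {τ : Γ →* Matrix μ μ K} {w : ℕ}
    {p : ι → Bool} {B : Matrix ι ι K}
    (hp : IsParity p ρ) (hB : ∀ γ, (ρ γ)ᵀ * B * ρ γ = B) (hBu : IsUnit B)
    {Δ₀ : Subgroup Γ} (hfin : Δ₀.FiniteIndex)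
    (hCR : ∀ Δ : Subgroup Γ, Δ.FiniteIndex → Δ ≤ Δ₀ → ∀ n, CR (ρ.comp Δ.subtype) n)
    (hΔ₀ : ∀ f : MvPolynomial (ι × ι) C,
      (∀ h ∈ Submonoid.closure {h | ∃ a t, h = cochar (P a) w₀ t},
        MvPolynomial.eval (ent h) f = 0) →
      ∀ δ ∈ Δ₀, MvPolynomial.eval (ent ((ρ δ).map (algebraMap K C))) f = 0)
    {N₂ : ℕ} (hN₂ : ∀ n, ∀ v ∈ Lv (fun a t => cochar (P a) w₀ t) w n, ∀ i, ∃ q ∈ Ep C ι N₂,
      ∀ h ∈ Mon fun a t => cochar (P a) w₀ t,
        MvPolynomial.eval (ent h) (mc n v i) = MvPolynomial.eval (ent h) q)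
    (hlev : LevelLE ρ P w₀ τ w) {Cl : ∀ n, Submodule K ((Fin n → ι) → K)}
    {S : ∀ n, Submodule K ((Fin n → ι) → μ → K)}
    (hS : ∀ n m, ∀ a ∈ Cl (n + m), ∀ y ∈ S m, corr p B a y ∈ S n)
    (hCl : ∀ n x, IsTate ρ n x → x ∈ Cl n) (hSm : ∀ m ≤ N₂, ∀ y, IsTateM ρ τ m y → y ∈ S m)
    (n : ℕ) (y : (Fin n → ι) → μ → K) (hy : IsTateM ρ τ n y) : y ∈ S n := by
  obtain ⟨Δ, hΔ, hy⟩ := hy
  have hLv := slc_Lv hy fun a => by
    obtain ⟨e, he, Q, hQ, hcl⟩ := hlev a
    exact ⟨e, he, Q, hQ, hcl Δ hΔ⟩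
  -- the subgroup
  let Δ₁ : Subgroup Γ := Δ ⊓ Δ₀
  have hΔ₁ : Δ₁.FiniteIndex := inferInstance
  let U : Submodule K ((Fin n → ι) → K) := Submodule.span K (Set.range fun m => slc y m)
  have hU : ∀ g ∈ Δ₁, ∀ x ∈ U, kpw n (ρ g) *ᵥ x ∈ U := by
    intro g hg x hx
    have h2 : U ≤ U.comap (kpw n (ρ g)).mulVecLin := by
      rw [Submodule.span_le]
      rintro _ ⟨m, rfl⟩
      change kpw n (ρ g) *ᵥ slc y m ∈ U
      rw [slc_stable hy hg.1]
      exact Submodule.sum_mem _ fun m' _ => Submodule.smul_mem _ _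
        (Submodule.subset_span ⟨m', rfl⟩)
    exact h2 hx
  have hUC : ∀ x ∈ U, ext C x ∈ Submodule.span C (Set.range fun m => ext C (slc y m)) := by
    intro x hx
    induction hx using Submodule.span_induction with
    | mem x hx =>
      obtain ⟨m, rfl⟩ := hx
      exact Submodule.subset_span ⟨m, rfl⟩
    | zero =>
      have : ext C (0 : (Fin n → ι) → K) = 0 := by
        funext i
        exact map_zero _
      rw [this]
      exact Submodule.zero_mem _
    | add u v _ _ hu hv =>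
      have : ext C (u + v) = ext C u + ext C v := by
        funext i
        exact map_add _ _ _
      rw [this]
      exact Submodule.add_mem _ hu hv
    | smul a v _ hv =>
      have : ext C (a • v) = algebraMap K C a • ext C v := by
        funext i
        exact map_mul _ _ _
      rw [this]
      exact Submodule.smul_mem _ _ hv
  -- the matrix coefficients
  have hco : ∀ x ∈ U, ∀ i, ∃ q ∈ Ep C ι N₂, ∀ δ ∈ Δ₁,
      MvPolynomial.eval (ent ((ρ δ).map (algebraMap K C))) (mc n (ext C x) i) =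
        MvPolynomial.eval (ent ((ρ δ).map (algebraMap K C))) q := by
    intro x hx i
    obtain ⟨q, hq, hqe⟩ := hN₂ n (ext C x) (hLv (hUC x hx)) i
    refine ⟨q, hq, fun δ hδ => ?_⟩
    have h1 := hΔ₀ (mc n (ext C x) i - q) (fun h hh => by
      rw [map_sub, hqe h hh, sub_self]) δ hδ.2
    rw [map_sub, sub_eq_zero] at h1
    exact h1
  -- the identity factors through the tensors with at most `N₂` factors
  obtain ⟨q, j, At, ψ, hAt, hψ, hid⟩ := hSEM K Δ₁ (Fin (N₂ + 1)) (fun j => (Fin j → ι) → K)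
    (fun j => rep ρ Δ₁ j) (fun j V hV => by
      obtain ⟨W, hW, hc⟩ := hCR Δ₁ hΔ₁ inf_le_right j V (fun g x hx => hV g x hx)
      exact ⟨W, fun g x hx => hW g x hx, hc⟩) U (srep ρ Δ₁ n U hU) (fun c hc => by
      ext x : 2
      have h1 := comb_zero (hco x x.2) c (fun j hj => by
        have h2 := hc ⟨j, Nat.lt_succ_of_le hj⟩
        apply Matrix.toLin'.injective
        rw [map_zero, ← h2, Finsupp.sum, Finsupp.sum, map_sum]
        refine Finset.sum_congr rfl fun g _ => ?_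
        rw [map_smul]
        rfl)
      refine Eq.trans ?_ h1
      rw [Finsupp.sum, Finsupp.sum, LinearMap.sum_apply, Submodule.coe_sum]
      rfl)
  have hkey : ∀ i, ∃ a ∈ Cl (n + (j i : ℕ)), ∃ z ∈ S (j i : ℕ), ∀ I l,
      corr p B a z I l = (At i (ψ i ⟨slc y l, Submodule.subset_span ⟨l, rfl⟩⟩) :
        (Fin n → ι) → K) I := by
    intro i
    let M : Matrix (Fin n → ι) (Fin (j i : ℕ) → ι) K :=
      Matrix.of fun I J => (At i (Pi.single J 1) : (Fin n → ι) → K) I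
    have hMv : ∀ x, M *ᵥ x = (At i x : (Fin n → ι) → K) := by
      intro x
      funext I
      have h1 : x = ∑ J, x J • Pi.single (M := fun _ => K) J (1 : K) := by
        funext J
        rw [Finset.sum_apply, Finset.sum_eq_single J]
        · simp
        · intro b _ hb
          rw [Pi.smul_apply, Pi.single_eq_of_ne (Ne.symm hb), smul_zero]
        · intro h
          exact absurd (Finset.mem_univ J) h
      conv_rhs => rw [h1, map_sum, Submodule.coe_sum, Finset.sum_apply]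
      rw [Matrix.mulVec, dotProduct]
      refine Finset.sum_congr rfl fun J _ => ?_
      rw [map_smul, Submodule.coe_smul, Pi.smul_apply, smul_eq_mul, mul_comm]
      rfl
    have hMg : ∀ g ∈ Δ₁, M * kpw (j i : ℕ) (ρ g) = kpw n (ρ g) * M := by
      intro g hg
      apply Matrix.toLin'.injective
      apply LinearMap.ext
      intro x
      rw [Matrix.toLin'_apply, Matrix.toLin'_apply, ← Matrix.mulVec_mulVec, ← Matrix.mulVec_mulVec,
        hMv, hMv]
      have h2 := congrArg (fun u : U => (u : (Fin n → ι) → K)) (hAt i ⟨g, hg⟩ x)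
      exact h2
    have hMs : ∀ g ∈ Δ₁, M * dsg K p (j i : ℕ) * kpw (j i : ℕ) (ρ g) =
        kpw n (ρ g) * (M * dsg K p (j i : ℕ)) := by
      intro g hg
      rw [Matrix.mul_assoc, ← kpw_ksign (hp g), ← Matrix.mul_assoc, hMg g hg, Matrix.mul_assoc]
    refine ⟨tens B (M * dsg K p (j i : ℕ)),
      hCl _ _ ⟨Δ₁, hΔ₁, fun δ hδ => tens_fixed (inv_form hB hBu δ) (hMs δ hδ)⟩,
      fun J l => ψ i ⟨slc y l, Submodule.subset_span ⟨l, rfl⟩⟩ J, ?_, ?_⟩
    · refine hSm _ ((Nat.le_of_lt_succ (j i).2).trans le_rfl) _ ⟨Δ₁, hΔ₁, fun δ hδ => ?_⟩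
      funext J m
      have h3 : (∑ m', τ δ m m' • (kpw (j i : ℕ) (ρ δ) *ᵥ
          ψ i ⟨slc y m', Submodule.subset_span ⟨m', rfl⟩⟩)) =
          ψ i ⟨slc y m, Submodule.subset_span ⟨m, rfl⟩⟩ := by
        have h4 : ∀ u : U, kpw (j i : ℕ) (ρ δ) *ᵥ ψ i u = ψ i (srep ρ Δ₁ n U hU ⟨δ, hδ⟩ u) :=
          fun u => (hψ i ⟨δ, hδ⟩ u).symm
        simp only [h4, ← map_smul]
        rw [← map_sum]
        congr 1
        apply Subtype.ext
        rw [Submodule.coe_sum]
        refine Eq.trans (Finset.sum_congr rfl fun m' _ => ?_) (slc_act (hy δ hδ.1) m)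
        rw [map_smul]
        rfl
      change act (ρ δ) (τ δ) _ J m = ψ i ⟨slc y m, Submodule.subset_span ⟨m, rfl⟩⟩ J
      rw [← h3, act, Finset.sum_comm, Finset.sum_apply]
      refine Finset.sum_congr rfl fun m' _ => ?_
      rw [Pi.smul_apply, Matrix.mulVec, dotProduct, smul_eq_mul, Finset.mul_sum]
      refine Finset.sum_congr rfl fun J' _ => ?_
      ring
    · intro I l
      rw [corr_tens hBu, hMv]
  choose a ha z hz haz using hkey
  have hsum : y = ∑ i, corr p B (a i) (z i) := by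
    funext I l
    rw [Finset.sum_apply, Finset.sum_apply]
    simp only [haz]
    have h1 := congrArg (fun u : U => (u : (Fin n → ι) → K) I)
      (hid ⟨slc y l, Submodule.subset_span ⟨l, rfl⟩⟩)
    simp only [Submodule.coe_sum, Finset.sum_apply] at h1
    exact h1.symm
  rw [hsum]
  exact Submodule.sum_mem _ fun i _ => hS n (j i) (a i) (ha i) (z i) (hz i)

/-- **Main theorem**, from the pieces. -/
theorem main_of (hHIL : S_HIL) (hGEN : S_GEN) (hSEM : S_SEM) {p : ι → Bool} {B : Matrix ι ι K}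
    (hp : IsParity p ρ) (hCR : IsReductive ρ) (hB : ∀ γ, (ρ γ)ᵀ * B * ρ γ = B) (hBu : IsUnit B)
    (hP : ∀ a, IsGrading (P a) w₀) (hgen : IsGenerated ρ P w₀) (w : ℕ) :
    ∃ N : ℕ, ∀ (Γ' : Type) [Group Γ'] (f : Γ' →* Γ), f.range.FiniteIndex →
      ∀ (μ : Type) [Fintype μ] [DecidableEq μ] (τ : Γ' →* Matrix μ μ K),
      LevelLE (ρ.comp f) P w₀ τ w →
      ∀ (Cl : ∀ n, Submodule K ((Fin n → ι) → K)) (S : ∀ n, Submodule K ((Fin n → ι) → μ → K)),
        IsSystem p B Cl S → (∀ m ≤ N, ∀ x, IsTate (ρ.comp f) m x → x ∈ Cl m) →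
        (∀ m ≤ N, ∀ y, IsTateM (ρ.comp f) τ m y → y ∈ S m) →
        (∀ n x, IsTate (ρ.comp f) n x → x ∈ Cl n) ∧
          ∀ n y, IsTateM (ρ.comp f) τ n y → y ∈ S n := by
  obtain ⟨Δ₀, hfin, hΔ₀⟩ := hgen
  obtain ⟨N₁, hN₁⟩ := hil_sgn hHIL (ρ.comp Δ₀.subtype) (fun g => hp g) (hCR Δ₀ hfin)
  obtain ⟨N₂, hN₂⟩ := exists_N hGEN (lam := fun a t => cochar (P a) w₀ t) (fun _ _ => rfl)
    (fun a => cochar_one (hP a)) w
  refine ⟨max N₁ N₂, fun Γ' _ f hf μ _ _ τ hlev Cl S hS hC hSm => ?_⟩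
  have hfin' : (Δ₀.comap f).FiniteIndex := by
    constructor
    rw [Subgroup.index_comap]
    exact (inferInstance : (Δ₀.subgroupOf f.range).FiniteIndex).index_ne_zero
  have hCl : ∀ n x, IsTate (ρ.comp f) n x → x ∈ Cl n := by
    intro n x hx
    refine hN₁ Cl hS.1 (fun m hm z hz => ?_) n (tate_fixed hΔ₀ hlev hx)
    refine hC m (hm.trans (le_max_left _ _)) z ⟨Δ₀.comap f, hfin', fun δ hδ => ?_⟩
    exact hz ⟨f δ, hδ⟩
  exact ⟨hCl, core (ρ := ρ.comp f) hSEM (fun γ => hp (f γ)) (fun γ => hB (f γ)) hBu hfin'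
    (fun Δ hΔ _ n => cr_comp hCR hf Δ hΔ n)
    (fun F hF δ hδ => hΔ₀ F hF (f δ) hδ) hN₂ hlev hS.2 hCl
    fun m hm y hy => hSm m (hm.trans (le_max_right _ _)) y hy⟩

end Main

end Pool.Agent.K6.H94.TG
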