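import Mathlib
import Pool.Agent.K6.H94.TG.Defs

/-!
# Families of cocharacters up to conjugation: definitions
-/

set_option autoImplicit false

namespace Pool.Agent.K6.H94.TG

open Matrix

variable {C : Type} [Field C] {ι : Type} [Fintype ι] [DecidableEq ι] {A : Type}

/-- The conjugates of the gradings `P a` under the invertible matrix `g`. -/
def conj (g : (Matrix ι ι C)ˣ) (P : A → ℤ → Matrix ι ι C) : A → ℤ → Matrix ι ι C :=
  fun a k => (g : Matrix ι ι C) * P a k * ((g⁻¹ : (Matrix ι ι C)ˣ) : Matrix ι ι C)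

/-- The tensor powers are completely reducible representations of the group generated by the
cocharacters of the gradings `P a`: each stable subspace has a stable complement. -/
def GeneratesReductive (P : A → ℤ → Matrix ι ι C) (w₀ : ℕ) : Prop :=
  ∀ n, ∀ U : Submodule C ((Fin n → ι) → C),
    (∀ a t, ∀ x ∈ U, kpw n (cochar (P a) w₀ t) *ᵥ x ∈ U) →
    ∃ W : Submodule C ((Fin n → ι) → C),
      (∀ a t, ∀ x ∈ W, kpw n (cochar (P a) w₀ t) *ᵥ x ∈ W) ∧ IsCompl U W

end Pool.Agent.K6.H94.TG
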