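import Mathlib
import Pool.Agent.K6.H94.TG.Asm
import Pool.Agent.K6.H94.TG.Defs2

/-!
# Descent of complements and of invariants from the large field
-/

set_option autoImplicit false
set_option linter.unusedSectionVars false

namespace Pool.Agent.K6.H94.TG

open Matrix

section Descent

variable {K C : Type} [Field K] [Field C] [Algebra K C] {ι : Type} [Fintype ι] [DecidableEq ι]

/-- The tensors with coordinates in the small field obtained from a linear functional. -/
def red (r : C →ₗ[K] K) {n : ℕ} (x : (Fin n → ι) → C) : (Fin n → ι) → K := fun i => r (x i)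

lemma red_mulVec (r : C →ₗ[K] K) {n : ℕ} (g : Matrix ι ι K) (x : (Fin n → ι) → C) :
    red r (kpw n (g.map (algebraMap K C)) *ᵥ x) = kpw n g *ᵥ red r x := by
  funext i
  change r ((kpw n (g.map (algebraMap K C)) *ᵥ x) i) = (kpw n g *ᵥ red r x) i
  rw [Matrix.mulVec, dotProduct, map_sum, Matrix.mulVec, dotProduct]
  refine Finset.sum_congr rfl fun j _ => ?_
  rw [kpw_map, Matrix.map_apply, ← Algebra.smul_def, map_smul]
  rfl

lemma red_add (r : C →ₗ[K] K) {n : ℕ} (x y : (Fin n → ι) → C) :
    red r (x + y) = red r x + red r y := by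
  funext i
  exact map_add r _ _

lemma red_ext (r : C →ₗ[K] K) (hr : r 1 = 1) {n : ℕ} (x : (Fin n → ι) → K) :
    red r (ext C x) = x := by
  funext i
  change r (algebraMap K C (x i)) = x i
  rw [Algebra.algebraMap_eq_smul_one, map_smul, hr, smul_eq_mul, mul_one]

lemma red_smul_ext (r : C →ₗ[K] K) {n : ℕ} (c : C) (x : (Fin n → ι) → K) :
    red r (c • ext C x) = r c • x := by
  funext i
  change r (c * algebraMap K C (x i)) = r c * x i
  rw [mul_comm, ← Algebra.smul_def, map_smul, smul_eq_mul, mul_comm]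

lemma exists_red : ∃ r : C →ₗ[K] K, r 1 = 1 := by
  obtain ⟨r, hr⟩ := LinearMap.exists_leftInverse_of_injective (Algebra.linearMap K C)
    (LinearMap.ker_eq_bot.2 (algebraMap K C).injective)
  refine ⟨r, ?_⟩
  have := LinearMap.congr_fun hr (1 : K)
  simpa using this

/-- The span over the large field of a space of tensors over the small field. -/
def spn (C : Type) [Field C] [Algebra K C] {n : ℕ} (U : Submodule K ((Fin n → ι) → K)) :
    Submodule C ((Fin n → ι) → C) :=
  Submodule.span C {z | ∃ u ∈ U, z = ext C u}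

lemma ext_mem_spn {n : ℕ} {U : Submodule K ((Fin n → ι) → K)} {u : (Fin n → ι) → K}
    (hu : u ∈ U) : ext C u ∈ spn C U := Submodule.subset_span ⟨u, hu, rfl⟩

lemma red_mem {n : ℕ} {U : Submodule K ((Fin n → ι) → K)} {z : (Fin n → ι) → C}
    (hz : z ∈ spn C U) (r : C →ₗ[K] K) : red r z ∈ U := by
  have h1 : ∀ c : C, red r (c • z) ∈ U := by
    rw [spn] at hz
    induction hz using Submodule.span_induction with
    | mem z hz =>
      obtain ⟨u, hu, rfl⟩ := hz
      intro c
      rw [red_smul_ext]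
      exact Submodule.smul_mem _ _ hu
    | zero =>
      intro c
      have : red r (c • (0 : (Fin n → ι) → C)) = 0 := by
        funext i
        change r (c * 0) = 0
        rw [mul_zero, map_zero]
      rw [this]
      exact Submodule.zero_mem _
    | add x y _ _ hx hy =>
      intro c
      rw [smul_add, red_add]
      exact Submodule.add_mem _ (hx c) (hy c)
    | smul a x _ hx =>
      intro c
      rw [smul_smul]
      exact hx _
  have := h1 1
  rwa [one_smul] at this

lemma mem_of_ext_mem {n : ℕ} {U : Submodule K ((Fin n → ι) → K)} {x : (Fin n → ι) → K}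
    (hx : ext C x ∈ spn C U) : x ∈ U := by
  obtain ⟨r, hr⟩ := exists_red (K := K) (C := C)
  rw [← red_ext r hr x]
  exact red_mem hx r

/-- A tensor over the large field is a combination of its coordinates with respect to a basis over the
small field. -/
lemma mem_spn_of_red {n : ℕ} {U : Submodule K ((Fin n → ι) → K)} {z : (Fin n → ι) → C}
    (h : ∀ r : C →ₗ[K] K, red r z ∈ U) : z ∈ spn C U := by
  classical
  let b := Module.Basis.ofVectorSpace K C
  have h1 : z = ∑ β ∈ Finset.univ.biUnion fun i => (b.repr (z i)).support,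
      b β • ext C (red (b.coord β) z) := by
    funext i
    rw [Finset.sum_apply]
    have h2 : z i = ∑ β ∈ (b.repr (z i)).support, (b.repr (z i)) β • b β := by
      conv_lhs => rw [← b.linearCombination_repr (z i)]
      rw [Finsupp.linearCombination_apply, Finsupp.sum]
    conv_lhs => rw [h2]
    refine Finset.sum_subset_zero_on_sdiff (fun β hβ => ?_) (fun β hβ => ?_) (fun β _ => ?_)
    · exact Finset.mem_biUnion.2 ⟨i, Finset.mem_univ i, hβ⟩
    · have h3 : b.repr (z i) β = 0 := Finsupp.notMem_support_iff.1 (Finset.mem_sdiff.1 hβ).2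
      change b β * algebraMap K C (b.repr (z i) β) = 0
      rw [h3, map_zero, mul_zero]
    · change b.repr (z i) β • b β = b β * algebraMap K C (b.repr (z i) β)
      rw [Algebra.smul_def, mul_comm]
  rw [h1]
  exact Submodule.sum_mem _ fun β _ => Submodule.smul_mem _ _ (ext_mem_spn (h _))

end Descent

section Ev

variable {C : Type} [Field C] [CharZero C] {V : Type} [AddCommGroup V] [Module C V]

lemma ev_mem (S : Submodule C V) {F : ℤ →₀ V} (h : ∀ t : Cˣ, ev t F ∈ S) (k : ℤ) : F k ∈ S := by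
  obtain ⟨w, hw⟩ : ∃ w : ℕ, ∀ k ∈ F.support, k.natAbs ≤ w :=
    ⟨F.support.sup Int.natAbs, fun k hk => Finset.le_sup hk⟩
  have h0 : ∀ k, k ∉ Finset.Icc (-w : ℤ) w → F k = 0 := by
    intro k hk
    by_contra hn
    apply hk
    have h1 := hw k (Finsupp.mem_support_iff.2 hn)
    rw [Finset.mem_Icc]
    omega
  have h1 := coeff_mem S w F (fun t => by
    rw [← ev_of_support h0]
    exact h t)
  by_cases hk : k ∈ Finset.Icc (-w : ℤ) w
  · exact h1 k hk
  · rw [h0 k hk]
    exact Submodule.zero_mem _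

lemma ev_pow_mem (S : Submodule C V) {D : ℤ →₀ V} {e : ℕ} (he : 0 < e)
    (h : ∀ t : Cˣ, ev (t ^ e) D ∈ S) (s : Cˣ) : ev s D ∈ S := by
  have h1 : ∀ k, (D.mapDomain fun k : ℤ => (e : ℤ) * k) k ∈ S :=
    ev_mem S fun t => by
      rw [ev_mapDomain]
      exact h t
  have hinj : Function.Injective fun k : ℤ => (e : ℤ) * k := by
    intro a b hab
    exact mul_left_cancel₀ (by exact_mod_cast he.ne') hab
  rw [ev_apply, Finsupp.sum]
  refine Submodule.sum_mem _ fun k _ => Submodule.smul_mem _ _ ?_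
  have h2 := h1 ((e : ℤ) * k)
  rwa [Finsupp.mapDomain_apply hinj] at h2

end Ev

section Stable

variable {K C : Type} [Field K] [Field C] [CharZero C] [Algebra K C] {Γ : Type}
  [Group Γ] {ι μ : Type} [Fintype ι] [DecidableEq ι] [Fintype μ] [DecidableEq μ]
  {ρ : Γ →* Matrix ι ι K} {τ : Γ →* Matrix μ μ K} {A : Type} {P : A → ℤ → Matrix ι ι C}
  {w₀ w : ℕ}

/-- Stability under the group passes to the Zariski closure. -/
lemma stable_closure {Δ : Subgroup Γ} {n : ℕ} {U : Submodule K ((Fin n → ι) → K)}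
    (hU : ∀ δ ∈ Δ, ∀ x ∈ U, kpw n (ρ δ) *ᵥ x ∈ U) {g : Matrix ι ι C} {h : Matrix μ μ C}
    (hcl : InClosure ρ τ Δ g h) {z : (Fin n → ι) → C} (hz : z ∈ spn C U) :
    kpw n g *ᵥ z ∈ spn C U := by
  have h1 : spn C U ≤ (spn C U).comap (kpw n g).mulVecLin := by
    rw [spn, Submodule.span_le]
    rintro _ ⟨u, hu, rfl⟩
    change kpw n g *ᵥ ext C u ∈ spn C U
    obtain ⟨W, hW⟩ := Submodule.exists_isCompl U
    let E : ((Fin n → ι) → K) →ₗ[K] ((Fin n → ι) → K) :=
      U.subtype ∘ₗ Submodule.projectionOnto U W hW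
    have hE : ∀ x ∈ U, E x = x := by
      intro x hx
      change ((Submodule.projectionOnto U W hW x : U) : (Fin n → ι) → K) = x
      rw [Submodule.projectionOnto_apply_left hW ⟨x, hx⟩]
    have hEm : ∀ x, E x ∈ U := fun x => (Submodule.projectionOnto U W hW x).2
    let M := LinearMap.toMatrix' E
    have hM : ∀ x, M *ᵥ x = E x := fun x => by
      rw [← Matrix.toLin'_apply, Matrix.toLin'_toMatrix']
    have h2 : ∀ i, ∑ l, algebraMap K C (M i l) * (kpw n g *ᵥ ext C u) l =
        (kpw n g *ᵥ ext C u) i := by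
      intro i
      have h3 := hcl (∑ l, MvPolynomial.C (M i l) *
          (∑ j, (∏ a, MvPolynomial.X (Sum.inl (l a, j a))) * MvPolynomial.C (u j)) -
          ∑ j, (∏ a, MvPolynomial.X (Sum.inl (i a, j a))) * MvPolynomial.C (u j)) ?_
      · simp only [map_sub, map_sum, map_mul, map_prod, MvPolynomial.aeval_X,
          MvPolynomial.aeval_C, Sum.elim_inl, sub_eq_zero] at h3
        exact h3
      · intro δ hδ
        simp only [map_sub, map_sum, map_mul, map_prod, MvPolynomial.eval_X, MvPolynomial.eval_C,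
          Sum.elim_inl, sub_eq_zero]
        have h4 := hE _ (hU δ hδ u hu)
        rw [← hM] at h4
        exact congrFun h4 i
    have h5 : kpw n g *ᵥ ext C u = ∑ l, (kpw n g *ᵥ ext C u) l • ext C (fun i => M i l) := by
      funext i
      rw [Finset.sum_apply, ← h2 i]
      refine Finset.sum_congr rfl fun l _ => ?_
      rw [Pi.smul_apply, smul_eq_mul, mul_comm]
      rfl
    rw [h5]
    refine Submodule.sum_mem _ fun l _ => Submodule.smul_mem _ _ (ext_mem_spn ?_)
    have h6 : (fun i => M i l) = E (Pi.single l 1) := by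
      rw [← hM, Matrix.mulVec_single_one]
      rfl
    rw [h6]
    exact hEm _
  exact h1 hz

/-- Stability under a group passes to the cocharacters in the definition of the level. -/
lemma stable_cochar (hlev : LevelLE ρ P w₀ τ w) {Δ : Subgroup Γ} (hΔ : Δ.FiniteIndex) {n : ℕ}
    {U : Submodule K ((Fin n → ι) → K)} (hU : ∀ δ ∈ Δ, ∀ x ∈ U, kpw n (ρ δ) *ᵥ x ∈ U) (a : A)
    (s : Cˣ) {z : (Fin n → ι) → C} (hz : z ∈ spn C U) :
    kpw n (cochar (P a) w₀ s) *ᵥ z ∈ spn C U := by
  obtain ⟨e, he, Q, _, hcl⟩ := hlev a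
  obtain ⟨D, hD⟩ := kpw_laurent (P a) w₀ n z
  rw [hD]
  refine ev_pow_mem _ he (fun t => ?_) s
  rw [← hD]
  exact stable_closure hU (hcl Δ hΔ t) hz

/-- Stability under the monoid generated by the cocharacters passes to the group. -/
lemma stable_of_cochar {Δ₀ : Subgroup Γ}
    (hΔ₀ : ∀ f : MvPolynomial (ι × ι) C,
      (∀ h ∈ Submonoid.closure {h | ∃ a t, h = cochar (P a) w₀ t},
        MvPolynomial.eval (ent h) f = 0) →
      ∀ δ ∈ Δ₀, MvPolynomial.eval (ent ((ρ δ).map (algebraMap K C))) f = 0)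
    {n : ℕ} {W : Submodule C ((Fin n → ι) → C)}
    (hW : ∀ a t, ∀ x ∈ W, kpw n (cochar (P a) w₀ t) *ᵥ x ∈ W) {δ : Γ} (hδ : δ ∈ Δ₀)
    {x : (Fin n → ι) → C} (hx : x ∈ W) : kpw n ((ρ δ).map (algebraMap K C)) *ᵥ x ∈ W := by
  have h0 : ∀ h ∈ Submonoid.closure {h | ∃ a t, h = cochar (P a) w₀ t}, ∀ x ∈ W,
      kpw n h *ᵥ x ∈ W := by
    intro h hh
    induction hh using Submonoid.closure_induction with
    | mem h hh =>
      obtain ⟨a, t, rfl⟩ := hh
      exact hW a t
    | one =>
      intro x hx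
      rw [kpw_one, Matrix.one_mulVec]
      exact hx
    | mul g h _ _ hg hh =>
      intro x hx
      rw [kpw_mul, ← Matrix.mulVec_mulVec]
      exact hg _ (hh _ hx)
  by_contra hn
  obtain ⟨φ, hφ, hφW⟩ := Submodule.exists_le_ker_of_notMem hn
  apply hφ
  have h1 := hΔ₀ (∑ i, MvPolynomial.C (φ (Pi.single i 1)) * mc n x i) (fun h hh => by
    have h2 : φ (kpw n h *ᵥ x) = 0 := hφW (h0 h hh x hx)
    rw [map_sum, ← h2, φ.pi_apply_eq_sum_univ (kpw n h *ᵥ x)]
    refine Finset.sum_congr rfl fun i _ => ?_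
    rw [map_mul, MvPolynomial.eval_C, eval_mc, smul_eq_mul, mul_comm]
    congr 2
    ext j
    rw [Pi.single_apply]
    simp only [eq_comm]) δ hδ
  rw [← h1, map_sum, φ.pi_apply_eq_sum_univ (kpw n ((ρ δ).map (algebraMap K C)) *ᵥ x)]
  refine Finset.sum_congr rfl fun i _ => ?_
  rw [map_mul, MvPolynomial.eval_C, eval_mc, smul_eq_mul, mul_comm]
  congr 2
  ext j
  rw [Pi.single_apply]
  simp only [eq_comm]

/-- Complete reducibility passes from the group generated by the cocharacters to the group. -/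
lemma cr_of_reductive (hred : GeneratesReductive P w₀) {Δ₀ : Subgroup Γ}
    (hΔ₀ : ∀ f : MvPolynomial (ι × ι) C,
      (∀ h ∈ Submonoid.closure {h | ∃ a t, h = cochar (P a) w₀ t},
        MvPolynomial.eval (ent h) f = 0) →
      ∀ δ ∈ Δ₀, MvPolynomial.eval (ent ((ρ δ).map (algebraMap K C))) f = 0)
    (hlev : LevelLE ρ P w₀ τ w) (Δ : Subgroup Γ) (hΔ : Δ.FiniteIndex) (hle : Δ ≤ Δ₀) (n : ℕ) :
    CR (ρ.comp Δ.subtype) n := by
  intro U hU
  have hU' : ∀ δ ∈ Δ, ∀ x ∈ U, kpw n (ρ δ) *ᵥ x ∈ U := fun δ hδ x hx => hU ⟨δ, hδ⟩ x hx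
  obtain ⟨W, hW, hc⟩ := hred n (spn C U) fun a t x hx => stable_cochar hlev hΔ hU' a t hx
  obtain ⟨r, hr⟩ := exists_red (K := K) (C := C)
  -- the projection commutes with the group
  have hpr : ∀ δ ∈ Δ, ∀ z, kpw n ((ρ δ).map (algebraMap K C)) *ᵥ
      ((Submodule.projectionOnto (spn C U) W hc z : spn C U) : (Fin n → ι) → C) =
      ((Submodule.projectionOnto (spn C U) W hc
        (kpw n ((ρ δ).map (algebraMap K C)) *ᵥ z) : spn C U) : (Fin n → ι) → C) := by
    intro δ hδ z
    obtain ⟨u, hu, v, hv, rfl⟩ : ∃ u ∈ spn C U, ∃ v ∈ W, u + v = z :=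
      Submodule.mem_sup.1 (by rw [hc.sup_eq_top]; exact Submodule.mem_top)
    have h1 : kpw n ((ρ δ).map (algebraMap K C)) *ᵥ u ∈ spn C U := by
      have h2 : spn C U ≤ (spn C U).comap
          (kpw n ((ρ δ).map (algebraMap K C))).mulVecLin := by
        rw [spn, Submodule.span_le]
        rintro _ ⟨u, hu, rfl⟩
        change kpw n ((ρ δ).map (algebraMap K C)) *ᵥ ext C u ∈ spn C U
        rw [map_kpw_mulVec]
        exact ext_mem_spn (hU' δ hδ u hu)
      exact h2 hu
    have h3 : kpw n ((ρ δ).map (algebraMap K C)) *ᵥ v ∈ W :=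
      stable_of_cochar hΔ₀ hW (hle hδ) hv
    rw [Matrix.mulVec_add, map_add, map_add, Submodule.projectionOnto_apply_left hc ⟨u, hu⟩,
      Submodule.projectionOnto_apply_left hc ⟨_, h1⟩,
      (Submodule.projectionOnto_apply_eq_zero_iff hc).2 hv,
      (Submodule.projectionOnto_apply_eq_zero_iff hc).2 h3, add_zero, add_zero]
  let π : ((Fin n → ι) → K) →ₗ[K] U :=
    { toFun := fun x => ⟨red r ((Submodule.projectionOnto (spn C U) W hc (ext C x) : spn C U) :
        (Fin n → ι) → C), red_mem (Submodule.projectionOnto (spn C U) W hc (ext C x)).2 r⟩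
      map_add' := fun x y => by
        apply Subtype.ext
        have h1 : ext C (x + y) = ext C x + ext C y := by
          funext i
          exact map_add _ _ _
        change red r _ = red r _ + red r _
        rw [h1, map_add, Submodule.coe_add, red_add]
      map_smul' := fun c x => by
        apply Subtype.ext
        have h1 : ext C (c • x) = algebraMap K C c • ext C x := by
          funext i
          exact map_mul _ _ _
        change red r _ = c • red r _
        rw [h1, map_smul, Submodule.coe_smul]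
        funext i
        change r (algebraMap K C c * _) = c * r _
        rw [← Algebra.smul_def, map_smul, smul_eq_mul] }
  have hπ : ∀ x : U, π x = x := by
    intro x
    apply Subtype.ext
    change red r _ = (x : (Fin n → ι) → K)
    rw [Submodule.projectionOnto_apply_left hc ⟨ext C (x : (Fin n → ι) → K), ext_mem_spn x.2⟩]
    exact red_ext r hr _
  refine ⟨LinearMap.ker π, ?_, LinearMap.isCompl_of_proj hπ⟩
  intro g x hx
  have h1 : red r ((Submodule.projectionOnto (spn C U) W hc (ext C x) : spn C U) :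
      (Fin n → ι) → C) = 0 := congrArg Subtype.val hx
  change π _ = 0
  apply Subtype.ext
  change red r ((Submodule.projectionOnto (spn C U) W hc (ext C (kpw n (ρ g) *ᵥ x)) : spn C U) :
      (Fin n → ι) → C) = 0
  rw [← map_kpw_mulVec, ← hpr g g.2, red_mulVec, h1, Matrix.mulVec_zero]

end Stable

end Pool.Agent.K6.H94.TG
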