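import Mathlib
import Pool.Agent.K6.H94.TG.Red

/-!
# Conjugation
-/

set_option autoImplicit false
set_option linter.unusedSectionVars false

namespace Pool.Agent.K6.H94.TG

open Matrix

variable {C : Type} [Field C] [CharZero C] {ι : Type} [Fintype ι] [DecidableEq ι] {A : Type}
  {P : A → ℤ → Matrix ι ι C} {w₀ w : ℕ}

lemma cochar_conj (g : (Matrix ι ι C)ˣ) (P : A → ℤ → Matrix ι ι C) (w₀ : ℕ) (a : A) (t : Cˣ) :
    cochar (conj g P a) w₀ t =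
      (g : Matrix ι ι C) * cochar (P a) w₀ t * ((g⁻¹ : (Matrix ι ι C)ˣ) : Matrix ι ι C) := by
  unfold cochar conj
  rw [Finset.mul_sum, Finset.sum_mul]
  refine Finset.sum_congr rfl fun k _ => ?_
  rw [Matrix.mul_smul, Matrix.smul_mul]

lemma kpw_inv_mul (n : ℕ) (g : (Matrix ι ι C)ˣ) :
    kpw n ((g⁻¹ : (Matrix ι ι C)ˣ) : Matrix ι ι C) * kpw n (g : Matrix ι ι C) = 1 := by
  rw [← kpw_mul, Units.inv_mul, kpw_one]

lemma kpw_mul_inv (n : ℕ) (g : (Matrix ι ι C)ˣ) :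
    kpw n (g : Matrix ι ι C) * kpw n ((g⁻¹ : (Matrix ι ι C)ˣ) : Matrix ι ι C) = 1 := by
  rw [← kpw_mul, Units.mul_inv, kpw_one]

lemma kpw_inv_cancel (n : ℕ) (g : (Matrix ι ι C)ˣ) (x : (Fin n → ι) → C) :
    kpw n ((g⁻¹ : (Matrix ι ι C)ˣ) : Matrix ι ι C) *ᵥ (kpw n (g : Matrix ι ι C) *ᵥ x) = x := by
  rw [Matrix.mulVec_mulVec, kpw_inv_mul, Matrix.one_mulVec]

lemma kpw_cancel (n : ℕ) (g : (Matrix ι ι C)ˣ) (x : (Fin n → ι) → C) :
    kpw n (g : Matrix ι ι C) *ᵥ (kpw n ((g⁻¹ : (Matrix ι ι C)ˣ) : Matrix ι ι C) *ᵥ x) = x := by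
  rw [Matrix.mulVec_mulVec, kpw_mul_inv, Matrix.one_mulVec]

/-- The action of a conjugate. -/
lemma kpw_conj (n : ℕ) (g : (Matrix ι ι C)ˣ) (h : Matrix ι ι C) (x : (Fin n → ι) → C) :
    kpw n ((g : Matrix ι ι C) * h * ((g⁻¹ : (Matrix ι ι C)ˣ) : Matrix ι ι C)) *ᵥ x =
      kpw n (g : Matrix ι ι C) *ᵥ (kpw n h *ᵥ
        (kpw n ((g⁻¹ : (Matrix ι ι C)ˣ) : Matrix ι ι C) *ᵥ x)) := by
  rw [kpw_mul, kpw_mul, Matrix.mulVec_mulVec, Matrix.mulVec_mulVec]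

lemma grading_conj {Q : ℤ → Matrix ι ι C} (hQ : IsGrading Q w₀) (g : (Matrix ι ι C)ˣ) :
    IsGrading (fun k => (g : Matrix ι ι C) * Q k * ((g⁻¹ : (Matrix ι ι C)ˣ) : Matrix ι ι C))
      w₀ := by
  refine ⟨?_, fun j hj k hk => ?_⟩
  · rw [← Finset.sum_mul, ← Finset.mul_sum, hQ.1, Matrix.mul_one, Units.mul_inv]
  · have h1 : (g : Matrix ι ι C) * Q j * ((g⁻¹ : (Matrix ι ι C)ˣ) : Matrix ι ι C) *
        ((g : Matrix ι ι C) * Q k * ((g⁻¹ : (Matrix ι ι C)ˣ) : Matrix ι ι C)) =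
        (g : Matrix ι ι C) * (Q j * Q k) * ((g⁻¹ : (Matrix ι ι C)ˣ) : Matrix ι ι C) := by
      simp only [Matrix.mul_assoc]
      rw [← Matrix.mul_assoc ((g⁻¹ : (Matrix ι ι C)ˣ) : Matrix ι ι C) (g : Matrix ι ι C),
        Units.inv_mul, Matrix.one_mul]
    rw [h1, hQ.2 j hj k hk]
    split_ifs
    · rfl
    · rw [Matrix.mul_zero, Matrix.zero_mul]

/-- The tensor power of an invertible matrix, as an equivalence. -/
noncomputable def kequiv (n : ℕ) (g : (Matrix ι ι C)ˣ) :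
    ((Fin n → ι) → C) ≃ₗ[C] ((Fin n → ι) → C) where
  toFun x := kpw n (g : Matrix ι ι C) *ᵥ x
  invFun x := kpw n ((g⁻¹ : (Matrix ι ι C)ˣ) : Matrix ι ι C) *ᵥ x
  map_add' x y := Matrix.mulVec_add _ _ _
  map_smul' c x := Matrix.mulVec_smul _ _ _
  left_inv x := kpw_inv_cancel n g x
  right_inv x := kpw_cancel n g x

lemma reductive_conj (hred : GeneratesReductive P w₀) (g : (Matrix ι ι C)ˣ) :
    GeneratesReductive (conj g P) w₀ := by
  intro n U hU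
  obtain ⟨W, hW, hc⟩ := hred n (U.comap (kequiv n g).toLinearMap) (fun a t x hx => by
    have h1 := hU a t _ hx
    rw [cochar_conj, kpw_conj] at h1
    change kpw n (g : Matrix ι ι C) *ᵥ (kpw n (cochar (P a) w₀ t) *ᵥ x) ∈ U
    have h2 : kpw n ((g⁻¹ : (Matrix ι ι C)ˣ) : Matrix ι ι C) *ᵥ ((kequiv n g).toLinearMap x) = x :=
      kpw_inv_cancel n g x
    rw [h2] at h1
    exact h1)
  refine ⟨W.map (kequiv n g).toLinearMap, ?_, ?_⟩
  · rintro a t _ ⟨x, hx, rfl⟩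
    refine ⟨kpw n (cochar (P a) w₀ t) *ᵥ x, hW a t x hx, ?_⟩
    rw [cochar_conj, kpw_conj]
    change kpw n (g : Matrix ι ι C) *ᵥ _ = kpw n (g : Matrix ι ι C) *ᵥ (kpw n (cochar (P a) w₀ t) *ᵥ
      (kpw n ((g⁻¹ : (Matrix ι ι C)ˣ) : Matrix ι ι C) *ᵥ (kpw n (g : Matrix ι ι C) *ᵥ x)))
    rw [kpw_inv_cancel]
  · have h1 : (U.comap (kequiv n g).toLinearMap).map (kequiv n g).toLinearMap = U :=
      Submodule.map_comap_eq_of_surjective (kequiv n g).surjective U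
    rw [← h1]
    exact (Submodule.orderIsoMapComap (kequiv n g)).isCompl_iff.1 hc

/-- The space of the entries of the tensor powers is stable under conjugation. -/
lemma Ep_conj (g : (Matrix ι ι C)ˣ) {N : ℕ} {q : MvPolynomial (ι × ι) C} (hq : q ∈ Ep C ι N) :
    ∃ q' ∈ Ep C ι N, ∀ h : Matrix ι ι C, MvPolynomial.eval (ent ((g : Matrix ι ι C) * h *
      ((g⁻¹ : (Matrix ι ι C)ˣ) : Matrix ι ι C))) q' = MvPolynomial.eval (ent h) q := by
  rw [Ep] at hq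
  induction hq using Submodule.span_induction with
  | mem q hq =>
    obtain ⟨m, hm, v, i, rfl⟩ := hq
    refine ⟨∑ j, kpw m ((g⁻¹ : (Matrix ι ι C)ˣ) : Matrix ι ι C) i j •
      mc m (kpw m (g : Matrix ι ι C) *ᵥ v) j, Submodule.sum_mem _ fun j _ =>
      Submodule.smul_mem _ _ (Submodule.subset_span ⟨m, hm, _, j, rfl⟩), fun h => ?_⟩
    rw [map_sum, eval_mc]
    have h1 : kpw m h *ᵥ v = kpw m ((g⁻¹ : (Matrix ι ι C)ˣ) : Matrix ι ι C) *ᵥ
        (kpw m ((g : Matrix ι ι C) * h * ((g⁻¹ : (Matrix ι ι C)ˣ) : Matrix ι ι C)) *ᵥ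
          (kpw m (g : Matrix ι ι C) *ᵥ v)) := by
      rw [kpw_conj, kpw_inv_cancel, kpw_inv_cancel]
    rw [h1]
    conv_rhs => rw [Matrix.mulVec, dotProduct]
    refine Finset.sum_congr rfl fun j _ => ?_
    rw [MvPolynomial.smul_eval, eval_mc]
  | zero => exact ⟨0, Submodule.zero_mem _, fun h => by rw [map_zero, map_zero]⟩
  | add p q _ _ hp hq =>
    obtain ⟨p', hp', hpe⟩ := hp
    obtain ⟨q', hq', hqe⟩ := hq
    exact ⟨p' + q', Submodule.add_mem _ hp' hq', fun h => by rw [map_add, map_add, hpe, hqe]⟩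
  | smul a q _ hq =>
    obtain ⟨q', hq', hqe⟩ := hq
    exact ⟨a • q', Submodule.smul_mem _ _ hq', fun h => by
      rw [MvPolynomial.smul_eval, MvPolynomial.smul_eval, hqe]⟩

/-- The elements of the monoid generated by the conjugates. -/
lemma Mon_conj (g : (Matrix ι ι C)ˣ) {h : Matrix ι ι C}
    (hh : h ∈ Mon fun a t => cochar (P a) w₀ t) :
    (g : Matrix ι ι C) * h * ((g⁻¹ : (Matrix ι ι C)ˣ) : Matrix ι ι C) ∈
      Mon fun a t => cochar (conj g P a) w₀ t := by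
  rw [Mon] at hh ⊢
  induction hh using Submonoid.closure_induction with
  | mem h hh =>
    obtain ⟨a, t, rfl⟩ := hh
    exact Submonoid.subset_closure ⟨a, t, (cochar_conj g P w₀ a t).symm⟩
  | one =>
    rw [Matrix.mul_one, Units.mul_inv]
    exact Submonoid.one_mem _
  | mul x y _ _ hx hy =>
    have h1 : (g : Matrix ι ι C) * (x * y) * ((g⁻¹ : (Matrix ι ι C)ˣ) : Matrix ι ι C) =
        ((g : Matrix ι ι C) * x * ((g⁻¹ : (Matrix ι ι C)ˣ) : Matrix ι ι C)) *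
        ((g : Matrix ι ι C) * y * ((g⁻¹ : (Matrix ι ι C)ˣ) : Matrix ι ι C)) := by
      simp only [Matrix.mul_assoc]
      rw [← Matrix.mul_assoc ((g⁻¹ : (Matrix ι ι C)ˣ) : Matrix ι ι C) (g : Matrix ι ι C),
        Units.inv_mul, Matrix.one_mul]
    rw [h1]
    exact Submonoid.mul_mem _ hx hy

/-- The elements of the monoid generated by the conjugates are the conjugates of the elements of the
monoid. -/
lemma exists_of_Mon_conj (g : (Matrix ι ι C)ˣ) {h : Matrix ι ι C}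
    (hh : h ∈ Mon fun a t => cochar (conj g P a) w₀ t) :
    ∃ h₀ ∈ Mon fun a t => cochar (P a) w₀ t,
      h = (g : Matrix ι ι C) * h₀ * ((g⁻¹ : (Matrix ι ι C)ˣ) : Matrix ι ι C) := by
  rw [Mon] at hh ⊢
  induction hh using Submonoid.closure_induction with
  | mem h hh =>
    obtain ⟨a, t, rfl⟩ := hh
    exact ⟨_, Submonoid.subset_closure ⟨a, t, rfl⟩, cochar_conj g P w₀ a t⟩
  | one => exact ⟨1, Submonoid.one_mem _, by rw [Matrix.mul_one, Units.mul_inv]⟩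
  | mul x y _ _ hx hy =>
    obtain ⟨x₀, hx₀, rfl⟩ := hx
    obtain ⟨y₀, hy₀, rfl⟩ := hy
    refine ⟨x₀ * y₀, Submonoid.mul_mem _ hx₀ hy₀, ?_⟩
    simp only [Matrix.mul_assoc]
    rw [← Matrix.mul_assoc ((g⁻¹ : (Matrix ι ι C)ˣ) : Matrix ι ι C) (g : Matrix ι ι C),
      Units.inv_mul, Matrix.one_mul]

lemma Lv_conj (g : (Matrix ι ι C)ˣ) {n : ℕ} {v : (Fin n → ι) → C}
    (hv : v ∈ Lv (fun a t => cochar (conj g P a) w₀ t) w n) :
    kpw n ((g⁻¹ : (Matrix ι ι C)ˣ) : Matrix ι ι C) *ᵥ v ∈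
      Lv (fun a t => cochar (P a) w₀ t) w n := by
  intro h hh a
  obtain ⟨c, hc⟩ := hv _ (Mon_conj g hh) a
  refine ⟨fun k => kpw n ((g⁻¹ : (Matrix ι ι C)ˣ) : Matrix ι ι C) *ᵥ c k, fun t => ?_⟩
  have h1 := congrArg (fun x => kpw n ((g⁻¹ : (Matrix ι ι C)ˣ) : Matrix ι ι C) *ᵥ x) (hc t)
  simp only [cochar_conj, kpw_conj, kpw_inv_cancel] at h1
  rw [h1]
  rw [Matrix.mulVec_sum]
  exact Finset.sum_congr rfl fun k _ => Matrix.mulVec_smul _ _ _

/-- The bound for the matrix coefficients of bounded level is invariant under conjugation. -/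
lemma bound_conj {N : ℕ} (hN : ∀ n, ∀ v ∈ Lv (fun a t => cochar (P a) w₀ t) w n, ∀ i,
      ∃ q ∈ Ep C ι N, ∀ h ∈ Mon fun a t => cochar (P a) w₀ t,
        MvPolynomial.eval (ent h) (mc n v i) = MvPolynomial.eval (ent h) q)
    (g : (Matrix ι ι C)ˣ) :
    ∀ n, ∀ v ∈ Lv (fun a t => cochar (conj g P a) w₀ t) w n, ∀ i,
      ∃ q ∈ Ep C ι N, ∀ h ∈ Mon fun a t => cochar (conj g P a) w₀ t,
        MvPolynomial.eval (ent h) (mc n v i) = MvPolynomial.eval (ent h) q := by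
  intro n v hv i
  choose q hq hqe using hN n _ (Lv_conj g hv)
  choose q' hq' hqe' using fun j => Ep_conj g (hq j)
  refine ⟨∑ j, kpw n (g : Matrix ι ι C) i j • q' j, Submodule.sum_mem _ fun j _ =>
    Submodule.smul_mem _ _ (hq' j), fun h hh => ?_⟩
  obtain ⟨h₀, hh₀, rfl⟩ := exists_of_Mon_conj g hh
  rw [eval_mc, kpw_conj, Matrix.mulVec, dotProduct, map_sum]
  refine Finset.sum_congr rfl fun j _ => ?_
  rw [MvPolynomial.smul_eval, hqe' j, ← hqe j h₀ hh₀, eval_mc]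

end Pool.Agent.K6.H94.TG
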