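import Mathlib
import Pool.Agent.K6.H94.TG.Red

/-!
# The decomposition of a Tate class
-/

set_option autoImplicit false
set_option linter.unusedSectionVars false

namespace Pool.Agent.K6.H94.TG

open Matrix

variable {K C : Type} [Field K] [CharZero K] [Field C] [CharZero C] [Algebra K C] {Γ : Type}
  [Group Γ] {ι : Type} [Fintype ι] [DecidableEq ι] {ρ : Γ →* Matrix ι ι K}

lemma ext_span_mem {μ : Type} [Fintype μ] [DecidableEq μ] {n : ℕ} {y : (Fin n → ι) → μ → K} :
    ∀ x ∈ Submodule.span K (Set.range fun m => slc y m),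
      ext C x ∈ Submodule.span C (Set.range fun m => ext C (slc y m)) := by
  intro x hx
  induction hx using Submodule.span_induction with
  | mem x hx =>
    obtain ⟨m, rfl⟩ := hx
    exact Submodule.subset_span ⟨m, rfl⟩
  | zero =>
    have : ext C (0 : (Fin n → ι) → K) = 0 := by
      funext i
      exact map_zero _
    rw [this]
    exact Submodule.zero_mem _
  | add u v _ _ hu hv =>
    have : ext C (u + v) = ext C u + ext C v := by
      funext i
      exact map_add _ _ _
    rw [this]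
    exact Submodule.add_mem _ hu hv
  | smul a v _ hv =>
    have : ext C (a • v) = algebraMap K C a • ext C v := by
      funext i
      exact map_mul _ _ _
    rw [this]
    exact Submodule.smul_mem _ _ hv

/-- A class fixed by a group whose slices have matrix coefficients coming from the tensors with at most
`N` factors is a sum of images, under correspondences fixed by the group, of classes with at most `N`
factors fixed by the group. -/
theorem core_dec (hSEM : S_SEM) {μ : Type} [Fintype μ] [DecidableEq μ] {τ : Γ →* Matrix μ μ K}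
    {p : ι → Bool} {B : Matrix ι ι K}
    (hp : IsParity p ρ) (hB : ∀ γ, (ρ γ)ᵀ * B * ρ γ = B) (hBu : IsUnit B) (Δ₁ : Subgroup Γ)
    (hCR : ∀ n, CR (ρ.comp Δ₁.subtype) n) {N₂ : ℕ}
    {Cl : ∀ n, Submodule K ((Fin n → ι) → K)} {S : ∀ n, Submodule K ((Fin n → ι) → μ → K)}
    (hS : ∀ n m, ∀ a ∈ Cl (n + m), ∀ y ∈ S m, corr p B a y ∈ S n)
    (hCl : ∀ n x, (∀ δ ∈ Δ₁, kpw n (ρ δ) *ᵥ x = x) → x ∈ Cl n)
    (hSm : ∀ m ≤ N₂, ∀ y, (∀ δ ∈ Δ₁, act (ρ δ) (τ δ) y = y) → y ∈ S m)
    (n : ℕ) (y : (Fin n → ι) → μ → K) (hy : ∀ δ ∈ Δ₁, act (ρ δ) (τ δ) y = y)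
    (hco : ∀ x ∈ Submodule.span K (Set.range fun m => slc y m), ∀ i, ∃ q ∈ Ep C ι N₂, ∀ δ ∈ Δ₁,
      MvPolynomial.eval (ent ((ρ δ).map (algebraMap K C))) (mc n (ext C x) i) =
        MvPolynomial.eval (ent ((ρ δ).map (algebraMap K C))) q) : y ∈ S n := by
  let U : Submodule K ((Fin n → ι) → K) := Submodule.span K (Set.range fun m => slc y m)
  have hU : ∀ g ∈ Δ₁, ∀ x ∈ U, kpw n (ρ g) *ᵥ x ∈ U := by
    intro g hg x hx
    have h2 : U ≤ U.comap (kpw n (ρ g)).mulVecLin := by
      rw [Submodule.span_le]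
      rintro _ ⟨m, rfl⟩
      change kpw n (ρ g) *ᵥ slc y m ∈ U
      rw [slc_stable hy hg]
      exact Submodule.sum_mem _ fun m' _ => Submodule.smul_mem _ _
        (Submodule.subset_span ⟨m', rfl⟩)
    exact h2 hx
  -- the identity factors through the tensors with at most `N₂` factors
  obtain ⟨q, j, At, ψ, hAt, hψ, hid⟩ := hSEM K Δ₁ (Fin (N₂ + 1)) (fun j => (Fin j → ι) → K)
    (fun j => rep ρ Δ₁ j) (fun j V hV => by
      obtain ⟨W, hW, hc⟩ := hCR j V (fun g x hx => hV g x hx)
      exact ⟨W, fun g x hx => hW g x hx, hc⟩) U (srep ρ Δ₁ n U hU) (fun c hc => by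
      ext x : 2
      have h1 := comb_zero (hco x x.2) c (fun j hj => by
        have h2 := hc ⟨j, Nat.lt_succ_of_le hj⟩
        apply Matrix.toLin'.injective
        rw [map_zero, ← h2, Finsupp.sum, Finsupp.sum, map_sum]
        refine Finset.sum_congr rfl fun g _ => ?_
        rw [map_smul]
        rfl)
      refine Eq.trans ?_ h1
      rw [Finsupp.sum, Finsupp.sum, LinearMap.sum_apply, Submodule.coe_sum]
      rfl)
  have hkey : ∀ i, ∃ a ∈ Cl (n + (j i : ℕ)), ∃ z ∈ S (j i : ℕ), ∀ I l,
      corr p B a z I l = (At i (ψ i ⟨slc y l, Submodule.subset_span ⟨l, rfl⟩⟩) :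
        (Fin n → ι) → K) I := by
    intro i
    let M : Matrix (Fin n → ι) (Fin (j i : ℕ) → ι) K :=
      Matrix.of fun I J => (At i (Pi.single J 1) : (Fin n → ι) → K) I
    have hMv : ∀ x, M *ᵥ x = (At i x : (Fin n → ι) → K) := by
      intro x
      funext I
      have h1 : x = ∑ J, x J • Pi.single (M := fun _ => K) J (1 : K) := by
        funext J
        rw [Finset.sum_apply, Finset.sum_eq_single J]
        · simp
        · intro b _ hb
          rw [Pi.smul_apply, Pi.single_eq_of_ne (Ne.symm hb), smul_zero]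
        · intro h
          exact absurd (Finset.mem_univ J) h
      conv_rhs => rw [h1, map_sum, Submodule.coe_sum, Finset.sum_apply]
      rw [Matrix.mulVec, dotProduct]
      refine Finset.sum_congr rfl fun J _ => ?_
      rw [map_smul, Submodule.coe_smul, Pi.smul_apply, smul_eq_mul, mul_comm]
      rfl
    have hMg : ∀ g ∈ Δ₁, M * kpw (j i : ℕ) (ρ g) = kpw n (ρ g) * M := by
      intro g hg
      apply Matrix.toLin'.injective
      apply LinearMap.ext
      intro x
      rw [Matrix.toLin'_apply, Matrix.toLin'_apply, ← Matrix.mulVec_mulVec, ← Matrix.mulVec_mulVec,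
        hMv, hMv]
      have h2 := congrArg (fun u : U => (u : (Fin n → ι) → K)) (hAt i ⟨g, hg⟩ x)
      exact h2
    have hMs : ∀ g ∈ Δ₁, M * dsg K p (j i : ℕ) * kpw (j i : ℕ) (ρ g) =
        kpw n (ρ g) * (M * dsg K p (j i : ℕ)) := by
      intro g hg
      rw [Matrix.mul_assoc, ← kpw_ksign (hp g), ← Matrix.mul_assoc, hMg g hg, Matrix.mul_assoc]
    refine ⟨tens B (M * dsg K p (j i : ℕ)),
      hCl _ _ fun δ hδ => tens_fixed (inv_form hB hBu δ) (hMs δ hδ),
      fun J l => ψ i ⟨slc y l, Submodule.subset_span ⟨l, rfl⟩⟩ J, ?_, ?_⟩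
    · refine hSm _ (Nat.le_of_lt_succ (j i).2) _ fun δ hδ => ?_
      funext J m
      have h3 : (∑ m', τ δ m m' • (kpw (j i : ℕ) (ρ δ) *ᵥ
          ψ i ⟨slc y m', Submodule.subset_span ⟨m', rfl⟩⟩)) =
          ψ i ⟨slc y m, Submodule.subset_span ⟨m, rfl⟩⟩ := by
        have h4 : ∀ u : U, kpw (j i : ℕ) (ρ δ) *ᵥ ψ i u = ψ i (srep ρ Δ₁ n U hU ⟨δ, hδ⟩ u) :=
          fun u => (hψ i ⟨δ, hδ⟩ u).symm
        simp only [h4, ← map_smul]
        rw [← map_sum]
        congr 1
        apply Subtype.ext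
        rw [Submodule.coe_sum]
        refine Eq.trans (Finset.sum_congr rfl fun m' _ => ?_) (slc_act (hy δ hδ) m)
        rw [map_smul]
        rfl
      change act (ρ δ) (τ δ) _ J m = ψ i ⟨slc y m, Submodule.subset_span ⟨m, rfl⟩⟩ J
      rw [← h3, act, Finset.sum_comm, Finset.sum_apply]
      refine Finset.sum_congr rfl fun m' _ => ?_
      rw [Pi.smul_apply, Matrix.mulVec, dotProduct, smul_eq_mul, Finset.mul_sum]
      refine Finset.sum_congr rfl fun J' _ => ?_
      ring
    · intro I l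
      rw [corr_tens hBu, hMv]
  choose a ha z hz haz using hkey
  have hsum : y = ∑ i, corr p B (a i) (z i) := by
    funext I l
    rw [Finset.sum_apply, Finset.sum_apply]
    simp only [haz]
    have h1 := congrArg (fun u : U => (u : (Fin n → ι) → K) I)
      (hid ⟨slc y l, Submodule.subset_span ⟨l, rfl⟩⟩)
    simp only [Submodule.coe_sum, Finset.sum_apply] at h1
    exact h1.symm
  rw [hsum]
  exact Submodule.sum_mem _ fun i _ => hS n (j i) (a i) (ha i) (z i) (hz i)

end Pool.Agent.K6.H94.TG
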