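import Mathlib
import Pool.Agent.K6.H94.TG.Defs2

/-!
# Even Tate classes: definitions
-/

set_option autoImplicit false

namespace Pool.Agent.K6.H94.TG

open Matrix

/-- The operator of the parity: it is `-1` on the odd elements of the basis and `1` on the even ones. -/
def sgnop (K : Type) [Field K] {ι : Type} [DecidableEq ι] (p : ι → Bool) : Matrix ι ι K :=
  Matrix.diagonal fun i => if p i then -1 else 1

/-- The matrix preserves the parity `p`: its entries between elements of different parity are zero. -/
def PreservesParity {R : Type} [Zero R] {ι : Type} (p : ι → Bool) (g : Matrix ι ι R) : Prop :=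
  ∀ i j, p i ≠ p j → g i j = 0

variable {K : Type} [Field K] {Γ : Type} [Group Γ] {ι μ : Type} [Fintype ι] [DecidableEq ι]
  [Fintype μ] [DecidableEq μ]

/-- Tate classes in the part of even degree of `V^{⊗ n}`. -/
def IsEvenTate (p : ι → Bool) (ρ : Γ →* Matrix ι ι K) (n : ℕ) (x : (Fin n → ι) → K) : Prop :=
  IsTate ρ n x ∧ kpw n (sgnop K p) *ᵥ x = x

/-- Tate classes in the part of even degree of `V^{⊗ n} ⊗ M`; the parity on `M` is `q`. -/
def IsEvenTateM (p : ι → Bool) (q : μ → Bool) (ρ : Γ →* Matrix ι ι K) (τ : Γ →* Matrix μ μ K)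
    (n : ℕ) (y : (Fin n → ι) → μ → K) : Prop :=
  IsTateM ρ τ n y ∧ act (sgnop K p) (sgnop K q) y = y

end Pool.Agent.K6.H94.TG
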