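import Mathlib
import Pool.Agent.K6.H94.TG.Stm

/-!
# Generic points of finite length of the monoid generated by families of matrices
-/

set_option autoImplicit false

namespace Pool.Agent.K6.H94.TG

open MvPolynomial

section

variable {C : Type} [Field C] [CharZero C]

/-- Functions of invertible parameters which are Laurent polynomials. -/
def Lau {r : ℕ} (u : (Fin r → Cˣ) → C) : Prop :=
  ∃ (D : ℕ) (F : MvPolynomial (Fin r) C),
    ∀ t : Fin r → Cˣ, eval (fun i => (t i : C)) F = (∏ i, (t i : C)) ^ D * u t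

theorem Lau.const {r : ℕ} (c : C) : Lau (fun _ : Fin r → Cˣ => c) :=
  ⟨0, MvPolynomial.C c, fun t => by rw [eval_C, pow_zero, one_mul]⟩

theorem Lau.add {r : ℕ} {u v : (Fin r → Cˣ) → C} (hu : Lau u) (hv : Lau v) :
    Lau (fun t => u t + v t) := by
  obtain ⟨D, F, hF⟩ := hu
  obtain ⟨E, G, hG⟩ := hv
  refine ⟨D + E, F * (∏ i, X i) ^ E + G * (∏ i, X i) ^ D, fun t => ?_⟩
  simp only [map_add, map_mul, map_pow, map_prod, eval_X, hF, hG]
  ring

theorem Lau.mul {r : ℕ} {u v : (Fin r → Cˣ) → C} (hu : Lau u) (hv : Lau v) :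
    Lau (fun t => u t * v t) := by
  obtain ⟨D, F, hF⟩ := hu
  obtain ⟨E, G, hG⟩ := hv
  refine ⟨D + E, F * G, fun t => ?_⟩
  simp only [map_mul, hF, hG]
  ring

theorem Lau.sum {r : ℕ} {β : Type} (S : Finset β) (u : β → (Fin r → Cˣ) → C)
    (hu : ∀ b ∈ S, Lau (u b)) : Lau (fun t => ∑ b ∈ S, u b t) := by
  classical
  induction S using Finset.induction_on with
  | empty =>
    simp only [Finset.sum_empty]
    exact Lau.const 0
  | insert a S ha ih =>
    simp only [Finset.sum_insert ha]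
    exact (hu a (Finset.mem_insert_self a S)).add
      (ih fun b hb => hu b (Finset.mem_insert_of_mem hb))

theorem Lau.inv {r : ℕ} (i : Fin r) : Lau (fun t : Fin r → Cˣ => (((t i)⁻¹ : Cˣ) : C)) := by
  classical
  refine ⟨1, ∏ j ∈ Finset.univ.erase i, X j, fun t => ?_⟩
  simp only [map_prod, eval_X, pow_one]
  rw [← Finset.mul_prod_erase Finset.univ (fun j => (t j : C)) (Finset.mem_univ i), mul_comm (t i : C),
    mul_assoc, Units.mul_inv, mul_one]

theorem Lau.id {r : ℕ} (i : Fin r) : Lau (fun t : Fin r → Cˣ => (t i : C)) :=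
  ⟨0, X i, fun t => by rw [eval_X, pow_zero, one_mul]⟩

theorem Lau.pow {r : ℕ} {u : (Fin r → Cˣ) → C} (hu : Lau u) (n : ℕ) :
    Lau (fun t => u t ^ n) := by
  induction n with
  | zero =>
    simp only [pow_zero]
    exact Lau.const 1
  | succ n ih =>
    simp only [pow_succ]
    exact ih.mul hu

theorem Lau.zpow {r : ℕ} (i : Fin r) (k : ℤ) :
    Lau (fun t : Fin r → Cˣ => (((t i) ^ k : Cˣ) : C)) := by
  obtain ⟨n, rfl | rfl⟩ := k.eq_nat_or_neg
  · simp only [zpow_natCast, Units.val_pow_eq_pow_val]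
    exact (Lau.id i).pow n
  · have h : ∀ t : Fin r → Cˣ, (((t i) ^ (-(n : ℤ)) : Cˣ) : C) = (((t i)⁻¹ : Cˣ) : C) ^ n := by
      intro t
      rw [zpow_neg, zpow_natCast, ← inv_pow, Units.val_pow_eq_pow_val]
    simp only [h]
    exact (Lau.inv i).pow n

/-- Two Laurent polynomials without common zeros outside. -/
theorem Lau.eq_zero {r : ℕ} {u v : (Fin r → Cˣ) → C} (hu : Lau u) (hv : Lau v)
    (h : ∀ t, u t * v t = 0) : (∀ t, u t = 0) ∨ ∀ t, v t = 0 := by
  obtain ⟨D, F, hF⟩ := hu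
  obtain ⟨E, G, hG⟩ := hv
  have h0 : F * G * ∏ i, X i = 0 := by
    apply MvPolynomial.funext
    intro x
    rw [map_zero, map_mul, map_mul, map_prod]
    simp only [eval_X]
    by_cases hx : ∃ i, x i = 0
    · obtain ⟨i, hi⟩ := hx
      rw [Finset.prod_eq_zero (Finset.mem_univ i) hi, mul_zero]
    · push Not at hx
      have h1 := hF fun i => Units.mk0 (x i) (hx i)
      have h2 := hG fun i => Units.mk0 (x i) (hx i)
      simp only [Units.val_mk0] at h1 h2
      have h3 := h fun i => Units.mk0 (x i) (hx i)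
      have h4 : eval x F * eval x G = 0 := by
        have h5 : eval x F = _ := h1
        have h6 : eval x G = _ := h2
        rw [h5, h6]
        linear_combination (∏ i, x i) ^ D * (∏ i, x i) ^ E * h3
      rw [h4, zero_mul]
  have hne : ∀ t : Fin r → Cˣ, (∏ i, (t i : C)) ≠ 0 := fun t =>
    Finset.prod_ne_zero_iff.2 fun i _ => (t i).ne_zero
  have hX : (∏ i : Fin r, (X i : MvPolynomial (Fin r) C)) ≠ 0 :=
    Finset.prod_ne_zero_iff.2 fun i _ => X_ne_zero i
  rcases mul_eq_zero.1 h0 with h1 | h1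
  · rcases mul_eq_zero.1 h1 with h2 | h2
    · left
      intro t
      have h3 := hF t
      rw [h2, map_zero] at h3
      exact (mul_eq_zero.1 h3.symm).resolve_left (pow_ne_zero _ (hne t))
    · right
      intro t
      have h3 := hG t
      rw [h2, map_zero] at h3
      exact (mul_eq_zero.1 h3.symm).resolve_left (pow_ne_zero _ (hne t))
  · exact absurd h1 hX

variable {ι : Type} [Fintype ι] [DecidableEq ι] {A : Type}

/-- The products along a sequence. -/
def yv (lam : A → Cˣ → Matrix ι ι C) {r : ℕ} (s : Fin r → A) (t : Fin r → Cˣ) : Matrix ι ι C :=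
  (List.ofFn fun i => lam (s i) (t i)).prod

theorem yv_cons (lam : A → Cˣ → Matrix ι ι C) {r : ℕ} (a : A) (s : Fin r → A) (z : Cˣ)
    (t : Fin r → Cˣ) :
    yv lam (Fin.cons a s : Fin (r + 1) → A) (Fin.cons z t) = lam a z * yv lam s t := by
  unfold yv
  rw [List.ofFn_succ, List.prod_cons]
  simp only [Fin.cons_zero, Fin.cons_succ]

theorem yv_one {lam : A → Cˣ → Matrix ι ι C} (h1 : ∀ a, lam a 1 = 1) {r : ℕ} (s : Fin r → A) :
    yv lam s 1 = 1 := by
  unfold yv
  apply List.prod_eq_one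
  intro x hx
  rw [List.mem_ofFn] at hx
  obtain ⟨i, rfl⟩ := hx
  exact h1 _

/-- The ideal of the closure of the products along a sequence. -/
def Ps (lam : A → Cˣ → Matrix ι ι C) {r : ℕ} (s : Fin r → A) : Ideal (MvPolynomial (ι × ι) C) where
  carrier := {f | ∀ t, eval (ent (yv lam s t)) f = 0}
  add_mem' {f g} hf hg t := by rw [map_add, hf t, hg t, add_zero]
  zero_mem' t := map_zero _
  smul_mem' c f hf t := by rw [smul_eq_mul, map_mul, hf t, mul_zero]

theorem mem_Ps {lam : A → Cˣ → Matrix ι ι C} {r : ℕ} {s : Fin r → A}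
    {f : MvPolynomial (ι × ι) C} : f ∈ Ps lam s ↔ ∀ t, eval (ent (yv lam s t)) f = 0 := Iff.rfl

theorem lau_lam {w₀ : ℕ} {P : A → ℤ → Matrix ι ι C} {lam : A → Cˣ → Matrix ι ι C}
    (hP : ∀ a t, lam a t = ∑ k ∈ Finset.Icc (-w₀ : ℤ) w₀, ((t ^ k : Cˣ) : C) • P a k) {r : ℕ}
    (s : Fin r → A) (i : Fin r) (x y : ι) : Lau (fun t : Fin r → Cˣ => lam (s i) (t i) x y) := by
  simp only [hP, Matrix.sum_apply, Matrix.smul_apply, smul_eq_mul]
  exact Lau.sum _ _ fun k _ => (Lau.zpow i k).mul (Lau.const _)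

theorem lau_yv {w₀ : ℕ} {P : A → ℤ → Matrix ι ι C} {lam : A → Cˣ → Matrix ι ι C}
    (hP : ∀ a t, lam a t = ∑ k ∈ Finset.Icc (-w₀ : ℤ) w₀, ((t ^ k : Cˣ) : C) • P a k) {r : ℕ}
    (s : Fin r → A) (x y : ι) : Lau (fun t : Fin r → Cˣ => yv lam s t x y) := by
  unfold yv
  simp only [List.ofFn_eq_map]
  suffices h : ∀ (l : List (Fin r)) (x y : ι),
      Lau (fun t : Fin r → Cˣ => (l.map fun i => lam (s i) (t i)).prod x y) from h _ x y
  intro l
  induction l with
  | nil =>
    intro x y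
    simp only [List.map_nil, List.prod_nil]
    exact Lau.const _
  | cons i l ih =>
    intro x y
    simp only [List.map_cons, List.prod_cons, Matrix.mul_apply]
    exact Lau.sum _ _ fun k _ => (lau_lam hP s i x k).mul (ih k y)

theorem lau_eval {w₀ : ℕ} {P : A → ℤ → Matrix ι ι C} {lam : A → Cˣ → Matrix ι ι C}
    (hP : ∀ a t, lam a t = ∑ k ∈ Finset.Icc (-w₀ : ℤ) w₀, ((t ^ k : Cˣ) : C) • P a k) {r : ℕ}
    (s : Fin r → A) (f : MvPolynomial (ι × ι) C) :
    Lau (fun t : Fin r → Cˣ => eval (ent (yv lam s t)) f) := by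
  induction f using MvPolynomial.induction_on with
  | C a =>
    simp only [eval_C]
    exact Lau.const _
  | add f g hf hg =>
    simp only [map_add]
    exact hf.add hg
  | mul_X f i hf =>
    simp only [map_mul, eval_X]
    exact hf.mul (lau_yv hP s i.1 i.2)

theorem prime_Ps {w₀ : ℕ} {P : A → ℤ → Matrix ι ι C} {lam : A → Cˣ → Matrix ι ι C}
    (hP : ∀ a t, lam a t = ∑ k ∈ Finset.Icc (-w₀ : ℤ) w₀, ((t ^ k : Cˣ) : C) • P a k) {r : ℕ}
    (s : Fin r → A) : (Ps lam s).IsPrime := by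
  rw [Ideal.isPrime_iff]
  constructor
  · rw [Ideal.ne_top_iff_one]
    intro h
    have h1 := (mem_Ps.1 h) 1
    rw [map_one] at h1
    exact one_ne_zero h1
  · intro f g hfg
    have h1 : ∀ t : Fin r → Cˣ, eval (ent (yv lam s t)) f * eval (ent (yv lam s t)) g = 0 := by
      intro t
      rw [← map_mul]
      exact mem_Ps.1 hfg t
    exact Lau.eq_zero (lau_eval hP s f) (lau_eval hP s g) h1

end

theorem gen : S_GEN := by
  intro C _ _ ι _ _ A w₀ P lam hP h1
  classical
  -- a sequence whose ideal has smallest height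
  let φ : (Σ r : ℕ, Fin r → A) → ℕ∞ := fun x => (Ps lam x.2).height
  haveI : Nonempty (Σ r : ℕ, Fin r → A) := ⟨⟨0, Fin.elim0⟩⟩
  obtain ⟨⟨r, s⟩, hs⟩ : ∃ x : (Σ r : ℕ, Fin r → A), ∀ y, φ x ≤ φ y :=
    ⟨Function.argmin φ, fun y => Function.argmin_le φ y⟩
  -- prepending does not change the ideal
  have hcons : ∀ a, Ps lam (Fin.cons a s : Fin (r + 1) → A) = Ps lam s := by
    intro a
    haveI := prime_Ps hP (Fin.cons a s : Fin (r + 1) → A)
    have hle : Ps lam (Fin.cons a s : Fin (r + 1) → A) ≤ Ps lam s := by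
      intro f hf t
      have h2 := (mem_Ps.1 hf) (Fin.cons 1 t)
      rwa [yv_cons, h1, one_mul] at h2
    exact Ideal.eq_of_le_of_height_le _ hle (hs ⟨r + 1, Fin.cons a s⟩)
  -- translation of polynomials
  have htr : ∀ (g : Matrix ι ι C) (f : MvPolynomial (ι × ι) C), ∃ f' : MvPolynomial (ι × ι) C,
      ∀ h : Matrix ι ι C, eval (ent h) f' = eval (ent (g * h)) f := by
    intro g f
    refine ⟨MvPolynomial.bind₁ (fun p : ι × ι => ∑ k, MvPolynomial.C (g p.1 k) * X (k, p.2)) f,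
      fun h => ?_⟩
    rw [← MvPolynomial.coe_aeval_eq_eval, RingHom.coe_coe, MvPolynomial.aeval_bind₁,
      ← MvPolynomial.coe_aeval_eq_eval, RingHom.coe_coe]
    congr 1
    congr 1
    funext p
    rw [map_sum]
    simp only [map_mul, aeval_X, aeval_C, Algebra.algebraMap_self, RingHom.id_apply]
    rfl
  refine ⟨r, s, fun f hf h hh => ?_⟩
  have hf' : f ∈ Ps lam s := hf
  clear hf
  induction hh using Submonoid.closure_induction_left generalizing f with
  | one =>
    have h2 := mem_Ps.1 hf' 1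
    rwa [yv_one h1] at h2
  | mul_left x hx y hy ih =>
    obtain ⟨a, z, rfl⟩ := hx
    obtain ⟨f', hf2⟩ := htr (lam a z) f
    rw [← hf2]
    apply ih
    rw [← hcons a] at hf'
    rw [mem_Ps]
    intro t
    rw [hf2, ← yv_cons]
    exact mem_Ps.1 hf' (Fin.cons z t)

end Pool.Agent.K6.H94.TG
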