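import Mathlib
import Pool.Agent.K6.H94.TG.Stm

/-!
# Piece HIL: invariant tensors are generated in bounded degree (Weyl, Hilbert)
-/

set_option autoImplicit false

namespace Pool.Agent.K6.H94.TG

namespace Hil

open Matrix MvPolynomial Finset

section Mon

variable {κ : Type} [DecidableEq κ]

/-- The exponent of the monomial `∏ a, X (Z a)`. -/
noncomputable def mon {n : ℕ} (Z : Fin n → κ) : κ →₀ ℕ := ∑ a, Finsupp.single (Z a) 1

theorem mon_apply {n : ℕ} (Z : Fin n → κ) (k : κ) :
    mon Z k = Fintype.card {a // Z a = k} := by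
  simp [mon, Finsupp.finsetSum_apply, Finsupp.single_apply, Fintype.card_subtype]

theorem mon_comp {n : ℕ} (Z : Fin n → κ) (σ : Equiv.Perm (Fin n)) : mon (Z ∘ σ) = mon Z := by
  unfold mon
  exact Equiv.sum_comp σ (fun a => Finsupp.single (Z a) 1)

theorem exists_perm {n : ℕ} {Z Z' : Fin n → κ} (h : mon Z' = mon Z) :
    ∃ σ : Equiv.Perm (Fin n), Z' = Z ∘ σ := by
  have hc : ∀ k, Nonempty ({a // Z' a = k} ≃ {a // Z a = k}) := fun k =>
    Fintype.card_eq.1 (by rw [← mon_apply, ← mon_apply, h])
  let σ : Equiv.Perm (Fin n) := (Equiv.sigmaFiberEquiv Z').symm.trans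
    ((Equiv.sigmaCongrRight fun k => (hc k).some).trans (Equiv.sigmaFiberEquiv Z))
  refine ⟨σ, funext fun a => ?_⟩
  exact (((hc (Z' a)).some ⟨a, rfl⟩).2).symm

theorem card_eq {n : ℕ} (Z Z' : Fin n → κ) :
    (univ.filter fun σ : Equiv.Perm (Fin n) => Z ∘ σ = Z').card =
      if mon Z' = mon Z then
        (univ.filter fun σ : Equiv.Perm (Fin n) => Z ∘ σ = Z).card else 0 := by
  split_ifs with h
  · obtain ⟨τ, rfl⟩ := exists_perm h
    refine Finset.card_bij (fun σ _ => σ * τ⁻¹) ?_ ?_ ?_
    · intro σ hσ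
      rw [mem_filter] at hσ ⊢
      refine ⟨mem_univ _, ?_⟩
      funext a
      have := congrFun hσ.2 (τ⁻¹ a)
      simpa using this
    · intro σ _ σ' _ h
      exact mul_right_cancel h
    · intro σ hσ
      rw [mem_filter] at hσ
      refine ⟨σ * τ, ?_, by simp⟩
      rw [mem_filter]
      refine ⟨mem_univ _, ?_⟩
      funext a
      have := congrFun hσ.2 (τ a)
      simpa using this
  · rw [Finset.card_eq_zero, Finset.filter_eq_empty_iff]
    intro σ _ hσ
    exact h (by rw [← hσ, mon_comp])

theorem mon_append {m n : ℕ} (Z : Fin m → κ) (Z' : Fin n → κ) :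
    mon (Fin.append Z Z') = mon Z + mon Z' := by
  simp [mon, Fin.sum_univ_add]

theorem degree_mon {n : ℕ} (Z : Fin n → κ) : (mon Z).degree = n := by
  simp [mon, map_sum]

theorem exists_mon (u : κ →₀ ℕ) : ∃ (d : ℕ) (Z : Fin d → κ), mon Z = u := by
  induction u using Finsupp.induction_linear with
  | zero => exact ⟨0, Fin.elim0, by simp [mon]⟩
  | add f g hf hg =>
    obtain ⟨d, Z, rfl⟩ := hf
    obtain ⟨d', Z', rfl⟩ := hg
    exact ⟨d + d', Fin.append Z Z', mon_append _ _⟩
  | single a n => exact ⟨n, fun _ => a, by simp [mon, Finsupp.smul_single]⟩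

variable [Fintype κ] {K : Type} [Field K]

/-- The polynomial of a tensor. -/
noncomputable def Phi {n : ℕ} (z : (Fin n → κ) → K) : MvPolynomial κ K :=
  ∑ Z, monomial (mon Z) (z Z)

/-- The symmetric tensor of a polynomial (with a factor `n!`). -/
noncomputable def Theta (n : ℕ) (F : MvPolynomial κ K) : (Fin n → κ) → K := fun Z =>
  F.coeff (mon Z) * ((univ.filter fun σ : Equiv.Perm (Fin n) => Z ∘ σ = Z).card : K)

theorem Theta_add (n : ℕ) (F F' : MvPolynomial κ K) (Z : Fin n → κ) :
    Theta n (F + F') Z = Theta n F Z + Theta n F' Z := by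
  simp [Theta, add_mul]

theorem Theta_Phi {n : ℕ} (z : (Fin n → κ) → K) (Z : Fin n → κ) :
    Theta n (Phi z) Z = ∑ σ : Equiv.Perm (Fin n), z (Z ∘ σ) := by
  unfold Theta Phi
  rw [coeff_sum, Finset.sum_mul]
  have h1 : ∀ Z', coeff (mon Z) (monomial (mon Z') (z Z')) *
      ((univ.filter fun σ : Equiv.Perm (Fin n) => Z ∘ σ = Z).card : K) =
        ∑ σ : Equiv.Perm (Fin n), if Z ∘ σ = Z' then z Z' else 0 := by
    intro Z'
    rw [coeff_monomial, ← Finset.sum_filter, Finset.sum_const, card_eq Z Z', nsmul_eq_mul]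
    split_ifs with h
    · exact mul_comm _ _
    · simp
  rw [Finset.sum_congr rfl fun Z' _ => h1 Z', Finset.sum_comm]
  exact Finset.sum_congr rfl fun σ _ => by simp

theorem Theta_Phi_of_ne {m n : ℕ} (h : m ≠ n) (z : (Fin m → κ) → K) (Z : Fin n → κ) :
    Theta n (Phi z) Z = 0 := by
  unfold Theta Phi
  rw [coeff_sum, Finset.sum_eq_zero, zero_mul]
  intro Z' _
  rw [coeff_monomial, if_neg]
  intro h'
  apply h
  rw [← degree_mon Z', ← degree_mon Z, h']

theorem Phi_mul {m n : ℕ} (x : (Fin m → κ) → K) (y : (Fin n → κ) → K) :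
    Phi x * Phi y = Phi (tmul x y) := by
  unfold Phi
  rw [← (Fin.appendEquiv m n).sum_comp, Fintype.sum_prod_type, Finset.sum_mul_sum]
  refine Finset.sum_congr rfl fun Z _ => Finset.sum_congr rfl fun Z' _ => ?_
  rw [monomial_mul]
  show _ = monomial (mon (Fin.append Z Z')) (tmul x y (Fin.append Z Z'))
  rw [mon_append]
  congr 1
  simp [tmul]

theorem Phi_single {d : ℕ} (Z : Fin d → κ) (c : K) :
    Phi (Pi.single Z c : (Fin d → κ) → K) = monomial (mon Z) c := by
  unfold Phi
  rw [Finset.sum_eq_single Z]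
  · simp
  · intro Z' _ h
    rw [Pi.single_eq_of_ne h, map_zero]
  · intro h
    exact absurd (mem_univ _) h

end Mon

section Act

variable {K : Type} [Field K] {ι : Type} [Fintype ι] [DecidableEq ι]

theorem kpw_perm {n : ℕ} (g : Matrix ι ι K) (σ : Equiv.Perm (Fin n)) (x : (Fin n → ι) → K) :
    (fun i => (kpw n g *ᵥ x) (i ∘ σ)) = kpw n g *ᵥ (fun i => x (i ∘ σ)) := by
  funext i
  simp only [mulVec, dotProduct, kpw, of_apply]
  refine Eq.trans ((σ.symm.arrowCongr (Equiv.refl ι)).sum_comp _).symm ?_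
  refine Finset.sum_congr rfl fun j _ => ?_
  show (∏ a, g (i (σ a)) (j (σ a))) * x (j ∘ σ) = (∏ a, g (i a) (j a)) * x (j ∘ σ)
  rw [Equiv.prod_comp σ (fun a => g (i a) (j a))]

theorem kpw_tmul {m n : ℕ} (g : Matrix ι ι K) (x : (Fin m → ι) → K) (y : (Fin n → ι) → K) :
    kpw (m + n) g *ᵥ tmul x y = tmul (kpw m g *ᵥ x) (kpw n g *ᵥ y) := by
  funext i
  simp only [mulVec, dotProduct, kpw, of_apply, tmul]
  rw [← (Fin.appendEquiv m n).sum_comp, Fintype.sum_prod_type, Finset.sum_mul_sum]
  refine Finset.sum_congr rfl fun Z _ => Finset.sum_congr rfl fun Z' _ => ?_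
  rw [Fin.prod_univ_add]
  simp
  ring

variable {G : Type} [Group G]

theorem reyn (ρ : G →* Matrix ι ι K) (n : ℕ) (hcr : CR ρ n) :
    ∃ P : ((Fin n → ι) → K) →ₗ[K] ((Fin n → ι) → K),
      (∀ g x, P (kpw n (ρ g) *ᵥ x) = P x) ∧ (∀ x, P x ∈ Fixed ρ n) ∧
      (∀ x ∈ Fixed ρ n, P x = x) ∧
      (∀ (m : ℕ) (Q : ((Fin n → ι) → K) →ₗ[K] ((Fin m → ι) → K)),
        (∀ g x, Q (kpw n (ρ g) *ᵥ x) = Q x) → ∀ x, Q x = Q (P x)) := by
  classical
  set D : Submodule K ((Fin n → ι) → K) :=
    Submodule.span K {y | ∃ g x, y = kpw n (ρ g) *ᵥ x - x} with hD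
  have hDmem : ∀ g x, kpw n (ρ g) *ᵥ x - x ∈ D := fun g x => Submodule.subset_span ⟨g, x, rfl⟩
  have hDst : ∀ g, ∀ x ∈ D, kpw n (ρ g) *ᵥ x ∈ D := by
    intro g x hx
    have := D.add_mem (hDmem g x) hx
    rwa [sub_add_cancel] at this
  obtain ⟨E, hEst, hDE⟩ := hcr D hDst
  have hEF : E ≤ Fixed ρ n := by
    intro x hx g
    have h1 : kpw n (ρ g) *ᵥ x - x ∈ D ⊓ E := ⟨hDmem g x, E.sub_mem (hEst g x hx) hx⟩
    rw [hDE.inf_eq_bot, Submodule.mem_bot, sub_eq_zero] at h1
    exact h1
  have hFD : ∀ x ∈ Fixed ρ n, x ∈ D → x = 0 := by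
    intro x hx hxD
    obtain ⟨W, hWst, hFW⟩ := hcr (Fixed ρ n) (fun g x hx => by rw [hx g]; exact hx)
    have hDW : D ≤ W := by
      rw [hD, Submodule.span_le]
      rintro _ ⟨g, y, rfl⟩
      obtain ⟨f, hf, w, hw, rfl⟩ := Submodule.mem_sup.1
        (by rw [hFW.sup_eq_top]; trivial : y ∈ Fixed ρ n ⊔ W)
      have : kpw n (ρ g) *ᵥ (f + w) - (f + w) = kpw n (ρ g) *ᵥ w - w := by
        rw [mulVec_add, hf g]; abel
      rw [this]
      exact W.sub_mem (hWst g w hw) hw
    have : x ∈ Fixed ρ n ⊓ W := ⟨hx, hDW hxD⟩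
    rw [hFW.inf_eq_bot] at this
    exact (Submodule.mem_bot K).1 this
  have hdec : ∀ x, x - (Submodule.projectionOnto E D hDE.symm x : (Fin n → ι) → K) ∈ D := by
    intro x
    have hk := Submodule.ker_projectionOnto hDE.symm
    refine hk.le ?_
    rw [LinearMap.mem_ker, map_sub, Submodule.projectionOnto_apply_left, sub_self]
  have hPD : ∀ x ∈ D, E.subtype (Submodule.projectionOnto E D hDE.symm x) = 0 := by
    intro x hx
    have hk := Submodule.ker_projectionOnto hDE.symm
    have h1 := hk.ge hx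
    rw [LinearMap.mem_ker] at h1
    rw [h1, map_zero]
  refine ⟨E.subtype ∘ₗ Submodule.projectionOnto E D hDE.symm, ?_, ?_, ?_, ?_⟩
  · intro g x
    have := hPD _ (hDmem g x)
    rw [map_sub, map_sub, sub_eq_zero] at this
    exact this
  · intro x
    exact hEF (Subtype.mem _)
  · intro x hx
    have h1 : x - (Submodule.projectionOnto E D hDE.symm x : (Fin n → ι) → K) = 0 :=
      hFD _ ((Fixed ρ n).sub_mem hx (hEF (Subtype.mem _))) (hdec x)
    rw [sub_eq_zero] at h1
    exact h1.symm
  · intro m Q hQ x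
    have hQD : D ≤ LinearMap.ker Q := by
      rw [hD, Submodule.span_le]
      rintro _ ⟨g, y, rfl⟩
      show Q _ = 0
      rw [map_sub, hQ, sub_self]
    have := hQD (hdec x)
    rw [LinearMap.mem_ker, map_sub, sub_eq_zero] at this
    exact this

/-- Permutation of the factors, as a linear map. -/
def permL (K : Type) [Field K] (ι : Type) {n : ℕ} (σ : Equiv.Perm (Fin n)) :
    ((Fin n → ι) → K) →ₗ[K] ((Fin n → ι) → K) where
  toFun x := fun i => x (i ∘ σ)
  map_add' _ _ := rfl
  map_smul' _ _ := rfl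

/-- Multiplication by a tensor, as a linear map. -/
def tmulL {m n : ℕ} (y : (Fin n → ι) → K) :
    ((Fin m → ι) → K) →ₗ[K] ((Fin (m + n) → ι) → K) where
  toFun x := tmul x y
  map_add' a b := by funext i; simp [tmul, add_mul]
  map_smul' c a := by funext i; simp [tmul, mul_assoc]

end Act

end Hil

open Hil Matrix MvPolynomial Finset in
theorem hil : S_HIL := by
  intro K _ _ ι _ _ G _ ρ hcr
  classical
  choose P hP1 hP2 hP3 hP4 using fun n => reyn ρ n (hcr n)
  have hperm : ∀ (n : ℕ) (σ : Equiv.Perm (Fin n)) (x : (Fin n → ι) → K),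
      P n (fun i => x (i ∘ σ)) = fun i => (P n x) (i ∘ σ) := by
    intro n σ x
    have h := hP4 n n (P n ∘ₗ permL K ι σ) (fun g x => by
      show P n (fun i => (kpw n (ρ g) *ᵥ x) (i ∘ σ)) = P n (fun i => x (i ∘ σ))
      rw [kpw_perm, hP1]) x
    have h2 : (fun i => (P n x) (i ∘ σ)) ∈ Fixed ρ n := by
      intro g
      rw [← kpw_perm, hP2 n x g]
    exact h.trans (hP3 n _ h2)
  have htmul : ∀ (m n : ℕ) (x : (Fin m → ι) → K) (y : (Fin n → ι) → K), y ∈ Fixed ρ n →
      P (m + n) (tmul x y) = tmul (P m x) y := by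
    intro m n x y hy
    have h := hP4 m (m + n) (P (m + n) ∘ₗ tmulL y) (fun g x => by
      show P (m + n) (tmul (kpw m (ρ g) *ᵥ x) y) = P (m + n) (tmul x y)
      rw [← hP1 (m + n) g (tmul x y), kpw_tmul, hy g]) x
    have h2 : tmul (P m x) y ∈ Fixed ρ (m + n) := by
      intro g
      rw [kpw_tmul, hP2 m x g, hy g]
    exact h.trans (hP3 (m + n) _ h2)
  let zz : ∀ m, (Fin m → ι) → (Fin m → ι × ι) → K := fun m I Z =>
    P m (Pi.single I 1) (fun a => (Z a).1) * (if (fun a => (Z a).2) = I then 1 else 0)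
  let J : ℕ →o Ideal (MvPolynomial (ι × ι) K) :=
    ⟨fun N => Ideal.span {F | ∃ m, 1 ≤ m ∧ m ≤ N ∧ ∃ I : Fin m → ι, F = Phi (zz m I)},
      fun a b hab => Ideal.span_mono (by
        rintro F ⟨m, h1, h2, h3⟩
        exact ⟨m, h1, h2.trans hab, h3⟩)⟩
  obtain ⟨N, hN⟩ := monotone_stabilizes_iff_noetherian.2
    (inferInstance : IsNoetherian (MvPolynomial (ι × ι) K) (MvPolynomial (ι × ι) K)) J
  refine ⟨N, fun C hC hle n => ?_⟩
  induction n using Nat.strong_induction_on with
  | _ n ih =>
    by_cases hn : n ≤ N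
    · exact hle n hn
    rw [not_le] at hn
    -- the core
    have core : ∀ (m : ℕ) (I' : Fin m → ι) (I : Fin n → ι), 1 ≤ m → m ≤ N →
        ∀ a : MvPolynomial (ι × ι) K,
        P n (fun j => Theta n (a * Phi (zz m I')) (fun b => (j b, I b))) ∈ C n := by
      intro m I' I hm1 hmN a
      induction a using MvPolynomial.induction_on' with
      | monomial u c =>
        obtain ⟨d, Z0, rfl⟩ := exists_mon u
        rw [← Phi_single, Phi_mul]
        by_cases hd : d + m = n
        · subst hd
          have h1 : (fun j : Fin (d + m) → ι => Theta (d + m) (Phi (tmul (Pi.single Z0 c) (zz m I')))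
              (fun b => (j b, I b))) = ∑ σ : Equiv.Perm (Fin (d + m)),
                fun j : Fin (d + m) → ι => tmul (fun j' : Fin d → ι => (Pi.single Z0 c :
                  (Fin d → ι × ι) → K) (fun a => (j' a, I (σ (Fin.castAdd m a)))))
                  ((if (fun a => I (σ (Fin.natAdd d a))) = I' then (1 : K) else 0) •
                    P m (Pi.single I' 1)) (j ∘ σ) := by
            funext j
            rw [Theta_Phi, Finset.sum_apply]
            refine Finset.sum_congr rfl fun σ _ => ?_
            simp only [tmul, zz, Function.comp, Pi.smul_apply, smul_eq_mul]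
            ring
          rw [h1, map_sum]
          refine Submodule.sum_mem _ fun σ _ => ?_
          rw [hperm, htmul]
          · refine hC.1 _ σ _ (hC.2 _ _ _ (ih d (by omega) (hP2 d _)) _ ?_)
            exact hle m hmN ((Fixed ρ m).smul_mem _ (hP2 m _))
          · exact (Fixed ρ m).smul_mem _ (hP2 m _)
        · have h1 : (fun j : Fin n → ι => Theta n (Phi (tmul (Pi.single Z0 c) (zz m I')))
              (fun b => (j b, I b))) = 0 := by
            funext j
            exact Theta_Phi_of_ne hd _ _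
          rw [h1, map_zero]
          exact Submodule.zero_mem _
      | add a b ha hb =>
        have h1 : (fun j : Fin n → ι => Theta n ((a + b) * Phi (zz m I')) (fun b => (j b, I b))) =
            (fun j : Fin n → ι => Theta n (a * Phi (zz m I')) (fun b => (j b, I b))) +
            (fun j : Fin n → ι => Theta n (b * Phi (zz m I')) (fun b => (j b, I b))) := by
          funext j
          rw [add_mul, Theta_add]
          rfl
        rw [h1, map_add]
        exact Submodule.add_mem _ ha hb
    have core2 : ∀ (I : Fin n → ι), ∀ F ∈ J N, ∀ a : MvPolynomial (ι × ι) K,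
        P n (fun j => Theta n (a * F) (fun b => (j b, I b))) ∈ C n := by
      intro I F hF
      refine Submodule.span_induction (p := fun F _ => ∀ a : MvPolynomial (ι × ι) K,
        P n (fun j => Theta n (a * F) (fun b => (j b, I b))) ∈ C n) ?_ ?_ ?_ ?_ hF
      · rintro F ⟨m, h1, h2, I', rfl⟩ a
        exact core m I' I h1 h2 a
      · intro a
        have h1 : (fun j : Fin n → ι => Theta n (a * (0 : MvPolynomial (ι × ι) K))
            (fun b => (j b, I b))) = 0 := by
          funext j
          simp [Theta]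
        rw [h1, map_zero]
        exact Submodule.zero_mem _
      · intro F F' _ _ h h' a
        have h1 : (fun j : Fin n → ι => Theta n (a * (F + F')) (fun b => (j b, I b))) =
            (fun j : Fin n → ι => Theta n (a * F) (fun b => (j b, I b))) +
            (fun j : Fin n → ι => Theta n (a * F') (fun b => (j b, I b))) := by
          funext j
          rw [mul_add, Theta_add]
          rfl
        rw [h1, map_add]
        exact Submodule.add_mem _ (h a) (h' a)
      · intro b F _ h a
        rw [smul_eq_mul, ← mul_assoc]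
        exact h (a * b)
    have hp : ∀ I : Fin n → ι, P n (Pi.single I 1) ∈ C n := by
      intro I
      have h1 : Phi (zz n I) ∈ J N := by
        rw [hN n hn.le]
        exact Ideal.subset_span ⟨n, by omega, le_rfl, I, rfl⟩
      have h2 := core2 I _ h1 1
      rw [one_mul] at h2
      have h3 : (fun j : Fin n → ι => Theta n (Phi (zz n I)) (fun b => (j b, I b))) =
          ((univ.filter fun σ : Equiv.Perm (Fin n) => I ∘ σ = I).card : K) •
            P n (Pi.single I 1) := by
        funext j
        rw [Theta_Phi, Pi.smul_apply, smul_eq_mul]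
        have h4 : ∀ σ : Equiv.Perm (Fin n), zz n I ((fun b => (j b, I b)) ∘ σ) =
            if I ∘ σ = I then P n (Pi.single I 1) j else 0 := by
          intro σ
          simp only [zz, Function.comp]
          by_cases hσ : I ∘ σ = I
          · have hσ' : (fun a => I (σ a)) = I := hσ
            rw [if_pos hσ', if_pos hσ, mul_one]
            have h5 := congrFun (hperm n σ (Pi.single I 1)) j
            have h6 : (fun i : Fin n → ι => (Pi.single I 1 : (Fin n → ι) → K) (i ∘ σ)) =
                Pi.single I 1 := by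
              funext i
              by_cases hi : i = I
              · subst hi
                rw [hσ]
              · rw [Pi.single_eq_of_ne hi, Pi.single_eq_of_ne]
                intro h
                apply hi
                have h7 : i ∘ σ = I ∘ σ := h.trans hσ.symm
                exact σ.surjective.injective_comp_right h7
            rw [h6] at h5
            exact h5.symm
          · have hσ' : ¬ (fun a => I (σ a)) = I := hσ
            rw [if_neg hσ', if_neg hσ, mul_zero]
        rw [Finset.sum_congr rfl fun σ _ => h4 σ, ← Finset.sum_filter, Finset.sum_const,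
          nsmul_eq_mul]
      rw [h3, map_smul, hP3 n _ (hP2 n _)] at h2
      have h5 : ((univ.filter fun σ : Equiv.Perm (Fin n) => I ∘ σ = I).card : K) ≠ 0 := by
        rw [Nat.cast_ne_zero, Finset.card_ne_zero]
        exact ⟨1, by simp⟩
      have h6 := (C n).smul_mem (((univ.filter fun σ : Equiv.Perm (Fin n) => I ∘ σ = I).card : K)⁻¹) h2
      rwa [smul_smul, inv_mul_cancel₀ h5, one_smul] at h6
    intro x hx
    have h1 : x = ∑ I : Fin n → ι, x I • P n (Pi.single I 1) := by
      conv_lhs => rw [← hP3 n x hx, ← Finset.univ_sum_single x]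
      rw [map_sum]
      refine Finset.sum_congr rfl fun I _ => ?_
      rw [← map_smul]
      congr 1
      funext i
      by_cases hi : i = I
      · subst hi; simp
      · simp [Pi.single_eq_of_ne hi]
    rw [h1]
    exact Submodule.sum_mem _ fun I _ => (C n).smul_mem _ (hp I)

end Pool.Agent.K6.H94.TG
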