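import Mathlib
import Pool.Agent.K6.H94.TG.Stm

/-!
# Factorisation of the identity of a representation through semisimple representations
-/

set_option autoImplicit false

namespace Pool.Agent.K6.H94.TG

open Representation

section

variable {K : Type} [Field K] {G : Type} [Monoid G]

theorem asAlgebraHom_sum {V : Type} [AddCommGroup V] [Module K V] (ρ : Representation K G V)
    (c : MonoidAlgebra K G) : ρ.asAlgebraHom c = c.coeff.sum fun g a => a • ρ g := by
  rw [Representation.asAlgebraHom_def, MonoidAlgebra.lift_apply]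

theorem semi_of {V : Type} [AddCommGroup V] [Module K V] (ρ : Representation K G V)
    (h : ∀ U : Submodule K V, (∀ g, ∀ x ∈ U, ρ g x ∈ U) →
      ∃ W : Submodule K V, (∀ g, ∀ x ∈ W, ρ g x ∈ W) ∧ IsCompl U W) :
    IsSemisimpleModule (MonoidAlgebra K G) ρ.asModule := by
  rw [← isSemisimpleRepresentation_iff_isSemisimpleModule_asModule]
  refine ⟨fun U => ?_⟩
  obtain ⟨W, hW, hc⟩ := h U.toSubmodule fun g x hx => U.apply_mem_toSubmodule g hx
  refine ⟨⟨W, fun g x hx => hW g x hx⟩, ?_, ?_⟩
  · rw [disjoint_iff]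
    apply Subrepresentation.toSubmodule_injective
    exact disjoint_iff.1 hc.1
  · rw [codisjoint_iff]
    apply Subrepresentation.toSubmodule_injective
    exact codisjoint_iff.1 hc.2

theorem semi_pi {R : Type} [Ring R] {ι : Type} [Finite ι] (M : ι → Type)
    [∀ i, AddCommGroup (M i)] [∀ i, Module R (M i)] (h : ∀ i, IsSemisimpleModule R (M i)) :
    IsSemisimpleModule R (∀ i, M i) := inferInstance

theorem ext_prop {R : Type} [Ring R] {M N Q : Type} [AddCommGroup M] [AddCommGroup N]
    [AddCommGroup Q] [Module R M] [Module R N] [Module R Q] (hM : IsSemisimpleModule R M)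
    (f : N →ₗ[R] M) (hf : Function.Injective f) (g : N →ₗ[R] Q) : ∃ h : M →ₗ[R] Q, h ∘ₗ f = g :=
  IsSemisimpleModule.extension_property f hf g

theorem lift_prop {R : Type} [Ring R] {M N Q : Type} [AddCommGroup M] [AddCommGroup N]
    [AddCommGroup Q] [Module R M] [Module R N] [Module R Q] (hM : IsSemisimpleModule R M)
    (f : M →ₗ[R] N) (hf : Function.Surjective f) (g : Q →ₗ[R] N) :
    ∃ h : Q →ₗ[R] M, f ∘ₗ h = g :=
  IsSemisimpleModule.lifting_property f hf g

end

theorem sem : S_SEM := by
  intro K _ G _ J _ T _ _ _ ρ hρ P _ _ _ π hπ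
  classical
  set R := MonoidAlgebra K G with hR
  let ρ' : ∀ j, Representation K G (T j) := ρ
  let π' : Representation K G P := π
  have hss : ∀ j, IsSemisimpleModule R (ρ' j).asModule := fun j => semi_of (ρ' j) (hρ j)
  -- the total space
  let TT := ∀ j, (ρ' j).asModule
  have hann : ∀ r : R, (∀ j (x : (ρ' j).asModule), r • x = 0) → ∀ p : π'.asModule, r • p = 0 := by
    intro r hr p
    have h1 : (r.coeff.sum fun g a => a • π g) = 0 := by
      apply hπ
      intro j
      have h2 : (ρ' j).asAlgebraHom r = 0 := by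
        ext x
        have h3 := (ρ' j).asModuleEquiv_map_smul r ((ρ' j).asModuleEquiv.symm x)
        rw [hr j, map_zero, LinearEquiv.apply_symm_apply] at h3
        rw [← h3, LinearMap.zero_apply]
      rw [asAlgebraHom_sum] at h2
      exact h2
    apply π'.asModuleEquiv.injective
    rw [π'.asModuleEquiv_map_smul, asAlgebraHom_sum]
    have h4 : (r.coeff.sum fun g a => a • π' g) = 0 := h1
    rw [h4, map_zero, LinearMap.zero_apply]
  have hTT : IsSemisimpleModule R TT := semi_pi (fun j => (ρ' j).asModule) hss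
  -- bases
  obtain ⟨d, b, hb⟩ : ∃ (d : ℕ) (b : Fin d → TT), Submodule.span K (Set.range b) = ⊤ := by
    obtain ⟨d, b, hb⟩ := Module.Finite.exists_fin (R := K) (M := TT)
    exact ⟨d, b, hb⟩
  obtain ⟨e, p, hp⟩ : ∃ (e : ℕ) (p : Fin e → π'.asModule), Submodule.span K (Set.range p) = ⊤ := by
    obtain ⟨d, b, hb⟩ := Module.Finite.exists_fin (R := K) (M := π'.asModule)
    exact ⟨d, b, hb⟩
  let τ : R →ₗ[R] (Fin d → TT) := LinearMap.toSpanSingleton R _ b
  have hτ : ∀ r, τ r = r • b := fun r => rfl
  have hker : ∀ r, τ r = 0 → ∀ q : π'.asModule, r • q = 0 := by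
    intro r hr
    apply hann
    have h1 : ∀ x : TT, r • x = 0 := by
      intro x
      have hx : x ∈ Submodule.span K (Set.range b) := by rw [hb]; trivial
      induction hx using Submodule.span_induction with
      | mem x hx =>
        obtain ⟨i, rfl⟩ := hx
        exact congrFun hr i
      | zero => exact smul_zero _
      | add x y _ _ h1 h2 => rw [smul_add, h1, h2, add_zero]
      | smul a x _ h1 => rw [smul_comm, h1, smul_zero]
    intro j x
    have h2 := congrFun (h1 (Pi.single j x)) j
    rw [Pi.smul_apply, Pi.single_eq_same] at h2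
    exact h2
  have hA : ∀ i : Fin e, ∃ h : (Fin d → TT) →ₗ[R] π'.asModule, ∀ r : R, h (r • b) = r • p i := by
    intro i
    have hle : LinearMap.ker τ ≤ LinearMap.ker (LinearMap.toSpanSingleton R _ (p i)) := by
      intro r hr
      rw [LinearMap.mem_ker] at hr ⊢
      exact hker r hr (p i)
    have hT2 : IsSemisimpleModule R (Fin d → TT) := semi_pi (fun _ => TT) fun _ => hTT
    obtain ⟨h, hh⟩ := ext_prop hT2
      ((LinearMap.ker τ).liftQ τ le_rfl) (by
        rw [← LinearMap.ker_eq_bot]
        exact Submodule.ker_liftQ_eq_bot _ _ _ le_rfl)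
      ((LinearMap.ker τ).liftQ (LinearMap.toSpanSingleton R _ (p i)) hle)
    refine ⟨h, fun r => ?_⟩
    have h1 := LinearMap.congr_fun hh (Submodule.Quotient.mk r)
    exact h1
  choose h hh using hA
  let A : (Fin e → Fin d → TT) →ₗ[R] π'.asModule := ∑ i, h i ∘ₗ LinearMap.proj i
  have hAa : ∀ x, A x = ∑ i, h i (x i) := fun x => by
    simp only [A, LinearMap.sum_apply, LinearMap.comp_apply, LinearMap.proj_apply]
  have hsurj : Function.Surjective A := by
    intro q
    have hq : q ∈ Submodule.span K (Set.range p) := by rw [hp]; trivial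
    have hq2 : q ∈ LinearMap.range A := by
      induction hq using Submodule.span_induction with
      | mem x hx =>
        obtain ⟨i, rfl⟩ := hx
        refine ⟨Pi.single i b, ?_⟩
        rw [hAa, Finset.sum_eq_single i]
        · rw [Pi.single_eq_same]
          have := hh i 1
          rwa [one_smul, one_smul] at this
        · intro k _ hk
          rw [Pi.single_eq_of_ne hk, map_zero]
        · intro h; exact absurd (Finset.mem_univ _) h
      | zero => exact Submodule.zero_mem _
      | add x y _ _ h1 h2 => exact Submodule.add_mem _ h1 h2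
      | smul a x _ h1 =>
        have h2 : a • x = (algebraMap K R a) • x := (algebraMap_smul R a x).symm
        rw [h2]
        exact Submodule.smul_mem _ _ h1
    exact hq2
  have hT3 : IsSemisimpleModule R (Fin e → Fin d → TT) :=
    semi_pi (fun _ => Fin d → TT) fun _ => semi_pi (fun _ => TT) fun _ => hTT
  obtain ⟨ψ, hψ⟩ := lift_prop hT3 A hsurj LinearMap.id
  have hψ' : ∀ q, A (ψ q) = q := fun q => LinearMap.congr_fun hψ q
  -- the components
  let I := Fin e × Fin d × J
  have hsm : ∀ (g : G) (x : π'.asModule), (MonoidAlgebra.of K G g : R) • x = π'.asModuleEquiv.symm (π g (π'.asModuleEquiv x)) := by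
    intro g x
    apply π'.asModuleEquiv.injective
    rw [π'.asModuleEquiv_map_smul, LinearEquiv.apply_symm_apply, Representation.asAlgebraHom_of]
  have hsm' : ∀ (j : J) (g : G) (x : (ρ' j).asModule), (MonoidAlgebra.of K G g : R) • x =
      (ρ' j).asModuleEquiv.symm (ρ j g ((ρ' j).asModuleEquiv x)) := by
    intro j g x
    apply (ρ' j).asModuleEquiv.injective
    rw [(ρ' j).asModuleEquiv_map_smul, LinearEquiv.apply_symm_apply,
      Representation.asAlgebraHom_of]
  let AR : ∀ i : I, (ρ' i.2.2).asModule →ₗ[R] π'.asModule := fun i =>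
    (h i.1) ∘ₗ (LinearMap.single R (fun _ : Fin d => TT) i.2.1) ∘ₗ
      (LinearMap.single R (fun j => (ρ' j).asModule) i.2.2)
  let ψR : ∀ i : I, π'.asModule →ₗ[R] (ρ' i.2.2).asModule := fun i =>
    (LinearMap.proj i.2.2 : (∀ j, (ρ' j).asModule) →ₗ[R] (ρ' i.2.2).asModule) ∘ₗ
      (LinearMap.proj i.2.1 : (Fin d → TT) →ₗ[R] TT) ∘ₗ (LinearMap.proj i.1) ∘ₗ ψ
  have hsumR : ∀ q, ∑ i : I, AR i (ψR i q) = q := by
    intro q
    have h1 : ∀ x : Fin d → TT, ∀ i, h i x = ∑ k, ∑ j, h i (Pi.single k (Pi.single j (x k j))) := by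
      intro x i
      conv_lhs => rw [← Finset.univ_sum_single x]
      rw [map_sum]
      refine Finset.sum_congr rfl fun k _ => ?_
      conv_lhs => rw [← Finset.univ_sum_single (x k)]
      rw [← map_sum]
      congr 1
      exact map_sum (LinearMap.single R (fun _ : Fin d => TT) k) _ _
    conv_rhs => rw [← hψ' q, hAa]
    rw [Fintype.sum_prod_type]
    refine Finset.sum_congr rfl fun i _ => ?_
    rw [h1, Fintype.sum_prod_type]
    rfl
  let eI : Fin (Fintype.card I) ≃ I := (Fintype.equivFin I).symm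
  refine ⟨Fintype.card I, fun i => (eI i).2.2,
    fun i => (π'.asModuleEquiv : π'.asModule →ₗ[K] P) ∘ₗ ((AR (eI i)).restrictScalars K) ∘ₗ
      ((ρ' (eI i).2.2).asModuleEquiv.symm : T (eI i).2.2 →ₗ[K] (ρ' (eI i).2.2).asModule),
    fun i => ((ρ' (eI i).2.2).asModuleEquiv : (ρ' (eI i).2.2).asModule →ₗ[K] T (eI i).2.2) ∘ₗ
      ((ψR (eI i)).restrictScalars K) ∘ₗ
      (π'.asModuleEquiv.symm : P →ₗ[K] π'.asModule), ?_, ?_, ?_⟩
  · intro i g x
    have h1 := (AR (eI i)).map_smul (MonoidAlgebra.of K G g : R)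
      ((ρ' (eI i).2.2).asModuleEquiv.symm x)
    rw [hsm, hsm', LinearEquiv.apply_symm_apply] at h1
    have h2 := congrArg π'.asModuleEquiv h1
    rw [LinearEquiv.apply_symm_apply] at h2
    exact h2
  · intro i g x
    have h1 := (ψR (eI i)).map_smul (MonoidAlgebra.of K G g : R) (π'.asModuleEquiv.symm x)
    rw [hsm, hsm', LinearEquiv.apply_symm_apply] at h1
    have h2 := congrArg (ρ' (eI i).2.2).asModuleEquiv h1
    rw [LinearEquiv.apply_symm_apply] at h2
    exact h2
  · intro p
    have h1 := hsumR (π'.asModuleEquiv.symm p)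
    have h2 := congrArg π'.asModuleEquiv h1
    rw [LinearEquiv.apply_symm_apply, map_sum] at h2
    rw [← Equiv.sum_comp eI] at h2
    exact h2

end Pool.Agent.K6.H94.TG
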