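import Mathlib
import Pool.Agent.K6.H94.TG.Cnj
import Pool.Agent.K6.H94.TG.Gen
import Pool.Agent.K6.H94.TG.Sem
import Pool.Agent.K6.H94.TG.Hil

/-!
# One power suffices for all varieties of bounded level, uniformly in the variety

The pieces `gen` and `sem` are by helper19, the piece `hil` by helper30.
-/

set_option autoImplicit false
set_option linter.unusedSectionVars false

namespace Pool.Agent.K6.H94.TG

open Matrix

section Grp

variable {C : Type} [Field C] [CharZero C] {ι : Type} [Fintype ι] [DecidableEq ι] {A : Type}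
  {P : A → ℤ → Matrix ι ι C} {w₀ : ℕ}

/-- The group generated by the cocharacters. -/
def Gp (P : A → ℤ → Matrix ι ι C) (w₀ : ℕ) : Subgroup (Matrix ι ι C)ˣ :=
  Subgroup.closure {u | ∃ a t, (u : Matrix ι ι C) = cochar (P a) w₀ t}

/-- The representation of the group generated by the cocharacters. -/
def gpr (P : A → ℤ → Matrix ι ι C) (w₀ : ℕ) : Gp P w₀ →* Matrix ι ι C :=
  (Units.coeHom (Matrix ι ι C)).comp (Gp P w₀).subtype

lemma cochar_inv_eq (hP : ∀ a, IsGrading (P a) w₀) {u : (Matrix ι ι C)ˣ} {a : A} {t : Cˣ}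
    (hu : (u : Matrix ι ι C) = cochar (P a) w₀ t) :
    ((u⁻¹ : (Matrix ι ι C)ˣ) : Matrix ι ι C) = cochar (P a) w₀ t⁻¹ := by
  have h1 : cochar (P a) w₀ t⁻¹ * (u : Matrix ι ι C) = 1 := by
    rw [hu, cochar_mul (hP a), inv_mul_cancel, cochar_one (hP a)]
  calc ((u⁻¹ : (Matrix ι ι C)ˣ) : Matrix ι ι C) =
        (cochar (P a) w₀ t⁻¹ * (u : Matrix ι ι C)) * ((u⁻¹ : (Matrix ι ι C)ˣ) : Matrix ι ι C) := by
        rw [h1, Matrix.one_mul]
    _ = cochar (P a) w₀ t⁻¹ := by rw [Matrix.mul_assoc, Units.mul_inv, Matrix.mul_one]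

lemma exists_unit (hP : ∀ a, IsGrading (P a) w₀) (a : A) (t : Cˣ) :
    ∃ u ∈ Gp P w₀, (u : Matrix ι ι C) = cochar (P a) w₀ t := by
  let u : (Matrix ι ι C)ˣ := ⟨cochar (P a) w₀ t, cochar (P a) w₀ t⁻¹, by
    rw [cochar_mul (hP a), mul_inv_cancel, cochar_one (hP a)], by
    rw [cochar_mul (hP a), inv_mul_cancel, cochar_one (hP a)]⟩
  exact ⟨u, Subgroup.subset_closure ⟨a, t, rfl⟩, rfl⟩

lemma Gp_stable (hP : ∀ a, IsGrading (P a) w₀) {n : ℕ} {W : Submodule C ((Fin n → ι) → C)}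
    (hW : ∀ a t, ∀ x ∈ W, kpw n (cochar (P a) w₀ t) *ᵥ x ∈ W) {u : (Matrix ι ι C)ˣ}
    (hu : u ∈ Gp P w₀) : (∀ x ∈ W, kpw n (u : Matrix ι ι C) *ᵥ x ∈ W) ∧
      ∀ x ∈ W, kpw n ((u⁻¹ : (Matrix ι ι C)ˣ) : Matrix ι ι C) *ᵥ x ∈ W := by
  rw [Gp] at hu
  induction hu using Subgroup.closure_induction with
  | mem u hu =>
    obtain ⟨a, t, hu⟩ := hu
    refine ⟨fun x hx => ?_, fun x hx => ?_⟩
    · rw [hu]
      exact hW a t x hx
    · rw [cochar_inv_eq hP hu]
      exact hW a t⁻¹ x hx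
  | one =>
    refine ⟨fun x hx => ?_, fun x hx => ?_⟩
    · rw [Units.val_one, kpw_one, Matrix.one_mulVec]
      exact hx
    · rw [inv_one, Units.val_one, kpw_one, Matrix.one_mulVec]
      exact hx
  | mul u v _ _ hu hv =>
    refine ⟨fun x hx => ?_, fun x hx => ?_⟩
    · rw [Units.val_mul, kpw_mul, ← Matrix.mulVec_mulVec]
      exact hu.1 _ (hv.1 x hx)
    · rw [_root_.mul_inv_rev, Units.val_mul, kpw_mul, ← Matrix.mulVec_mulVec]
      exact hv.2 _ (hu.2 x hx)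
  | inv u _ hu =>
    refine ⟨hu.2, ?_⟩
    rw [inv_inv]
    exact hu.1

lemma gp_cr (hP : ∀ a, IsGrading (P a) w₀) (hred : GeneratesReductive P w₀) (n : ℕ) :
    CR (gpr P w₀) n := by
  intro U hU
  obtain ⟨W, hW, hc⟩ := hred n U (fun a t x hx => by
    obtain ⟨u, hu, hu'⟩ := exists_unit hP a t
    rw [← hu']
    exact hU ⟨u, hu⟩ x hx)
  exact ⟨W, fun g x hx => (Gp_stable hP hW g.2).1 x hx, hc⟩

lemma mem_fixed_gp {n : ℕ} {x : (Fin n → ι) → C}
    (hx : ∀ a t, kpw n (cochar (P a) w₀ t) *ᵥ x = x) : x ∈ Fixed (gpr P w₀) n := by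
  rintro ⟨u, hu⟩
  change kpw n (u : Matrix ι ι C) *ᵥ x = x
  rw [Gp] at hu
  induction hu using Subgroup.closure_induction with
  | mem u hu =>
    obtain ⟨a, t, hu⟩ := hu
    rw [hu]
    exact hx a t
  | one => rw [Units.val_one, kpw_one, Matrix.one_mulVec]
  | mul u v _ _ hu hv => rw [Units.val_mul, kpw_mul, ← Matrix.mulVec_mulVec, hv, hu]
  | inv u _ hu =>
    conv_lhs => rw [← hu]
    exact kpw_inv_cancel n u x

lemma fixed_gp_cochar (hP : ∀ a, IsGrading (P a) w₀) {n : ℕ} {x : (Fin n → ι) → C}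
    (hx : x ∈ Fixed (gpr P w₀) n) (a : A) (t : Cˣ) : kpw n (cochar (P a) w₀ t) *ᵥ x = x := by
  obtain ⟨u, hu, hu'⟩ := exists_unit hP a t
  rw [← hu']
  exact hx ⟨u, hu⟩

end Grp

section Sys

variable {K C : Type} [Field K] [Field C] [CharZero C] [Algebra K C] {Γ : Type}
  [Group Γ] {ι : Type} [Fintype ι] [DecidableEq ι] {ρ : Γ →* Matrix ι ι K} {A : Type}
  {P : A → ℤ → Matrix ι ι C} {w₀ : ℕ}

/-- The system over the large field. -/
noncomputable def Big (g : (Matrix ι ι C)ˣ) (D : ∀ n, Submodule K ((Fin n → ι) → K)) (n : ℕ) :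
    Submodule C ((Fin n → ι) → C) :=
  (spn C (D n)).comap (kequiv n g).toLinearMap

lemma mem_Big {g : (Matrix ι ι C)ˣ} {D : ∀ n, Submodule K ((Fin n → ι) → K)} {n : ℕ}
    {x : (Fin n → ι) → C} : x ∈ Big g D n ↔ kpw n (g : Matrix ι ι C) *ᵥ x ∈ spn C (D n) :=
  Iff.rfl

lemma tmul_add_left {m n : ℕ} (x y : (Fin m → ι) → C) (z : (Fin n → ι) → C) :
    tmul (x + y) z = tmul x z + tmul y z := by
  funext i
  exact add_mul _ _ _

lemma tmul_smul_left {m n : ℕ} (c : C) (x : (Fin m → ι) → C) (z : (Fin n → ι) → C) :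
    tmul (c • x) z = c • tmul x z := by
  funext i
  exact mul_assoc _ _ _

lemma Big_isSys {D : ∀ n, Submodule K ((Fin n → ι) → K)} (hD : IsSys D) (g : (Matrix ι ι C)ˣ) :
    IsSys (Big g D) := by
  refine ⟨fun n σ x hx => ?_, fun m n x hx y hy => ?_⟩
  · rw [mem_Big] at hx ⊢
    rw [← Hil.kpw_perm]
    refine mem_spn_of_red fun r => ?_
    exact hD.1 n σ _ (red_mem hx r)
  · rw [mem_Big] at hx hy ⊢
    rw [Hil.kpw_tmul]
    generalize kpw m (g : Matrix ι ι C) *ᵥ x = x at hx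
    generalize kpw n (g : Matrix ι ι C) *ᵥ y = y at hy
    rw [spn] at hx
    induction hx using Submodule.span_induction with
    | mem x hx =>
      obtain ⟨u, hu, rfl⟩ := hx
      refine mem_spn_of_red fun r => ?_
      have h1 : red r (tmul (ext C u) y) = tmul u (red r y) := by
        funext i
        change r (algebraMap K C (u _) * y _) = u _ * r (y _)
        rw [← Algebra.smul_def, map_smul, smul_eq_mul]
      rw [h1]
      exact hD.2 m n u hu _ (red_mem hy r)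
    | zero =>
      have : tmul (0 : (Fin m → ι) → C) y = 0 := by
        funext i
        exact zero_mul _
      rw [this]
      exact Submodule.zero_mem _
    | add x z _ _ hx hz =>
      rw [tmul_add_left]
      exact Submodule.add_mem _ hx hz
    | smul c x _ hx =>
      rw [tmul_smul_left]
      exact Submodule.smul_mem _ _ hx

/-- Tensors fixed by the cocharacters are fixed by the group. -/
lemma fixed_of_cochar {Δ₀ : Subgroup Γ}
    (hΔ₀ : ∀ f : MvPolynomial (ι × ι) C,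
      (∀ h ∈ Submonoid.closure {h | ∃ a t, h = cochar (P a) w₀ t},
        MvPolynomial.eval (ent h) f = 0) →
      ∀ δ ∈ Δ₀, MvPolynomial.eval (ent ((ρ δ).map (algebraMap K C))) f = 0)
    {n : ℕ} {z : (Fin n → ι) → C} (hz : ∀ a t, kpw n (cochar (P a) w₀ t) *ᵥ z = z) {δ : Γ}
    (hδ : δ ∈ Δ₀) : kpw n ((ρ δ).map (algebraMap K C)) *ᵥ z = z := by
  have h1 : ∀ h ∈ Submonoid.closure {h | ∃ a t, h = cochar (P a) w₀ t}, kpw n h *ᵥ z = z := by
    intro h hh
    induction hh using Submonoid.closure_induction with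
    | mem h hh =>
      obtain ⟨a, t, rfl⟩ := hh
      exact hz a t
    | one => rw [kpw_one, Matrix.one_mulVec]
    | mul g h _ _ hg hh => rw [kpw_mul, ← Matrix.mulVec_mulVec, hh, hg]
  funext i
  have h2 := hΔ₀ (mc n z i - MvPolynomial.C (z i)) (fun h hh => by
    rw [map_sub, eval_mc, MvPolynomial.eval_C, h1 h hh, sub_self]) δ hδ
  rw [map_sub, eval_mc, MvPolynomial.eval_C, sub_eq_zero] at h2
  exact h2

/-- **Main theorem, uniform version**: the number `N` depends only on the cocharacters, up to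
conjugation, and on `w`. -/
theorem main_uniform (hP : ∀ a, IsGrading (P a) w₀) (hred : GeneratesReductive P w₀) (w : ℕ) :
    ∃ N : ℕ, ∀ (K : Type) [Field K] [Algebra K C] (Γ : Type) [Group Γ] (ρ : Γ →* Matrix ι ι K)
      (p : ι → Bool) (B : Matrix ι ι K) (g : (Matrix ι ι C)ˣ), IsParity p ρ →
      (∀ γ, (ρ γ)ᵀ * B * ρ γ = B) → IsUnit B → IsGenerated ρ (conj g P) w₀ →
      ∀ (μ : Type) [Fintype μ] [DecidableEq μ] (τ : Γ →* Matrix μ μ K),
      LevelLE ρ (conj g P) w₀ τ w →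
      ∀ (Cl : ∀ n, Submodule K ((Fin n → ι) → K)) (S : ∀ n, Submodule K ((Fin n → ι) → μ → K)),
        IsSystem p B Cl S → (∀ m ≤ N, ∀ x, IsTate ρ m x → x ∈ Cl m) →
        (∀ m ≤ N, ∀ y, IsTateM ρ τ m y → y ∈ S m) →
        (∀ n x, IsTate ρ n x → x ∈ Cl n) ∧ ∀ n y, IsTateM ρ τ n y → y ∈ S n := by
  obtain ⟨N₁, hN₁⟩ := hil C ι (Gp P w₀) (gpr P w₀) (gp_cr hP hred)
  obtain ⟨N₂, hN₂⟩ := exists_N gen (lam := fun a t => cochar (P a) w₀ t) (fun _ _ => rfl)
    (fun a => cochar_one (hP a)) w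
  refine ⟨max N₁ N₂, fun K _ _ Γ _ ρ p B g hp hB hBu hgen μ _ _ τ hlev Cl S hS hC hSm => ?_⟩
  have : CharZero K := (algebraMap K C).charZero
  obtain ⟨Δ₀, hfin, hΔ₀⟩ := hgen
  have hCl : ∀ n x, IsTate ρ n x → x ∈ Cl n := by
    have h1 := hN₁ (Big g (Hom p Cl)) (Big_isSys (Hom_isSys hS.1) g) (fun m hm x hx => by
      rw [mem_Big]
      refine mem_spn_of_red fun r => ?_
      rw [mem_Hom]
      intro e
      refine hC m (hm.trans (le_max_left _ _)) _ ⟨Δ₀, hfin, fun δ hδ => ?_⟩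
      rw [kpw_part (hp δ), ← red_mulVec, fixed_of_cochar hΔ₀ (fun a t => ?_) hδ]
      rw [cochar_conj, kpw_conj, kpw_inv_cancel, fixed_gp_cochar hP hx])
    intro n x hx
    have h2 : kpw n ((g⁻¹ : (Matrix ι ι C)ˣ) : Matrix ι ι C) *ᵥ ext C x ∈ Fixed (gpr P w₀) n := by
      refine mem_fixed_gp fun a t => ?_
      have h3 := tate_cochar hlev hx a t
      rw [cochar_conj, kpw_conj] at h3
      have h4 := congrArg (fun z => kpw n ((g⁻¹ : (Matrix ι ι C)ˣ) : Matrix ι ι C) *ᵥ z) h3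
      simp only [kpw_inv_cancel] at h4
      exact h4
    have h3 := h1 n h2
    rw [mem_Big, kpw_cancel] at h3
    have h4 := mem_of_ext_mem h3
    rw [mem_Hom] at h4
    rw [← sum_part (p := p) x]
    exact Submodule.sum_mem _ fun e _ => h4 e
  exact ⟨hCl, core (P := conj g P) sem hp hB hBu hfin
    (fun Δ hΔ hle n => cr_of_reductive (reductive_conj hred g) hΔ₀ hlev Δ hΔ hle n) hΔ₀
    (bound_conj hN₂ g) hlev hS.2 hCl fun m hm y hy => hSm m (hm.trans (le_max_right _ _)) y hy⟩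

end Sys

end Pool.Agent.K6.H94.TG
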