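import Mathlib
import Pool.Agent.K6.H94.TG.Dec
import Pool.Agent.K6.H94.TG.Uni
import Pool.Agent.K6.H94.TG.EDefs

/-!
# The parity operator
-/

set_option autoImplicit false
set_option linter.unusedSectionVars false

namespace Pool.Agent.K6.H94.TG

open Matrix

section Op

variable {F : Type} [Field F] {ι : Type} [Fintype ι] [DecidableEq ι] {p : ι → Bool}

/-- The power of the parity operator. -/
def psg (F : Type) [Field F] {ι : Type} [DecidableEq ι] (p : ι → Bool) (s : ℤˣ) : Matrix ι ι F :=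
  Matrix.diagonal fun i => if p i then ((s : ℤ) : F) else 1

lemma psg_one : psg F p 1 = 1 := by
  rw [psg, ← Matrix.diagonal_one]
  congr 1
  funext i
  split_ifs <;> simp

lemma psg_mul (s t : ℤˣ) : psg F p (s * t) = psg F p s * psg F p t := by
  rw [psg, psg, psg, Matrix.diagonal_mul_diagonal]
  congr 1
  funext i
  split_ifs <;> simp

lemma psg_neg_one : psg F p (-1) = sgnop F p := by
  rw [psg, sgnop]
  congr 1
  funext i
  split_ifs <;> simp

lemma psg_comm {g : Matrix ι ι F} (hg : Par p g) (s : ℤˣ) : g * psg F p s = psg F p s * g := by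
  ext i j
  rw [psg, Matrix.mul_diagonal, Matrix.diagonal_mul]
  by_cases h : p i = p j
  · rw [h]
    split_ifs <;> ring
  · rw [hg i j h, zero_mul, mul_zero]

lemma sgnop_comm {g : Matrix ι ι F} (hg : Par p g) : g * sgnop F p = sgnop F p * g := by
  rw [← psg_neg_one]
  exact psg_comm hg _

lemma sgnop_mul_self : sgnop F p * sgnop F p = 1 := by
  rw [← psg_neg_one, ← psg_mul]
  simp [psg_one]

lemma par_psg (s : ℤˣ) : Par p (psg F p s) := by
  intro i j h
  rw [psg, Matrix.diagonal_apply_ne]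
  rintro rfl
  exact h rfl

lemma par_mul {g h : Matrix ι ι F} (hg : Par p g) (hh : Par p h) : Par p (g * h) := by
  intro i j hij
  rw [Matrix.mul_apply]
  refine Finset.sum_eq_zero fun k _ => ?_
  by_cases h1 : p i = p k
  · rw [hh k j (by rw [← h1]; exact hij), mul_zero]
  · rw [hg i k h1, zero_mul]

lemma sgnop_map {F' : Type} [Field F'] (f : F →+* F') : (sgnop F p).map f = sgnop F' p := by
  ext i j
  rw [Matrix.map_apply, sgnop, sgnop]
  by_cases h : i = j
  · subst h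
    rw [Matrix.diagonal_apply_eq, Matrix.diagonal_apply_eq]
    split_ifs <;> simp
  · rw [Matrix.diagonal_apply_ne _ h, Matrix.diagonal_apply_ne _ h, map_zero]

lemma unit_cases (s : ℤˣ) : s = 1 ∨ s = -1 := Int.units_eq_one_or s

variable {Γ : Type} [Group Γ]

/-- The representation together with the parity operator. -/
def wsg (p : ι → Bool) (ρ : Γ →* Matrix ι ι F) (hp : IsParity p ρ) : Γ × ℤˣ →* Matrix ι ι F where
  toFun g := ρ g.1 * psg F p g.2
  map_one' := by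
    rw [Prod.fst_one, Prod.snd_one, map_one, psg_one, Matrix.one_mul]
  map_mul' g h := by
    rw [Prod.fst_mul, Prod.snd_mul, map_mul, psg_mul]
    calc ρ g.1 * ρ h.1 * (psg F p g.2 * psg F p h.2) =
          ρ g.1 * (ρ h.1 * psg F p g.2) * psg F p h.2 := by simp only [Matrix.mul_assoc]
      _ = ρ g.1 * (psg F p g.2 * ρ h.1) * psg F p h.2 := by rw [psg_comm (hp h.1)]
      _ = ρ g.1 * psg F p g.2 * (ρ h.1 * psg F p h.2) := by simp only [Matrix.mul_assoc]

lemma wsg_apply (ρ : Γ →* Matrix ι ι F) (hp : IsParity p ρ) (γ : Γ) (s : ℤˣ) :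
    wsg p ρ hp (γ, s) = ρ γ * psg F p s := rfl

end Op

section Avg

variable {F : Type} [Field F] [CharZero F] {ι : Type} [Fintype ι] [DecidableEq ι]

/-- A complement stable under operators and under an involution commuting with them. -/
lemma avg {n : ℕ} (G : Set (Matrix ι ι F)) {E : Matrix ι ι F} (hE : E * E = 1)
    (hcomm : ∀ g ∈ G, g * E = E * g) {U W₀ : Submodule F ((Fin n → ι) → F)}
    (hU : ∀ g ∈ G, ∀ x ∈ U, kpw n g *ᵥ x ∈ U) (hUE : ∀ x ∈ U, kpw n E *ᵥ x ∈ U)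
    (hW₀ : ∀ g ∈ G, ∀ x ∈ W₀, kpw n g *ᵥ x ∈ W₀) (hc : IsCompl U W₀) :
    ∃ W : Submodule F ((Fin n → ι) → F), (∀ g ∈ G, ∀ x ∈ W, kpw n g *ᵥ x ∈ W) ∧
      (∀ x ∈ W, kpw n E *ᵥ x ∈ W) ∧ IsCompl U W := by
  have hEE : ∀ x : (Fin n → ι) → F, kpw n E *ᵥ (kpw n E *ᵥ x) = x := fun x => by
    rw [Matrix.mulVec_mulVec, ← kpw_mul, hE, kpw_one, Matrix.one_mulVec]
  let pr : ((Fin n → ι) → F) →ₗ[F] ((Fin n → ι) → F) :=
    U.subtype ∘ₗ Submodule.projectionOnto U W₀ hc
  have hprU : ∀ x, pr x ∈ U := fun x => (Submodule.projectionOnto U W₀ hc x).2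
  have hprx : ∀ x ∈ U, pr x = x := by
    intro x hx
    change ((Submodule.projectionOnto U W₀ hc x : U) : (Fin n → ι) → F) = x
    rw [Submodule.projectionOnto_apply_left hc ⟨x, hx⟩]
  have hpr0 : ∀ x ∈ W₀, pr x = 0 := by
    intro x hx
    change ((Submodule.projectionOnto U W₀ hc x : U) : (Fin n → ι) → F) = 0
    rw [(Submodule.projectionOnto_apply_eq_zero_iff hc).2 hx]
    rfl
  have hprg : ∀ g ∈ G, ∀ z, kpw n g *ᵥ pr z = pr (kpw n g *ᵥ z) := by
    intro g hg z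
    obtain ⟨u, hu, v, hv, rfl⟩ : ∃ u ∈ U, ∃ v ∈ W₀, u + v = z :=
      Submodule.mem_sup.1 (by rw [hc.sup_eq_top]; exact Submodule.mem_top)
    rw [Matrix.mulVec_add, map_add, map_add, hprx u hu, hpr0 v hv, hprx _ (hU g hg u hu),
      hpr0 _ (hW₀ g hg v hv), add_zero, add_zero]
  let π : ((Fin n → ι) → F) →ₗ[F] U :=
    { toFun := fun x => ⟨(2 : F)⁻¹ • (pr x + kpw n E *ᵥ pr (kpw n E *ᵥ x)),
        U.smul_mem _ (U.add_mem (hprU x) (hUE _ (hprU _)))⟩
      map_add' := fun x y => by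
        apply Subtype.ext
        change (2 : F)⁻¹ • (pr (x + y) + kpw n E *ᵥ pr (kpw n E *ᵥ (x + y))) =
          (2 : F)⁻¹ • (pr x + kpw n E *ᵥ pr (kpw n E *ᵥ x)) +
            (2 : F)⁻¹ • (pr y + kpw n E *ᵥ pr (kpw n E *ᵥ y))
        rw [map_add, Matrix.mulVec_add, map_add, Matrix.mulVec_add, ← smul_add]
        congr 1
        abel
      map_smul' := fun c x => by
        apply Subtype.ext
        change (2 : F)⁻¹ • (pr (c • x) + kpw n E *ᵥ pr (kpw n E *ᵥ (c • x))) =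
          c • ((2 : F)⁻¹ • (pr x + kpw n E *ᵥ pr (kpw n E *ᵥ x)))
        rw [map_smul, Matrix.mulVec_smul, map_smul, Matrix.mulVec_smul, ← smul_add,
          smul_comm] }
  have hπ : ∀ x : U, π x = x := by
    intro x
    apply Subtype.ext
    change (2 : F)⁻¹ • (pr x + kpw n E *ᵥ pr (kpw n E *ᵥ x)) = x
    rw [hprx x x.2, hprx _ (hUE x x.2), hEE, ← two_smul F (x : (Fin n → ι) → F), smul_smul,
      inv_mul_cancel₀ (two_ne_zero), one_smul]
  have hval : ∀ x, ((π x : U) : (Fin n → ι) → F) =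
      (2 : F)⁻¹ • (pr x + kpw n E *ᵥ pr (kpw n E *ᵥ x)) := fun x => rfl
  refine ⟨LinearMap.ker π, fun g hg x hx => ?_, fun x hx => ?_, LinearMap.isCompl_of_proj hπ⟩
  · have h1 : ((π x : U) : (Fin n → ι) → F) = 0 := by
      rw [LinearMap.mem_ker.1 hx]
      rfl
    rw [LinearMap.mem_ker]
    apply Subtype.ext
    rw [hval]
    rw [hval] at h1
    have h2 : kpw n g * kpw n E = kpw n E * kpw n g := by
      rw [← kpw_mul, ← kpw_mul, hcomm g hg]
    have h3 : kpw n E *ᵥ (kpw n g *ᵥ x) = kpw n g *ᵥ (kpw n E *ᵥ x) := by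
      rw [Matrix.mulVec_mulVec, Matrix.mulVec_mulVec, h2]
    rw [h3, ← hprg g hg, ← hprg g hg]
    have h4 : kpw n E *ᵥ (kpw n g *ᵥ pr (kpw n E *ᵥ x)) =
        kpw n g *ᵥ (kpw n E *ᵥ pr (kpw n E *ᵥ x)) := by
      rw [Matrix.mulVec_mulVec, Matrix.mulVec_mulVec, h2]
    rw [h4, ← Matrix.mulVec_add, ← Matrix.mulVec_smul, h1, Matrix.mulVec_zero]
    rfl
  · have h1 : ((π x : U) : (Fin n → ι) → F) = 0 := by
      rw [LinearMap.mem_ker.1 hx]
      rfl
    rw [LinearMap.mem_ker]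
    apply Subtype.ext
    rw [hval]
    rw [hval] at h1
    have h2 : pr (kpw n E *ᵥ x) + kpw n E *ᵥ pr (kpw n E *ᵥ (kpw n E *ᵥ x)) =
        kpw n E *ᵥ (pr x + kpw n E *ᵥ pr (kpw n E *ᵥ x)) := by
      rw [hEE, Matrix.mulVec_add, hEE, add_comm]
    rw [h2, ← Matrix.mulVec_smul, h1, Matrix.mulVec_zero]
    rfl

end Avg

section Bound

variable {C : Type} [Field C] [CharZero C] {ι : Type} [Fintype ι] [DecidableEq ι] {A : Type}
  {lam : A → Cˣ → Matrix ι ι C}

lemma Mon_comm {E : Matrix ι ι C} (hE : ∀ a t, lam a t * E = E * lam a t) {h : Matrix ι ι C}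
    (hh : h ∈ Mon lam) : h * E = E * h := by
  rw [Mon] at hh
  induction hh using Submonoid.closure_induction with
  | mem h hh =>
    obtain ⟨a, t, rfl⟩ := hh
    exact hE a t
  | one => rw [Matrix.one_mul, Matrix.mul_one]
  | mul x y _ _ hx hy => rw [Matrix.mul_assoc, hy, ← Matrix.mul_assoc, hx, Matrix.mul_assoc]

lemma Lv_E {E : Matrix ι ι C} (hE : ∀ a t, lam a t * E = E * lam a t) {w n : ℕ}
    {v : (Fin n → ι) → C} (hv : v ∈ Lv lam w n) : kpw n E *ᵥ v ∈ Lv lam w n := by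
  intro h hh a
  obtain ⟨c, hc⟩ := hv h hh a
  refine ⟨fun k => kpw n E *ᵥ c k, fun t => ?_⟩
  have h1 : kpw n (lam a t) *ᵥ (kpw n h *ᵥ (kpw n E *ᵥ v)) =
      kpw n E *ᵥ (kpw n (lam a t) *ᵥ (kpw n h *ᵥ v)) := by
    simp only [Matrix.mulVec_mulVec, ← kpw_mul]
    rw [Mon_comm hE hh, ← Matrix.mul_assoc, hE, Matrix.mul_assoc]
  rw [h1, hc t, Matrix.mulVec_sum]
  exact Finset.sum_congr rfl fun k _ => Matrix.mulVec_smul _ _ _

/-- The polynomial `g ↦ f (g E)`. -/
noncomputable def rmul (E : Matrix ι ι C) (f : MvPolynomial (ι × ι) C) : MvPolynomial (ι × ι) C :=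
  MvPolynomial.aeval (fun x : ι × ι => ∑ l, MvPolynomial.C (E l x.2) * MvPolynomial.X (x.1, l)) f

lemma eval_rmul (E g : Matrix ι ι C) (f : MvPolynomial (ι × ι) C) :
    MvPolynomial.eval (ent g) (rmul E f) = MvPolynomial.eval (ent (g * E)) f := by
  rw [rmul, ← MvPolynomial.coe_aeval_eq_eval, ← MvPolynomial.coe_aeval_eq_eval]
  change MvPolynomial.aeval (ent g) (MvPolynomial.aeval _ f) = MvPolynomial.aeval (ent (g * E)) f
  rw [MvPolynomial.comp_aeval_apply]
  congr 2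
  funext x
  rw [map_sum]
  change _ = (g * E) x.1 x.2
  rw [Matrix.mul_apply]
  refine Finset.sum_congr rfl fun l _ => ?_
  rw [map_mul, MvPolynomial.aeval_X, MvPolynomial.aeval_C, mul_comm]
  rfl

/-- **Matrix coefficients of bounded level**, on two cosets. -/
theorem exists_N2 (hG : S_GEN) {w₀ : ℕ} {P : A → ℤ → Matrix ι ι C}
    (hlam : ∀ a t, lam a t = ∑ k ∈ Finset.Icc (-w₀ : ℤ) w₀, ((t ^ k : Cˣ) : C) • P a k)
    (h1 : ∀ a, lam a 1 = 1) {E : Matrix ι ι C} (hE : ∀ a t, lam a t * E = E * lam a t) (w : ℕ) :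
    ∃ N : ℕ, ∀ n, ∀ v ∈ Lv lam w n, ∀ i, ∃ q ∈ Ep C ι N, ∀ h ∈ Mon lam,
      MvPolynomial.eval (ent h) (mc n v i) = MvPolynomial.eval (ent h) q ∧
      MvPolynomial.eval (ent (h * E)) (mc n v i) = MvPolynomial.eval (ent (h * E)) q := by
  obtain ⟨r, s, hs⟩ := hG C ι A w₀ P lam hlam h1
  let res : MvPolynomial (ι × ι) C →ₗ[C] ((Fin r → Cˣ) → C) × ((Fin r → Cˣ) → C) :=
    { toFun := fun f => (fun t => MvPolynomial.eval
          (ent (List.ofFn fun i => lam (s i) (t i)).prod) f,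
        fun t => MvPolynomial.eval (ent ((List.ofFn fun i => lam (s i) (t i)).prod * E)) f)
      map_add' := fun f g => by
        refine Prod.ext ?_ ?_ <;> · funext t; exact map_add _ _ _
      map_smul' := fun a f => by
        refine Prod.ext ?_ ?_ <;> · funext t; exact MvPolynomial.smul_eval _ _ _ }
  let Q : ℕ → Submodule C (MvPolynomial (ι × ι) C) := fun n =>
    Submodule.span C {f | ∃ m ≤ n, ∃ v ∈ Lv lam w m, ∃ i, f = mc m v i}
  have hQ : ∀ {n n' : ℕ}, n ≤ n' → Q n ≤ Q n' := by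
    intro n n' h
    refine Submodule.span_mono ?_
    rintro f ⟨m, hm, v, hv, i, rfl⟩
    exact ⟨m, hm.trans h, v, hv, i, rfl⟩
  have hR : ∀ n, (Q n).map res ≤ (Bx C w r).prod (Bx C w r) := by
    intro n
    rw [Submodule.map_span_le]
    rintro f ⟨m, hm, v, hv, i, rfl⟩
    refine ⟨res_mem hv r s i, ?_⟩
    have h2 := res_mem (Lv_E hE hv) r s i
    have h3 : (fun t : Fin r → Cˣ => MvPolynomial.eval
        (ent (List.ofFn fun i => lam (s i) (t i)).prod) (mc m (kpw m E *ᵥ v) i)) =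
        fun t : Fin r → Cˣ => MvPolynomial.eval
          (ent ((List.ofFn fun i => lam (s i) (t i)).prod * E)) (mc m v i) := by
      funext t
      rw [eval_mc, eval_mc, Matrix.mulVec_mulVec, kpw_mul]
    rw [h3] at h2
    exact h2
  let f : ℕ →o Submodule C ((Bx C w r).prod (Bx C w r)) :=
    ⟨fun n => ((Q n).map res).comap ((Bx C w r).prod (Bx C w r)).subtype, fun n n' h =>
      Submodule.comap_mono (Submodule.map_mono (hQ h))⟩
  have : FiniteDimensional C ((Bx C w r).prod (Bx C w r)) :=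
    Module.Finite.iff_fg.2 ((Module.Finite.iff_fg.1 inferInstance).prod
      (Module.Finite.iff_fg.1 inferInstance))
  obtain ⟨N₀, hN₀⟩ := monotone_stabilizes_iff_noetherian.2
    (inferInstance : IsNoetherian C ((Bx C w r).prod (Bx C w r))) f
  refine ⟨N₀, fun n v hv i => ?_⟩
  have h2 : res (mc n v i) ∈ (Q N₀).map res := by
    have h3 : res (mc n v i) ∈ (Q (max n N₀)).map res :=
      Submodule.mem_map_of_mem (Submodule.subset_span ⟨n, le_max_left _ _, v, hv, i, rfl⟩)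
    have h4 : (⟨res (mc n v i), hR _ h3⟩ : (Bx C w r).prod (Bx C w r)) ∈ f (max n N₀) := h3
    rw [← hN₀ _ (le_max_right n N₀)] at h4
    exact h4
  obtain ⟨q, hq, hq'⟩ := h2
  have hq1 := congrArg Prod.fst hq'
  have hq2 := congrArg Prod.snd hq'
  refine ⟨q, ?_, fun h hh => ⟨?_, ?_⟩⟩
  · have h3 : Q N₀ ≤ Ep C ι N₀ := by
      refine Submodule.span_mono ?_
      rintro f ⟨m, hm, v, _, i, rfl⟩
      exact ⟨m, hm, v, i, rfl⟩
    exact h3 hq
  · have h3 := hs (mc n v i - q) (fun t => by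
      rw [map_sub, sub_eq_zero]
      exact (congrFun hq1 t).symm) h hh
    rw [map_sub, sub_eq_zero] at h3
    exact h3
  · have h3 := hs (rmul E (mc n v i - q)) (fun t => by
      rw [eval_rmul, map_sub, sub_eq_zero]
      exact (congrFun hq2 t).symm) h hh
    rw [eval_rmul, map_sub, sub_eq_zero] at h3
    exact h3

end Bound

end Pool.Agent.K6.H94.TG
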