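import Mathlib
import Pool.Agent.K6.H94.TG.Evn

/-!
# One power suffices: even Tate classes, over fields of arbitrary characteristic
-/

set_option autoImplicit false
set_option linter.unusedSectionVars false

namespace Pool.Agent.K6.H94.TG

open Matrix

section Grp

variable {C : Type} [Field C] [CharZero C] {ι : Type} [Fintype ι] [DecidableEq ι] {A : Type}
  {P : A → ℤ → Matrix ι ι C} {w₀ w : ℕ} {E : Matrix ι ι C}

/-- The bound for the matrix coefficients of bounded level is invariant under conjugation by matrices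
which commute with the parity operator. -/
lemma bound_conj2 {N : ℕ} (hN : ∀ n, ∀ v ∈ Lv (fun a t => cochar (P a) w₀ t) w n, ∀ i,
      ∃ q ∈ Ep C ι N, ∀ h ∈ Mon fun a t => cochar (P a) w₀ t,
        MvPolynomial.eval (ent h) (mc n v i) = MvPolynomial.eval (ent h) q ∧
        MvPolynomial.eval (ent (h * E)) (mc n v i) = MvPolynomial.eval (ent (h * E)) q)
    (g : (Matrix ι ι C)ˣ) (hg : ((g⁻¹ : (Matrix ι ι C)ˣ) : Matrix ι ι C) * E =
      E * ((g⁻¹ : (Matrix ι ι C)ˣ) : Matrix ι ι C)) :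
    ∀ n, ∀ v ∈ Lv (fun a t => cochar (conj g P a) w₀ t) w n, ∀ i,
      ∃ q ∈ Ep C ι N, ∀ h ∈ Mon fun a t => cochar (conj g P a) w₀ t,
        MvPolynomial.eval (ent h) (mc n v i) = MvPolynomial.eval (ent h) q ∧
        MvPolynomial.eval (ent (h * E)) (mc n v i) = MvPolynomial.eval (ent (h * E)) q := by
  intro n v hv i
  choose q hq hqe using hN n _ (Lv_conj g hv)
  choose q' hq' hqe' using fun j => Ep_conj g (hq j)
  refine ⟨∑ j, kpw n (g : Matrix ι ι C) i j • q' j, Submodule.sum_mem _ fun j _ =>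
    Submodule.smul_mem _ _ (hq' j), fun h hh => ?_⟩
  obtain ⟨h₀, hh₀, rfl⟩ := exists_of_Mon_conj g hh
  have h1 : (g : Matrix ι ι C) * h₀ * ((g⁻¹ : (Matrix ι ι C)ˣ) : Matrix ι ι C) * E =
      (g : Matrix ι ι C) * (h₀ * E) * ((g⁻¹ : (Matrix ι ι C)ˣ) : Matrix ι ι C) := by
    rw [Matrix.mul_assoc, hg]
    simp only [Matrix.mul_assoc]
  rw [h1]
  refine ⟨?_, ?_⟩
  · rw [eval_mc, kpw_conj, Matrix.mulVec, dotProduct, map_sum]
    refine Finset.sum_congr rfl fun j _ => ?_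
    rw [MvPolynomial.smul_eval, hqe' j, ← (hqe j h₀ hh₀).1, eval_mc]
  · rw [eval_mc, kpw_conj, Matrix.mulVec, dotProduct, map_sum]
    refine Finset.sum_congr rfl fun j _ => ?_
    rw [MvPolynomial.smul_eval, hqe' j, ← (hqe j h₀ hh₀).2, eval_mc]

/-- The group generated by the cocharacters and the parity operator. -/
def Gp2 (P : A → ℤ → Matrix ι ι C) (w₀ : ℕ) (E : Matrix ι ι C) : Subgroup (Matrix ι ι C)ˣ :=
  Subgroup.closure {u | (∃ a t, (u : Matrix ι ι C) = cochar (P a) w₀ t) ∨ (u : Matrix ι ι C) = E}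

/-- Its representation. -/
def gpr2 (P : A → ℤ → Matrix ι ι C) (w₀ : ℕ) (E : Matrix ι ι C) :
    Gp2 P w₀ E →* Matrix ι ι C :=
  (Units.coeHom (Matrix ι ι C)).comp (Gp2 P w₀ E).subtype

lemma inv_eq_of_sq (hE : E * E = 1) {u : (Matrix ι ι C)ˣ} (hu : (u : Matrix ι ι C) = E) :
    ((u⁻¹ : (Matrix ι ι C)ˣ) : Matrix ι ι C) = E := by
  calc ((u⁻¹ : (Matrix ι ι C)ˣ) : Matrix ι ι C) =
        (E * (u : Matrix ι ι C)) * ((u⁻¹ : (Matrix ι ι C)ˣ) : Matrix ι ι C) := by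
        rw [hu, hE, Matrix.one_mul]
    _ = E := by rw [Matrix.mul_assoc, Units.mul_inv, Matrix.mul_one]

lemma Gp2_stable (hP : ∀ a, IsGrading (P a) w₀) (hE : E * E = 1) {n : ℕ}
    {W : Submodule C ((Fin n → ι) → C)}
    (hW : ∀ a t, ∀ x ∈ W, kpw n (cochar (P a) w₀ t) *ᵥ x ∈ W)
    (hWE : ∀ x ∈ W, kpw n E *ᵥ x ∈ W) {u : (Matrix ι ι C)ˣ}
    (hu : u ∈ Gp2 P w₀ E) : (∀ x ∈ W, kpw n (u : Matrix ι ι C) *ᵥ x ∈ W) ∧
      ∀ x ∈ W, kpw n ((u⁻¹ : (Matrix ι ι C)ˣ) : Matrix ι ι C) *ᵥ x ∈ W := by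
  rw [Gp2] at hu
  induction hu using Subgroup.closure_induction with
  | mem u hu =>
    rcases hu with ⟨a, t, hu⟩ | hu
    · refine ⟨fun x hx => ?_, fun x hx => ?_⟩
      · rw [hu]
        exact hW a t x hx
      · rw [cochar_inv_eq hP hu]
        exact hW a t⁻¹ x hx
    · refine ⟨fun x hx => ?_, fun x hx => ?_⟩
      · rw [hu]
        exact hWE x hx
      · rw [inv_eq_of_sq hE hu]
        exact hWE x hx
  | one =>
    refine ⟨fun x hx => ?_, fun x hx => ?_⟩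
    · rw [Units.val_one, kpw_one, Matrix.one_mulVec]
      exact hx
    · rw [inv_one, Units.val_one, kpw_one, Matrix.one_mulVec]
      exact hx
  | mul u v _ _ hu hv =>
    refine ⟨fun x hx => ?_, fun x hx => ?_⟩
    · rw [Units.val_mul, kpw_mul, ← Matrix.mulVec_mulVec]
      exact hu.1 _ (hv.1 x hx)
    · rw [_root_.mul_inv_rev, Units.val_mul, kpw_mul, ← Matrix.mulVec_mulVec]
      exact hv.2 _ (hu.2 x hx)
  | inv u _ hu =>
    refine ⟨hu.2, ?_⟩
    rw [inv_inv]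
    exact hu.1

lemma exists_unit2 (hP : ∀ a, IsGrading (P a) w₀) (a : A) (t : Cˣ) :
    ∃ u ∈ Gp2 P w₀ E, (u : Matrix ι ι C) = cochar (P a) w₀ t := by
  let u : (Matrix ι ι C)ˣ := ⟨cochar (P a) w₀ t, cochar (P a) w₀ t⁻¹, by
    rw [cochar_mul (hP a), mul_inv_cancel, cochar_one (hP a)], by
    rw [cochar_mul (hP a), inv_mul_cancel, cochar_one (hP a)]⟩
  exact ⟨u, Subgroup.subset_closure (Or.inl ⟨a, t, rfl⟩), rfl⟩

lemma exists_unitE (hE : E * E = 1) : ∃ u ∈ Gp2 P w₀ E, (u : Matrix ι ι C) = E :=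
  ⟨⟨E, E, hE, hE⟩, Subgroup.subset_closure (Or.inr rfl), rfl⟩

lemma gp2_cr (hP : ∀ a, IsGrading (P a) w₀) (hred : GeneratesReductive P w₀) (hE : E * E = 1)
    (hcomm : ∀ a t, cochar (P a) w₀ t * E = E * cochar (P a) w₀ t) (n : ℕ) :
    CR (gpr2 P w₀ E) n := by
  intro U hU
  have hU1 : ∀ a t, ∀ x ∈ U, kpw n (cochar (P a) w₀ t) *ᵥ x ∈ U := fun a t x hx => by
    obtain ⟨u, hu, hu'⟩ := exists_unit2 (E := E) hP a t
    rw [← hu']
    exact hU ⟨u, hu⟩ x hx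
  have hU2 : ∀ x ∈ U, kpw n E *ᵥ x ∈ U := fun x hx => by
    obtain ⟨u, hu, hu'⟩ := exists_unitE (P := P) (w₀ := w₀) hE
    have h1 := hU ⟨u, hu⟩ x hx
    change kpw n (u : Matrix ι ι C) *ᵥ x ∈ U at h1
    rwa [hu'] at h1
  obtain ⟨W₀, hW₀, hc⟩ := hred n U hU1
  obtain ⟨W, hW, hWE, hc'⟩ := avg {g | ∃ a t, g = cochar (P a) w₀ t} hE
    (by rintro _ ⟨a, t, rfl⟩; exact hcomm a t) (U := U) (W₀ := W₀)
    (by rintro _ ⟨a, t, rfl⟩; exact hU1 a t) hU2 (by rintro _ ⟨a, t, rfl⟩; exact hW₀ a t) hc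
  exact ⟨W, fun g x hx => (Gp2_stable hP hE (fun a t => hW _ ⟨a, t, rfl⟩) hWE g.2).1 x hx, hc'⟩

lemma mem_fixed_gp2 {n : ℕ} {x : (Fin n → ι) → C}
    (hx : ∀ a t, kpw n (cochar (P a) w₀ t) *ᵥ x = x) (hxE : kpw n E *ᵥ x = x) :
    x ∈ Fixed (gpr2 P w₀ E) n := by
  rintro ⟨u, hu⟩
  change kpw n (u : Matrix ι ι C) *ᵥ x = x
  rw [Gp2] at hu
  induction hu using Subgroup.closure_induction with
  | mem u hu =>
    rcases hu with ⟨a, t, hu⟩ | hu
    · rw [hu]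
      exact hx a t
    · rw [hu]
      exact hxE
  | one => rw [Units.val_one, kpw_one, Matrix.one_mulVec]
  | mul u v _ _ hu hv => rw [Units.val_mul, kpw_mul, ← Matrix.mulVec_mulVec, hv, hu]
  | inv u _ hu =>
    conv_lhs => rw [← hu]
    exact kpw_inv_cancel n u x

lemma fixed_gp2_cochar (hP : ∀ a, IsGrading (P a) w₀) {n : ℕ} {x : (Fin n → ι) → C}
    (hx : x ∈ Fixed (gpr2 P w₀ E) n) (a : A) (t : Cˣ) :
    kpw n (cochar (P a) w₀ t) *ᵥ x = x := by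
  obtain ⟨u, hu, hu'⟩ := exists_unit2 (E := E) hP a t
  rw [← hu']
  exact hx ⟨u, hu⟩

lemma fixed_gp2_E (hE : E * E = 1) {n : ℕ} {x : (Fin n → ι) → C}
    (hx : x ∈ Fixed (gpr2 P w₀ E) n) : kpw n E *ᵥ x = x := by
  obtain ⟨u, hu, hu'⟩ := exists_unitE (P := P) (w₀ := w₀) hE
  have h1 := hx ⟨u, hu⟩
  change kpw n (u : Matrix ι ι C) *ᵥ x = x at h1
  rwa [hu'] at h1

end Grp

section Act

variable {K : Type} [Field K] {ι μ : Type} [Fintype ι] [DecidableEq ι] [Fintype μ]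
  [DecidableEq μ]

lemma act_one {n : ℕ} (y : (Fin n → ι) → μ → K) : act 1 1 y = y := by
  funext i m
  rw [act, Finset.sum_eq_single i]
  · rw [Finset.sum_eq_single m]
    · rw [kpw_one, Matrix.one_apply_eq, Matrix.one_apply_eq, one_mul, one_mul]
    · intro m' _ hm'
      rw [Matrix.one_apply_ne (Ne.symm hm'), mul_zero, zero_mul]
    · intro h
      exact absurd (Finset.mem_univ m) h
  · intro j _ hj
    refine Finset.sum_eq_zero fun m' _ => ?_
    rw [kpw_one, Matrix.one_apply_ne (Ne.symm hj), zero_mul, zero_mul]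
  · intro h
    exact absurd (Finset.mem_univ i) h

lemma act_mul {n : ℕ} (g g' : Matrix ι ι K) (h h' : Matrix μ μ K) (y : (Fin n → ι) → μ → K) :
    act (g * g') (h * h') y = act g h (act g' h' y) := by
  funext i m
  simp only [act, kpw_mul, Matrix.mul_apply, Finset.sum_mul, Finset.mul_sum]
  calc ∑ j, ∑ m', ∑ m'', ∑ j', kpw n g i j' * kpw n g' j' j * (h m m'' * h' m'' m') * y j m' =
        ∑ j, ∑ m', ∑ j', ∑ m'', kpw n g i j' * kpw n g' j' j * (h m m'' * h' m'' m') *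
          y j m' := by
        refine Finset.sum_congr rfl fun j _ => Finset.sum_congr rfl fun m' _ => ?_
        rw [Finset.sum_comm]
    _ = ∑ j, ∑ j', ∑ m', ∑ m'', kpw n g i j' * kpw n g' j' j * (h m m'' * h' m'' m') *
          y j m' := by
        refine Finset.sum_congr rfl fun j _ => ?_
        rw [Finset.sum_comm]
    _ = ∑ j', ∑ j, ∑ m', ∑ m'', kpw n g i j' * kpw n g' j' j * (h m m'' * h' m'' m') *
          y j m' := Finset.sum_comm
    _ = ∑ j', ∑ j, ∑ m'', ∑ m', kpw n g i j' * kpw n g' j' j * (h m m'' * h' m'' m') *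
          y j m' := by
        refine Finset.sum_congr rfl fun j' _ => Finset.sum_congr rfl fun j _ => ?_
        rw [Finset.sum_comm]
    _ = ∑ j', ∑ m'', ∑ j, ∑ m', kpw n g i j' * h m m'' * (kpw n g' j' j * h' m'' m' *
          y j m') := by
        refine Finset.sum_congr rfl fun j' _ => ?_
        rw [Finset.sum_comm]
        refine Finset.sum_congr rfl fun m'' _ => Finset.sum_congr rfl fun j _ =>
          Finset.sum_congr rfl fun m' _ => ?_
        ring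

end Act

section Main

variable {C : Type} [Field C] [CharZero C] {ι : Type} [Fintype ι] [DecidableEq ι] {A : Type}
  {P : A → ℤ → Matrix ι ι C} {w₀ : ℕ}

lemma cochar_par {p : ι → Bool} (hPp : ∀ a k, PreservesParity p (P a k)) (a : A) (t : Cˣ) :
    Par p (cochar (P a) w₀ t) := by
  intro i j hij
  rw [cochar, Matrix.sum_apply]
  refine Finset.sum_eq_zero fun k _ => ?_
  rw [Matrix.smul_apply, hPp a k i j hij, smul_zero]

lemma inv_comm {E : Matrix ι ι C} {g : (Matrix ι ι C)ˣ}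
    (hg : (g : Matrix ι ι C) * E = E * (g : Matrix ι ι C)) :
    ((g⁻¹ : (Matrix ι ι C)ˣ) : Matrix ι ι C) * E =
      E * ((g⁻¹ : (Matrix ι ι C)ˣ) : Matrix ι ι C) := by
  calc ((g⁻¹ : (Matrix ι ι C)ˣ) : Matrix ι ι C) * E =
        ((g⁻¹ : (Matrix ι ι C)ˣ) : Matrix ι ι C) * (E * (g : Matrix ι ι C)) *
          ((g⁻¹ : (Matrix ι ι C)ˣ) : Matrix ι ι C) := by
        rw [Matrix.mul_assoc, Matrix.mul_assoc, Units.mul_inv, Matrix.mul_one]
    _ = ((g⁻¹ : (Matrix ι ι C)ˣ) : Matrix ι ι C) * ((g : Matrix ι ι C) * E) *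
          ((g⁻¹ : (Matrix ι ι C)ˣ) : Matrix ι ι C) := by rw [hg]
    _ = E * ((g⁻¹ : (Matrix ι ι C)ˣ) : Matrix ι ι C) := by
        rw [← Matrix.mul_assoc ((g⁻¹ : (Matrix ι ι C)ˣ) : Matrix ι ι C), Units.inv_mul,
          Matrix.one_mul]

/-- **Main theorem for even Tate classes**: the number `N` depends only on the cocharacters and the
parity, up to conjugation, and on `w`. -/
theorem main_even {p : ι → Bool} (hP : ∀ a, IsGrading (P a) w₀)
    (hPp : ∀ a k, PreservesParity p (P a k)) (hred : GeneratesReductive P w₀) (w : ℕ) :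
    ∃ N : ℕ, ∀ (K : Type) [Field K] [Algebra K C] (Γ : Type) [Group Γ] (ρ : Γ →* Matrix ι ι K)
      (B : Matrix ι ι K) (g : (Matrix ι ι C)ˣ), PreservesParity p (g : Matrix ι ι C) →
      IsParity p ρ → PreservesParity p B →
      (∀ γ, (ρ γ)ᵀ * B * ρ γ = B) → IsUnit B → IsGenerated ρ (conj g P) w₀ →
      ∀ (μ : Type) [Fintype μ] [DecidableEq μ] (q : μ → Bool) (τ : Γ →* Matrix μ μ K),
      IsParity q τ → LevelLE ρ (conj g P) w₀ τ w →
      ∀ (Cl : ∀ n, Submodule K ((Fin n → ι) → K)) (S : ∀ n, Submodule K ((Fin n → ι) → μ → K)),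
        IsSystem p B Cl S → (∀ m ≤ N, ∀ x, IsEvenTate p ρ m x → x ∈ Cl m) →
        (∀ m ≤ N, ∀ y, IsEvenTateM p q ρ τ m y → y ∈ S m) →
        (∀ n x, IsEvenTate p ρ n x → x ∈ Cl n) ∧
          ∀ n y, IsEvenTateM p q ρ τ n y → y ∈ S n := by
  have hE1 : sgnop C p * sgnop C p = 1 := sgnop_mul_self
  have hcomm : ∀ a t, cochar (P a) w₀ t * sgnop C p = sgnop C p * cochar (P a) w₀ t :=
    fun a t => sgnop_comm (cochar_par hPp a t)
  obtain ⟨N₁, hN₁⟩ := hil C ι (Gp2 P w₀ (sgnop C p)) (gpr2 P w₀ (sgnop C p))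
    (gp2_cr hP hred hE1 hcomm)
  obtain ⟨N₂, hN₂⟩ := exists_N2 gen (lam := fun a t => cochar (P a) w₀ t) (fun _ _ => rfl)
    (fun a => cochar_one (hP a)) (E := sgnop C p) hcomm w
  refine ⟨max N₁ N₂, fun K _ _ Γ _ ρ B g hgp hp hBp hB hBu hgen μ _ _ q τ hq hlev Cl S hS hC
    hSm => ?_⟩
  have : CharZero K := (algebraMap K C).charZero
  have hgE : (g : Matrix ι ι C) * sgnop C p = sgnop C p * (g : Matrix ι ι C) := sgnop_comm hgp
  have hgE' := inv_comm hgE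
  obtain ⟨Δ₀, hfin, hΔ₀⟩ := hgen
  have hCl : ∀ n x, IsEvenTate p ρ n x → x ∈ Cl n := by
    have h1 := hN₁ (Big g (Hom p Cl)) (Big_isSys (Hom_isSys hS.1) g) (fun m hm x hx => by
      rw [mem_Big]
      refine mem_spn_of_red fun r => ?_
      rw [mem_Hom]
      intro e
      refine hC m (hm.trans (le_max_left _ _)) _ ⟨⟨Δ₀, hfin, fun δ hδ => ?_⟩, ?_⟩
      · rw [kpw_part (hp δ), ← red_mulVec, fixed_of_cochar hΔ₀ (fun a t => ?_) hδ]
        rw [cochar_conj, kpw_conj, kpw_inv_cancel, fixed_gp2_cochar hP hx]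
      · have h2 : Par p (sgnop K p) := by
          rw [← psg_neg_one]
          exact par_psg _
        rw [kpw_part h2, ← red_mulVec, sgnop_map]
        congr 2
        rw [Matrix.mulVec_mulVec, ← kpw_mul, ← hgE, kpw_mul, ← Matrix.mulVec_mulVec,
          fixed_gp2_E hE1 hx])
    intro n x hx
    have h2 : kpw n ((g⁻¹ : (Matrix ι ι C)ˣ) : Matrix ι ι C) *ᵥ ext C x ∈
        Fixed (gpr2 P w₀ (sgnop C p)) n := by
      refine mem_fixed_gp2 (fun a t => ?_) ?_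
      · have h3 := tate_cochar hlev hx.1 a t
        rw [cochar_conj, kpw_conj] at h3
        have h4 := congrArg (fun z => kpw n ((g⁻¹ : (Matrix ι ι C)ˣ) : Matrix ι ι C) *ᵥ z) h3
        simp only [kpw_inv_cancel] at h4
        exact h4
      · rw [Matrix.mulVec_mulVec, ← kpw_mul, ← hgE', kpw_mul, ← Matrix.mulVec_mulVec]
        congr 1
        rw [← sgnop_map (algebraMap K C), map_kpw_mulVec, hx.2]
    have h3 := h1 n h2
    rw [mem_Big, kpw_cancel] at h3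
    have h4 := mem_of_ext_mem h3
    rw [mem_Hom] at h4
    rw [← sum_part (p := p) x]
    exact Submodule.sum_mem _ fun e _ => h4 e
  refine ⟨hCl, fun n y hy => ?_⟩
  obtain ⟨⟨Δ, hΔ, hy⟩, hyE⟩ := hy
  have hLv := slc_Lv hy fun a => by
    obtain ⟨e, he, Q, hQ, hcl⟩ := hlev a
    exact ⟨e, he, Q, hQ, hcl Δ hΔ⟩
  have hbd := bound_conj2 hN₂ g hgE'
  -- the group with the parity operator
  have hΔ₁ : (Δ ⊓ Δ₀).FiniteIndex := inferInstance
  have hm1 : ∀ δ ∈ Δ ⊓ Δ₀, ∀ s, ((δ, s) : Γ × ℤˣ) ∈ (Δ ⊓ Δ₀).prod ⊤ := fun δ hδ s =>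
    Subgroup.mem_prod.2 ⟨hδ, Subgroup.mem_top _⟩
  have hw1 : ∀ δ, wsg p ρ hp (δ, 1) = ρ δ := fun δ => by
    rw [wsg_apply, psg_one, Matrix.mul_one]
  have hw2 : wsg p ρ hp (1, -1) = sgnop K p := by
    rw [wsg_apply, map_one, Matrix.one_mul, psg_neg_one]
  have ht1 : ∀ δ, wsg q τ hq (δ, 1) = τ δ := fun δ => by
    rw [wsg_apply, psg_one, Matrix.mul_one]
  have ht2 : wsg q τ hq (1, -1) = sgnop K q := by
    rw [wsg_apply, map_one, Matrix.one_mul, psg_neg_one]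
  refine core_dec (C := C) (ρ := wsg p ρ hp) (τ := wsg q τ hq) sem (p := p) (B := B)
    ?_ ?_ hBu ((Δ ⊓ Δ₀).prod ⊤) ?_ (N₂ := N₂) (Cl := Cl) hS.2 ?_ ?_ n y ?_ ?_
  · rintro ⟨γ, s⟩
    exact par_mul (hp γ) (par_psg s)
  · rintro ⟨γ, s⟩
    rw [wsg_apply, Matrix.transpose_mul]
    have h1 : (psg K p s)ᵀ = psg K p s := Matrix.diagonal_transpose _
    have h2 : s * s = 1 := by
      rcases unit_cases s with h | h <;> rw [h] <;> simp
    calc (psg K p s)ᵀ * (ρ γ)ᵀ * B * (ρ γ * psg K p s) =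
          psg K p s * ((ρ γ)ᵀ * B * ρ γ) * psg K p s := by
          rw [h1]
          simp only [Matrix.mul_assoc]
      _ = B * (psg K p s * psg K p s) := by
          rw [hB γ, ← psg_comm hBp, Matrix.mul_assoc]
      _ = B := by rw [← psg_mul, h2, psg_one, Matrix.mul_one]
  · intro m U hU
    have hU1 : ∀ g ∈ {g | ∃ δ ∈ Δ ⊓ Δ₀, g = ρ δ}, ∀ x ∈ U, kpw m g *ᵥ x ∈ U := by
      rintro _ ⟨δ, hδ, rfl⟩ x hx
      have h1 := hU ⟨(δ, 1), hm1 δ hδ 1⟩ x hx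
      change kpw m (wsg p ρ hp (δ, 1)) *ᵥ x ∈ U at h1
      rwa [hw1] at h1
    have hU2 : ∀ x ∈ U, kpw m (sgnop K p) *ᵥ x ∈ U := by
      intro x hx
      have h1 := hU ⟨(1, -1), hm1 1 (Subgroup.one_mem _) (-1)⟩ x hx
      change kpw m (wsg p ρ hp (1, -1)) *ᵥ x ∈ U at h1
      rwa [hw2] at h1
    obtain ⟨W₀, hW₀, hc⟩ := cr_of_reductive (reductive_conj hred g) hΔ₀ hlev (Δ ⊓ Δ₀) hΔ₁
      inf_le_right m U (fun g x hx => hU1 _ ⟨g, g.2, rfl⟩ x hx)
    obtain ⟨W, hW, hWE, hc'⟩ := avg {g | ∃ δ ∈ Δ ⊓ Δ₀, g = ρ δ} (E := sgnop K p)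
      sgnop_mul_self (by rintro _ ⟨δ, _, rfl⟩; exact sgnop_comm (hp δ)) hU1 hU2
      (W₀ := W₀) (by rintro _ ⟨δ, hδ, rfl⟩ x hx; exact hW₀ ⟨δ, hδ⟩ x hx) hc
    refine ⟨W, ?_, hc'⟩
    rintro ⟨⟨δ, s⟩, hδs⟩ x hx
    have hδ := (Subgroup.mem_prod.1 hδs).1
    change kpw m (wsg p ρ hp (δ, s)) *ᵥ x ∈ W
    rw [wsg_apply, kpw_mul, ← Matrix.mulVec_mulVec]
    refine hW _ ⟨δ, hδ, rfl⟩ _ ?_
    rcases unit_cases s with h | h
    · rw [h, psg_one, kpw_one, Matrix.one_mulVec]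
      exact hx
    · rw [h, psg_neg_one]
      exact hWE x hx
  · intro m x hx
    refine hCl m x ⟨⟨Δ ⊓ Δ₀, hΔ₁, fun δ hδ => ?_⟩, ?_⟩
    · have h1 := hx (δ, 1) (hm1 δ hδ 1)
      rwa [hw1] at h1
    · have h1 := hx (1, -1) (hm1 1 (Subgroup.one_mem _) (-1))
      rwa [hw2] at h1
  · intro m hm z hz
    refine hSm m (hm.trans (le_max_right _ _)) z ⟨⟨Δ ⊓ Δ₀, hΔ₁, fun δ hδ => ?_⟩, ?_⟩
    · have h1 := hz (δ, 1) (hm1 δ hδ 1)
      rwa [hw1, ht1] at h1
    · have h1 := hz (1, -1) (hm1 1 (Subgroup.one_mem _) (-1))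
      rwa [hw2, ht2] at h1
  · rintro ⟨δ, s⟩ hδs
    have hδ := (Subgroup.mem_prod.1 hδs).1
    rw [wsg_apply, wsg_apply, act_mul]
    rcases unit_cases s with h | h
    · rw [h, psg_one, psg_one, act_one]
      exact hy δ hδ.1
    · rw [h, psg_neg_one, psg_neg_one, hyE]
      exact hy δ hδ.1
  · intro x hx i
    obtain ⟨f, hf, hfe⟩ := hbd n (ext C x) (hLv (ext_span_mem x hx)) i
    refine ⟨f, hf, ?_⟩
    rintro ⟨δ, s⟩ hδs
    have hδ := (Subgroup.mem_prod.1 hδs).1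
    rcases unit_cases s with h | h
    · have h1 := hΔ₀ (mc n (ext C x) i - f) (fun h hh => by
        rw [map_sub, (hfe h hh).1, sub_self]) δ hδ.2
      rw [map_sub, sub_eq_zero] at h1
      rw [h, hw1]
      exact h1
    · have h1 := hΔ₀ (rmul (sgnop C p) (mc n (ext C x) i - f)) (fun h hh => by
        rw [eval_rmul, map_sub, (hfe h hh).2, sub_self]) δ hδ.2
      rw [eval_rmul, map_sub, sub_eq_zero] at h1
      have h2 : (wsg p ρ hp (δ, s)).map (algebraMap K C) =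
          (ρ δ).map (algebraMap K C) * sgnop C p := by
        rw [wsg_apply, h, psg_neg_one, Matrix.map_mul, sgnop_map]
      rw [h2]
      exact h1

end Main

end Pool.Agent.K6.H94.TG
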