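import Mathlib
import Pool.Agent.K6.H94.TG.Asm
import Pool.Agent.K6.H94.TG.Gen
import Pool.Agent.K6.H94.TG.Sem
import Pool.Agent.K6.H94.TG.Hil

/-!
# One power suffices for all varieties of bounded level

The pieces `gen` and `sem` are by helper19, the piece `hil` by helper30.
-/

set_option autoImplicit false

namespace Pool.Agent.K6.H94.TG

open Matrix

variable {K C : Type} [Field K] [CharZero K] [Field C] [CharZero C] [Algebra K C] {Γ : Type}
  [Group Γ] {ι : Type} [Fintype ι] [DecidableEq ι] {ρ : Γ →* Matrix ι ι K} {A : Type}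
  {P : A → ℤ → Matrix ι ι C} {w₀ : ℕ}

/-- **Main theorem.** -/
theorem main {p : ι → Bool} {B : Matrix ι ι K}
    (hp : IsParity p ρ) (hCR : IsReductive ρ) (hB : ∀ γ, (ρ γ)ᵀ * B * ρ γ = B) (hBu : IsUnit B)
    (hP : ∀ a, IsGrading (P a) w₀) (hgen : IsGenerated ρ P w₀) (w : ℕ) :
    ∃ N : ℕ, ∀ (Γ' : Type) [Group Γ'] (f : Γ' →* Γ), f.range.FiniteIndex →
      ∀ (μ : Type) [Fintype μ] [DecidableEq μ] (τ : Γ' →* Matrix μ μ K),
      LevelLE (ρ.comp f) P w₀ τ w →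
      ∀ (Cl : ∀ n, Submodule K ((Fin n → ι) → K)) (S : ∀ n, Submodule K ((Fin n → ι) → μ → K)),
        IsSystem p B Cl S → (∀ m ≤ N, ∀ x, IsTate (ρ.comp f) m x → x ∈ Cl m) →
        (∀ m ≤ N, ∀ y, IsTateM (ρ.comp f) τ m y → y ∈ S m) →
        (∀ n x, IsTate (ρ.comp f) n x → x ∈ Cl n) ∧
          ∀ n y, IsTateM (ρ.comp f) τ n y → y ∈ S n :=
  main_of hil gen sem hp hCR hB hBu hP hgen w

end Pool.Agent.K6.H94.TG
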