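import Mathlib
import Pool.Agent.K6.H94.TG.Defs2

/-!
# Tate classes of bounded degree in the second factor, for abelian varieties: definitions

In the intended use `V = H^1(X)(1/2)` and `W = H^1(B)(1/2)` for abelian varieties `X` and `B`, with the
actions `ρ` and `τ` of the Galois group. All elements of `V` and `W` are odd.
-/

set_option autoImplicit false

namespace Pool.Agent.K6.H94.TG

open Matrix

variable {K : Type} [Field K] {Γ : Type} [Group Γ] {ι μ : Type} [Fintype ι] [DecidableEq ι]
  [Fintype μ] [DecidableEq μ]

/-- The tensor power `W^{⊗ j}` of the representation `τ`. -/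
def tpow (τ : Γ →* Matrix μ μ K) (j : ℕ) : Γ →* Matrix (Fin j → μ) (Fin j → μ) K where
  toFun γ := kpw j (τ γ)
  map_one' := by
    rw [map_one]
    ext i i'
    rw [kpw, Matrix.of_apply]
    by_cases h : i = i'
    · subst h
      rw [Matrix.one_apply_eq]
      exact Finset.prod_eq_one fun a _ => Matrix.one_apply_eq _
    · rw [Matrix.one_apply_ne h]
      obtain ⟨a, ha⟩ := Function.ne_iff.1 h
      exact Finset.prod_eq_zero (Finset.mem_univ a) (Matrix.one_apply_ne ha)
  map_mul' γ δ := by
    rw [map_mul]
    ext i i'
    simp only [kpw, Matrix.of_apply, Matrix.mul_apply]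
    rw [Finset.prod_univ_sum, Fintype.piFinset_univ]
    refine Finset.sum_congr rfl fun x _ => ?_
    rw [← Finset.prod_mul_distrib]

/-- A system of classes: subspaces `Cl n` of `V^{⊗ n}` stable under products and under exchanges of two
consecutive factors (with the sign `-1`), and subspaces `S j n` of `V^{⊗ n} ⊗ W^{⊗ j}` stable under
the correspondences in the `Cl n`. -/
def IsAbelianSystem (B : Matrix ι ι K) (Cl : ∀ n, Submodule K ((Fin n → ι) → K))
    (S : ∀ j n, Submodule K ((Fin n → ι) → (Fin j → μ) → K)) : Prop :=
  ∀ j, IsSystem (fun _ => true) B Cl (S j)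

end Pool.Agent.K6.H94.TG
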