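import Mathlib
import Pool.Agent.K6.H94.TG.Uni
import Pool.Agent.K6.H94.TG.TDefs

/-!
# The level of tensor powers
-/

set_option autoImplicit false
set_option linter.unusedSectionVars false

namespace Pool.Agent.K6.H94.TG

open Matrix

section Grading

variable {C : Type} [Field C] {μ : Type} [Fintype μ] [DecidableEq μ] {Q : ℤ → Matrix μ μ C} {w : ℕ}

/-- The tensor product of the projections with the indices `κ`. -/
def kq (Q : ℤ → Matrix μ μ C) {j : ℕ} (κ : Fin j → ℤ) : Matrix (Fin j → μ) (Fin j → μ) C :=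
  Matrix.of fun i i' => ∏ a, Q (κ a) (i a) (i' a)

/-- The grading of the tensor power. -/
noncomputable def tgr (Q : ℤ → Matrix μ μ C) (w j : ℕ) (k : ℤ) :
    Matrix (Fin j → μ) (Fin j → μ) C :=
  ∑ κ ∈ (Fintype.piFinset fun _ : Fin j => Finset.Icc (-w : ℤ) w).filter fun κ => ∑ a, κ a = k,
    kq Q κ

lemma kq_mul {j : ℕ} (hQ : IsGrading Q w) {κ κ' : Fin j → ℤ}
    (hκ : κ ∈ Fintype.piFinset fun _ : Fin j => Finset.Icc (-w : ℤ) w)
    (hκ' : κ' ∈ Fintype.piFinset fun _ : Fin j => Finset.Icc (-w : ℤ) w) :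
    kq Q κ * kq Q κ' = if κ = κ' then kq Q κ else 0 := by
  rw [Fintype.mem_piFinset] at hκ hκ'
  have h1 : kq Q κ * kq Q κ' = Matrix.of fun i i' => ∏ a, (Q (κ a) * Q (κ' a)) (i a) (i' a) := by
    ext i i'
    simp only [kq, Matrix.of_apply, Matrix.mul_apply]
    rw [Finset.prod_univ_sum, Fintype.piFinset_univ]
    refine Finset.sum_congr rfl fun x _ => ?_
    rw [← Finset.prod_mul_distrib]
  rw [h1]
  split_ifs with h
  · subst h
    ext i i'
    simp only [kq, Matrix.of_apply]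
    refine Finset.prod_congr rfl fun a _ => ?_
    rw [hQ.2 _ (hκ a) _ (hκ a), if_pos rfl]
  · obtain ⟨a, ha⟩ := Function.ne_iff.1 h
    ext i i'
    simp only [Matrix.of_apply, Matrix.zero_apply]
    refine Finset.prod_eq_zero (Finset.mem_univ a) ?_
    rw [hQ.2 _ (hκ a) _ (hκ' a), if_neg ha, Matrix.zero_apply]

lemma sum_mem_Icc {j : ℕ} {κ : Fin j → ℤ}
    (hκ : κ ∈ Fintype.piFinset fun _ : Fin j => Finset.Icc (-w : ℤ) w) :
    ∑ a, κ a ∈ Finset.Icc (-(j * w : ℕ) : ℤ) (j * w : ℕ) := by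
  rw [Fintype.mem_piFinset] at hκ
  rw [Finset.mem_Icc]
  constructor
  · have h1 : ∑ _a : Fin j, (-w : ℤ) ≤ ∑ a, κ a :=
      Finset.sum_le_sum fun a _ => (Finset.mem_Icc.1 (hκ a)).1
    simp only [Finset.sum_const, Finset.card_univ, Fintype.card_fin, nsmul_eq_mul] at h1
    push_cast
    linarith
  · have h1 : ∑ a, κ a ≤ ∑ _a : Fin j, (w : ℤ) :=
      Finset.sum_le_sum fun a _ => (Finset.mem_Icc.1 (hκ a)).2
    simp only [Finset.sum_const, Finset.card_univ, Fintype.card_fin, nsmul_eq_mul] at h1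
    push_cast
    linarith

/-- A sum over the weights of the tensor power. -/
lemma sum_tgr {M : Type} [AddCommMonoid M] {j : ℕ} (F : ℤ → (Fin j → ℤ) → M) :
    ∑ k ∈ Finset.Icc (-(j * w : ℕ) : ℤ) (j * w : ℕ),
      ∑ κ ∈ (Fintype.piFinset fun _ : Fin j => Finset.Icc (-w : ℤ) w).filter
        (fun κ => ∑ a, κ a = k), F k κ =
    ∑ κ ∈ Fintype.piFinset fun _ : Fin j => Finset.Icc (-w : ℤ) w, F (∑ a, κ a) κ := by
  rw [← Finset.sum_fiberwise_of_maps_to (s := Fintype.piFinset fun _ : Fin j =>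
    Finset.Icc (-w : ℤ) w) (t := Finset.Icc (-(j * w : ℕ) : ℤ) (j * w : ℕ))
    (g := fun κ => ∑ a, κ a) (fun κ hκ => sum_mem_Icc hκ)]
  refine Finset.sum_congr rfl fun k _ => Finset.sum_congr rfl fun κ hκ => ?_
  rw [(Finset.mem_filter.1 hκ).2]

lemma sum_kq {j : ℕ} (c : ℤ → C) :
    ∑ κ ∈ Fintype.piFinset fun _ : Fin j => Finset.Icc (-w : ℤ) w, (∏ a, c (κ a)) • kq Q κ =
      kpw j (∑ k ∈ Finset.Icc (-w : ℤ) w, c k • Q k) := by
  ext i i'
  rw [kpw_apply, Matrix.sum_apply]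
  simp only [Matrix.sum_apply, Matrix.smul_apply, smul_eq_mul]
  rw [Finset.prod_univ_sum]
  refine Finset.sum_congr rfl fun κ _ => ?_
  rw [Finset.prod_mul_distrib]
  rfl

lemma zpow_sum {j : ℕ} (s : Cˣ) (κ : Fin j → ℤ) : ∏ a, s ^ κ a = s ^ (∑ a, κ a) := by
  induction j with
  | zero => simp
  | succ n ih => rw [Fin.prod_univ_succ, Fin.sum_univ_succ, _root_.zpow_add, ih]

lemma tgr_grading (hQ : IsGrading Q w) (j : ℕ) : IsGrading (tgr Q w j) (j * w) := by
  classical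
  refine ⟨?_, fun k hk l hl => ?_⟩
  · unfold tgr
    rw [sum_tgr (fun _ κ => kq Q κ)]
    have h1 := sum_kq (Q := Q) (w := w) (j := j) (fun _ => (1 : C))
    simp only [Finset.prod_const_one, one_smul] at h1
    rw [h1, hQ.1, kpw_one]
  · unfold tgr
    rw [Finset.sum_mul]
    simp only [Finset.mul_sum]
    split_ifs with h
    · subst h
      refine Finset.sum_congr rfl fun κ hκ => ?_
      rw [Finset.sum_eq_single κ]
      · rw [kq_mul hQ (Finset.mem_filter.1 hκ).1 (Finset.mem_filter.1 hκ).1, if_pos rfl]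
      · intro κ' hκ' hne
        rw [kq_mul hQ (Finset.mem_filter.1 hκ).1 (Finset.mem_filter.1 hκ').1,
          if_neg (Ne.symm hne)]
      · intro h
        exact absurd hκ h
    · refine Finset.sum_eq_zero fun κ hκ => Finset.sum_eq_zero fun κ' hκ' => ?_
      rw [kq_mul hQ (Finset.mem_filter.1 hκ).1 (Finset.mem_filter.1 hκ').1, if_neg]
      rintro rfl
      exact h ((Finset.mem_filter.1 hκ).2.symm.trans (Finset.mem_filter.1 hκ').2)

lemma tgr_cochar (Q : ℤ → Matrix μ μ C) (w j : ℕ) (t : Cˣ) :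
    cochar (tgr Q w j) (j * w) t = kpw j (cochar Q w t) := by
  unfold cochar
  rw [← sum_kq]
  unfold tgr
  simp only [Finset.smul_sum]
  rw [sum_tgr (fun k κ => ((t ^ k : Cˣ) : C) • kq Q κ)]
  refine Finset.sum_congr rfl fun κ _ => ?_
  rw [← Units.coe_prod, zpow_sum]

end Grading

section Level

variable {K C : Type} [Field K] [Field C] [Algebra K C] {Γ : Type} [Group Γ]
  {ι μ : Type} [Fintype ι] [DecidableEq ι] [Fintype μ] [DecidableEq μ]
  {ρ : Γ →* Matrix ι ι K} {τ : Γ →* Matrix μ μ K} {A : Type} {P : A → ℤ → Matrix ι ι C} {w₀ u : ℕ}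

/-- The polynomials in the entries of a tensor power. -/
noncomputable def sbs (K : Type) [Field K] (ι μ : Type) [Fintype ι] [Fintype μ] (j : ℕ) :
    (ι × ι) ⊕ ((Fin j → μ) × (Fin j → μ)) → MvPolynomial ((ι × ι) ⊕ (μ × μ)) K :=
  Sum.elim (fun x => MvPolynomial.X (Sum.inl x))
    (fun x => ∏ a, MvPolynomial.X (Sum.inr (x.1 a, x.2 a)))

lemma aeval_sbs {R : Type} [CommRing R] [Algebra K R] (j : ℕ) (g : Matrix ι ι R)
    (h : Matrix μ μ R) (x : (ι × ι) ⊕ ((Fin j → μ) × (Fin j → μ))) :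
    MvPolynomial.aeval (Sum.elim (ent g) (ent h)) (sbs K ι μ j x) =
      Sum.elim (ent g) (ent (kpw j h)) x := by
  rcases x with x | x
  · simp [sbs]
  · simp only [sbs, Sum.elim_inr, map_prod, MvPolynomial.aeval_X]
    rfl

lemma closure_tpow {Δ : Subgroup Γ} {g : Matrix ι ι C} {h : Matrix μ μ C}
    (hcl : InClosure ρ τ Δ g h) (j : ℕ) : InClosure ρ (tpow τ j) Δ g (kpw j h) := by
  intro f hf
  have h1 := hcl (MvPolynomial.aeval (sbs K ι μ j) f) (fun δ hδ => by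
    have h2 := hf δ hδ
    rw [← MvPolynomial.coe_aeval_eq_eval] at h2 ⊢
    change MvPolynomial.aeval _ _ = 0
    have h3 : MvPolynomial.aeval (Sum.elim (ent (ρ δ)) (ent (τ δ)))
        (MvPolynomial.aeval (sbs K ι μ j) f) =
        MvPolynomial.aeval (Sum.elim (ent (ρ δ)) (ent (kpw j (τ δ)))) f := by
      rw [MvPolynomial.comp_aeval_apply]
      congr 2
      funext x
      exact aeval_sbs j (ρ δ) (τ δ) x
    rw [h3]
    exact h2)
  rw [MvPolynomial.comp_aeval_apply] at h1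
  have h4 : (fun i => MvPolynomial.aeval (Sum.elim (ent g) (ent h)) (sbs K ι μ j i)) =
      Sum.elim (ent g) (ent (kpw j h)) := by
    funext x
    exact aeval_sbs j g h x
  rw [h4] at h1
  exact h1

/-- The level of the tensor powers. -/
lemma level_tpow (hlev : LevelLE ρ P w₀ τ u) (j : ℕ) : LevelLE ρ P w₀ (tpow τ j) (j * u) := by
  intro a
  obtain ⟨e, he, Q, hQ, hcl⟩ := hlev a
  refine ⟨e, he, tgr Q (e * u) j, ?_, fun Δ hΔ t => ?_⟩
  · have := tgr_grading hQ j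
    rwa [show j * (e * u) = e * (j * u) by ring] at this
  · have h1 := closure_tpow (hcl Δ hΔ t) j
    rw [← tgr_cochar] at h1
    rwa [show j * (e * u) = e * (j * u) by ring] at h1

lemma grading_mono {μ' : Type} [Fintype μ'] [DecidableEq μ'] {Q : ℤ → Matrix μ' μ' C} {w w' : ℕ}
    (h : w ≤ w') (hQ : IsGrading Q w) :
    ∃ Q' : ℤ → Matrix μ' μ' C, IsGrading Q' w' ∧ ∀ t, cochar Q' w' t = cochar Q w t := by
  classical
  have hsub : Finset.Icc (-w : ℤ) w ⊆ Finset.Icc (-w' : ℤ) w' := by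
    intro k hk
    rw [Finset.mem_Icc] at hk ⊢
    omega
  refine ⟨fun k => if k ∈ Finset.Icc (-w : ℤ) w then Q k else 0, ⟨?_, fun j hj k hk => ?_⟩,
    fun t => ?_⟩
  · rw [← hQ.1]
    symm
    refine Finset.sum_subset_zero_on_sdiff hsub (fun k hk => ?_) (fun k hk => ?_)
    · exact if_neg (Finset.mem_sdiff.1 hk).2
    · exact (if_pos hk).symm
  · dsimp only
    by_cases h1 : j ∈ Finset.Icc (-w : ℤ) w
    · by_cases h2 : k ∈ Finset.Icc (-w : ℤ) w
      · rw [if_pos h1, if_pos h2, hQ.2 j h1 k h2]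
      · rw [if_neg h2, Matrix.mul_zero, if_neg]
        rintro rfl
        exact h2 h1
    · rw [if_neg h1, Matrix.zero_mul, ite_self]
  · unfold cochar
    symm
    refine Finset.sum_subset_zero_on_sdiff hsub (fun k hk => ?_) (fun k hk => ?_)
    · dsimp only
      rw [if_neg (Finset.mem_sdiff.1 hk).2, smul_zero]
    · dsimp only
      rw [if_pos hk]

lemma level_mono {w w' : ℕ} (h : w ≤ w') (hlev : LevelLE ρ P w₀ τ w) :
    LevelLE ρ P w₀ τ w' := by
  intro a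
  obtain ⟨e, he, Q, hQ, hcl⟩ := hlev a
  obtain ⟨Q', hQ', hQe⟩ := grading_mono (Nat.mul_le_mul_left e h) hQ
  refine ⟨e, he, Q', hQ', fun Δ hΔ t => ?_⟩
  rw [hQe]
  exact hcl Δ hΔ t

end Level

/-- **Abelian varieties**: one `N` for all representations `W` of level at most `u`, of arbitrary
dimension, and all tensor powers `W^{⊗ j}`, `j ≤ w`. -/
theorem main_abelian {C : Type} [Field C] [CharZero C] {ι : Type} [Fintype ι] [DecidableEq ι]
    {A : Type} {P : A → ℤ → Matrix ι ι C} {w₀ : ℕ} (hP : ∀ a, IsGrading (P a) w₀)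
    (hred : GeneratesReductive P w₀) (u w : ℕ) :
    ∃ N : ℕ, ∀ (K : Type) [Field K] [Algebra K C] (Γ : Type) [Group Γ] (ρ : Γ →* Matrix ι ι K)
      (B : Matrix ι ι K) (g : (Matrix ι ι C)ˣ),
      (∀ γ, (ρ γ)ᵀ * B * ρ γ = B) → IsUnit B → IsGenerated ρ (conj g P) w₀ →
      ∀ (μ : Type) [Fintype μ] [DecidableEq μ] (τ : Γ →* Matrix μ μ K),
      LevelLE ρ (conj g P) w₀ τ u →
      ∀ (Cl : ∀ n, Submodule K ((Fin n → ι) → K))
        (S : ∀ j n, Submodule K ((Fin n → ι) → (Fin j → μ) → K)),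
        IsAbelianSystem B Cl S → (∀ m ≤ N, ∀ x, IsTate ρ m x → x ∈ Cl m) →
        (∀ j ≤ w, ∀ m ≤ N, ∀ y, IsTateM ρ (tpow τ j) m y → y ∈ S j m) →
        (∀ n x, IsTate ρ n x → x ∈ Cl n) ∧
          ∀ j ≤ w, ∀ n y, IsTateM ρ (tpow τ j) n y → y ∈ S j n := by
  obtain ⟨N, hN⟩ := main_uniform hP hred (w * u)
  refine ⟨N, fun K _ _ Γ _ ρ B g hB hBu hgen μ _ _ τ hlev Cl S hS hC hSm => ⟨?_, ?_⟩⟩
  · exact (hN K Γ ρ (fun _ => true) B g (fun γ i j h => absurd rfl h) hB hBu hgen (Fin 0 → μ)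
      (tpow τ 0) (level_mono (by simp) (level_tpow hlev 0)) Cl (S 0) (hS 0) hC
      (hSm 0 (Nat.zero_le _))).1
  · intro j hj
    exact (hN K Γ ρ (fun _ => true) B g (fun γ i j h => absurd rfl h) hB hBu hgen (Fin j → μ)
      (tpow τ j) (level_mono (Nat.mul_le_mul_right u hj) (level_tpow hlev j)) Cl (S j) (hS j) hC
      (hSm j hj)).2

end Pool.Agent.K6.H94.TG
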